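import Pool.Agent.H74.CD5

/-!
# Rank rigidity for convex cocompact splittings: definitions

`G` acts properly discontinuously by isometries on the proper CAT(0) space `X`.
-/

open Set Filter Topology Metric
open Pool.Agent.H29 Pool.Agent.H74.CC

set_option linter.unusedSectionVars false

namespace Pool.Agent.H29.RR

section Defs

variable {G X : Type*} [Group G] [MetricSpace X] [IsCAT0 X] [ProperSpace X]
  [MulAction G X] [IsIsometricSMul G X]

/-- the conjugate subgroup `g K g⁻¹` -/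
abbrev cj (K : Subgroup G) (g : G) : Subgroup G := K.map (MulAut.conj g).toMonoidHom

lemma mem_cj {K : Subgroup G} {g h : G} : h ∈ cj K g ↔ g⁻¹ * h * g ∈ K := mem_map_conj g h K

variable (X) in
/-- convex cocompact subgroups -/
def CCo (H : Subgroup G) : Prop :=
  ∃ Z : Set X, IsNC H Z ∧ Z.Nonempty ∧ CocompactOn H Z

omit [IsCAT0 X] [ProperSpace X] in
/-- asymptotic rays -/
def Asym (ρ σ : ℝ → X) : Prop := ∃ M : ℝ, ∀ t, 0 ≤ t → dist (ρ t) (σ t) ≤ M

omit [IsCAT0 X] [ProperSpace X] [IsIsometricSMul G X] in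
/-- the ray `ρ` stays at bounded distance from an orbit of `H` -/
def Lim (H : Subgroup G) (ρ : ℝ → X) : Prop :=
  ∃ x : X, ∃ M : ℝ, ∀ t, 0 ≤ t → ∃ h ∈ H, dist (ρ t) (h • x) ≤ M

/-- the intersection of the conjugates of `K` by the elements of `F` -/
def KF (K : Subgroup G) (F : Finset G) : Subgroup G := ⨅ g ∈ F, cj K g

lemma mem_KF {K : Subgroup G} {F : Finset G} {h : G} :
    h ∈ KF K F ↔ ∀ g ∈ F, h ∈ cj K g := by
  simp only [KF, Subgroup.mem_iInf]

/-- `g` is equal to `h` or lies before `h` -/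
def Le (P : Set G) (g h : G) : Prop := g = h ∨ g⁻¹ * h ∈ P

/-- the common stabiliser of the interval from `g` to `h` -/
def Fx (K : Subgroup G) (P : Set G) (g h : G) : Subgroup G :=
  ⨅ f ∈ {f : G | Le P g f ∧ Le P f h}, cj K f

lemma mem_Fx {K : Subgroup G} {P : Set G} {g h a : G} :
    a ∈ Fx K P g h ↔ ∀ f, Le P g f → Le P f h → a ∈ cj K f := by
  simp only [Fx, Subgroup.mem_iInf, mem_ofPred_eq, and_imp]

/-- positive systems: `p ∈ P` means that the translate by `p` lies beyond the base point; the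
elements of `K` and of a conjugate beyond fix, up to finite index, everything in between. -/
structure PosSys (K : Subgroup G) (P : Set G) : Prop where
  ne : P.Nonempty
  mul : ∀ p ∈ P, ∀ q ∈ P, p * q ∈ P
  left : ∀ k ∈ K, ∀ p ∈ P, k * p ∈ P
  right : ∀ k ∈ K, ∀ p ∈ P, p * k ∈ P
  virt : ∀ p ∈ P, (Fx K P 1 p).relIndex (K ⊓ cj K p) ≠ 0

/-- a positive system with a uniform bound for the distance of minimal sets -/
structure Unif (K : Subgroup G) (P : Set G) (p0 : G) (Y : Set X) (R : ℝ) : Prop where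
  pos : PosSys K P
  cc : CCo X K
  mem : p0 ∈ P
  min : IsMinl (Fx K P 1 p0) Y
  unif : ∀ g h : G, Le P g 1 → Le P p0 h → ∀ A B : Set X, IsMinl (Fx K P g h) A →
    IsMinl (Fx K P g h) B → A ⊆ Y → B ⊆ Y → ∀ a ∈ A, infDist a B ≤ R

omit [IsCAT0 X] [ProperSpace X] [IsIsometricSMul G X] in
/-- Coherence of two base points with respect to the common limit points of two subgroups. -/
def Coh (H H' : Subgroup G) (x x' : X) (C : ℝ) : Prop :=
  ∀ ρ ρ' σ σ' : ℝ → X, IsRay ρ → IsRay ρ' → IsRay σ → IsRay σ' →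
    ρ 0 = x → ρ' 0 = x → σ 0 = x' → σ' 0 = x' → Asym ρ σ → Asym ρ' σ' →
    Lim H ρ → Lim H' ρ → Lim H ρ' → Lim H' ρ' →
    ∀ t, 0 ≤ t → |dist (ρ t) (ρ' t) - dist (σ t) (σ' t)| ≤ C

omit [IsCAT0 X] [ProperSpace X] [IsIsometricSMul G X] in
/-- admissible differences of a coherent path -/
def Qs (K : Subgroup G) (u : G) (o : X) (C : ℝ) (n : ℤ) : Set G :=
  {w | Coh K (cj K w) o (w • o) C ∧ dist o (w • o) ≤ C * |(n : ℝ)| + C ∧
    (n = 1 → ∃ k ∈ K, ∃ k' ∈ K, w = k * u * k')}

omit [IsCAT0 X] [ProperSpace X] [IsIsometricSMul G X] in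
variable (X) in
/-- a line which loses no limit point when its left half is removed -/
structure ELine (K : Subgroup G) (P : Set G) (f : ℤ → G) : Prop where
  lt : ∀ i j : ℤ, i < j → (f i)⁻¹ * f j ∈ P
  exact : ∀ ρ : ℝ → X, IsRay ρ → (∀ i : ℤ, 1 ≤ i → Lim (cj K (f i)) ρ) →
    ∀ i : ℤ, Lim (cj K (f i)) ρ

end Defs

end Pool.Agent.H29.RR
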