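import Pool.Agent.H29.RR.Base

/-!
# Convex cocompact subgroups
-/

open Set Filter Topology Metric
open Pool.Agent.H29 Pool.Agent.H74.CC

set_option linter.unusedSectionVars false

namespace Pool.Agent.H29.RR

variable {G X : Type*} [Group G] [MetricSpace X] [IsCAT0 X] [ProperSpace X]
  [MulAction G X] [IsIsometricSMul G X]

lemma infDist_smul' (g : G) (x : X) (B : Set X) :
    infDist (g • x) ((fun y => g • y) '' B) = infDist x B := by
  rw [infDist_smul_image, inv_smul_smul]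

lemma isNC_le {H H' : Subgroup G} (hle : H' ≤ H) {Z : Set X} (h : IsNC H Z) : IsNC H' Z :=
  ⟨h.closed, h.convex, fun n hn => h.inv n (hle hn)⟩

lemma isNC_nbhd {H : Subgroup G} {Z : Set X} (hZ : IsNC H Z) (hne : Z.Nonempty) (r : ℝ) :
    IsNC H {z : X | infDist z Z ≤ r} :=
  isNC_sublevel (gconvexFun_infDist hZ.closed hne hZ.convex) (continuous_infDist_pt Z)
    (fun _ hn x => hZ.infDist_smul hn x) r

lemma cocompactOn_nbhd {H : Subgroup G} {Z : Set X} (hZ : IsNC H Z) (hne : Z.Nonempty)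
    (h : CocompactOn H Z) (r : ℝ) : CocompactOn H {z : X | infDist z Z ≤ r} := by
  obtain ⟨B, hB, hc⟩ := h
  refine ⟨cthickening r B, hB.cthickening, ?_⟩
  intro z hz
  obtain ⟨c, hcH, hcB⟩ := hc (proj Z z) (proj_mem hZ.closed hne z)
  refine ⟨c, hcH, mem_cthickening_of_dist_le _ (c • proj Z z) _ _ hcB ?_⟩
  rw [dist_smul, dist_proj hZ.closed hne]
  exact hz

lemma CCo.exists_isMinl {H : Subgroup G} (h : CCo X H) {W : Set X} (hW : IsNC H W)
    (hne : W.Nonempty) : ∃ A ⊆ W, IsMinl H A := by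
  obtain ⟨Z, hZ, hZne, hZc⟩ := h
  obtain ⟨w, hw⟩ := hne
  obtain ⟨A, hA, hmin⟩ := Pool.Agent.H74.CC.exists_isMinl (hW.inter (isNC_nbhd hZ hZne (infDist w Z)))
    ⟨w, hw, le_refl (infDist w Z)⟩ ((cocompactOn_nbhd hZ hZne hZc _).mono inter_subset_right)
  exact ⟨A, hA.trans inter_subset_left, hmin⟩

lemma CCo.cocompactOn {H : Subgroup G} (h : CCo X H) {A : Set X} (hA : IsMinl H A) :
    CocompactOn H A := by
  obtain ⟨Z, hZ, hZne, hZc⟩ := h
  obtain ⟨a, ha⟩ := hA.ne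
  apply (cocompactOn_nbhd hZ hZne hZc (infDist a Z)).mono
  intro b hb
  exact (hA.const (gconvexFun_infDist hZ.closed hZne hZ.convex) (continuous_infDist_pt Z)
    (fun _ hn x => hZ.infDist_smul hn x) hb ha).le

lemma CCo.inf [ProperlyDiscontinuousSMul G X] {H1 H2 : Subgroup G} (h1 : CCo X H1)
    (h2 : CCo X H2) : CCo X (H1 ⊓ H2) := by
  obtain ⟨Z1, hZ1, ⟨z, hz⟩, hc1⟩ := h1
  obtain ⟨Z2, hZ2, hne2, hc2⟩ := h2
  exact ⟨Z1 ∩ {w : X | infDist w Z2 ≤ infDist z Z2},
    (isNC_le inf_le_left hZ1).inter (isNC_le inf_le_right (isNC_nbhd hZ2 hne2 _)),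
    ⟨z, hz, le_refl (infDist z Z2)⟩, cocompactOn_inf hc1 hc2 hZ2.closed hne2 _⟩

lemma CCo.conj {H : Subgroup G} (h : CCo X H) (g : G) : CCo X (cj H g) := by
  obtain ⟨Z, hZ, hne, hc⟩ := h
  exact ⟨(fun x => g • x) '' Z, isNC_smul hZ g, hne.image _, cocompactOn_smul hc g⟩

lemma CCo.finiteIndex {H H' : Subgroup G} (h : CCo X H) (hle : H' ≤ H)
    (hidx : H'.relIndex H ≠ 0) : CCo X H' := by
  obtain ⟨Z, hZ, hne, hc⟩ := h
  exact ⟨Z, isNC_le hle hZ, hne, hc.finiteIndex hidx⟩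

lemma CCo.KF [ProperlyDiscontinuousSMul G X] {K : Subgroup G} (h : CCo X K) {F : Finset G}
    (hF : F.Nonempty) : CCo X (KF K F) := by
  classical
  induction hF using Finset.Nonempty.cons_induction with
  | singleton a =>
    have : RR.KF K {a} = cj K a := by
      ext g
      rw [mem_KF]
      simp
    rw [this]
    exact h.conj a
  | cons a s ha hs ih =>
    have : RR.KF K (Finset.cons a s ha) = cj K a ⊓ RR.KF K s := by
      ext g
      rw [Subgroup.mem_inf, mem_KF, mem_KF]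
      simp
    rw [this]
    exact (h.conj a).inf ih

end Pool.Agent.H29.RR
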