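import Pool.Agent.H29.RR.CCo

/-!
# Co-Hopf property up to commensurability

**Theorem.**  Let `K` be convex cocompact.  If `K ⊓ cj K g` has finite index in `K` then it has finite
index in `cj K g`.

Proof.  By conjugation with `g⁻¹` (`relIndex_conj`, `cj_cj` style computations, see the end of
`Pool.Agent.H29.RR.Core`) it is enough to show (with `g⁻¹` in place of `g`): if
`K.relIndex (cj K g) ≠ 0` (i.e. `H := K ⊓ cj K g` has finite index in `cj K g`) then
`(cj K g).relIndex K ≠ 0`.  This is `cohopf_aux`.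

Let `M` be minimal closed convex invariant for `K` (`CCo.exists_isMinl`), cocompact
(`CCo.cocompactOn`).  `g M` is minimal for `cj K g` (`isMinl_smul`), hence for `H`
(`isMinl_of_finiteIndex`).  `H` is convex cocompact (`CCo.conj`, `CCo.finiteIndex`) and `M` is `H`-invariant, so
there is an `H`-minimal `M' ⊆ M` (`CCo.exists_isMinl`, `isNC_le`).  The map
`φ x = proj M' (g • x)` is an isometric embedding of `M` onto `M'` (`IsMinl.dist_proj_proj`,
`IsMinl.proj_proj`).
Packing: for `x ∈ M` let `N x` be the largest `n` such that there are `n` points of `M` at distance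
`≤ r` from `x` with mutual distances `≥ 1`; it is bounded (cocompactness, see
`exists_packing_bound` in `Pool.Agent.H29.RR.Rank`; here translate `x` into a compact set by `K`),
here `r := D + 2`, where `D` is such that for all `x y ∈ M` there is `k ∈ K` with `dist (k • x) y ≤ D`.
Choose `x₀ ∈ M` with `N x₀` maximal, with points `z i`.  For `k ∈ K` the points `φ (k • z i) ∈ M' ⊆ M`
show that every `y ∈ M` with `dist (φ (k • x₀)) y ≤ r` satisfies `dist y (φ (k • z i)) < 1` for some
`i` (otherwise `N (φ (k • x₀)) > N x₀`), so `infDist y M' < 1`.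
Claim: `infDist y M' ≤ 1` for all `y ∈ M`.  Otherwise on the segment from `proj M' y` to `y` (in `M`) there is a
point `w ∈ M` with `infDist w M' = 1` (intermediate value theorem).  Let `y'' = proj M' w`,
`dist w y'' = 1`, `y'' = φ x` with `x ∈ M`; choose `k ∈ K` with `dist (k • x₀) x ≤ D`, then
`dist (φ (k • x₀)) w ≤ D + 1 ≤ r`, so `infDist w M' < 1`, a contradiction.
`H` acts cocompactly on `M'` (`CCo.cocompactOn`), hence on `M` (thicken the compact set by `1`).  So
`H` has finite index in `K` by `relIndex_ne_zero_of_cover` (`Pool.Agent.H74.CC1`): for `c ∈ K` and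
`p ∈ M` we have `c • p ∈ M`, so some `a ∈ H` maps it into the compact set.
-/

open Set Filter Topology Metric
open Pool.Agent.H29 Pool.Agent.H74.CC

set_option linter.unusedSectionVars false

namespace Pool.Agent.H29.RR

variable {G X : Type*} [Group G] [MetricSpace X] [IsCAT0 X] [ProperSpace X]
  [MulAction G X] [IsIsometricSMul G X] [ProperlyDiscontinuousSMul G X]

theorem cohopf_aux {K : Subgroup G} (hK : CCo X K) {g : G} (h : K.relIndex (cj K g) ≠ 0) :
    (cj K g).relIndex K ≠ 0 := by
  classical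
  set H : Subgroup G := K ⊓ cj K g with hHdef
  have hHidx : H.relIndex (cj K g) ≠ 0 := by
    rw [hHdef, Subgroup.inf_relIndex_right]
    exact h
  obtain ⟨M, hM⟩ : ∃ M : Set X, IsMinl K M := by
    obtain ⟨Z, hZ, hne, _⟩ := id hK
    obtain ⟨M, _, hM⟩ := hK.exists_isMinl hZ hne
    exact ⟨M, hM⟩
  obtain ⟨B0, hB0, hcov⟩ := hK.cocompactOn hM
  have hgM : IsMinl H ((fun x => g • x) '' M) :=
    isMinl_of_finiteIndex inf_le_right hHidx (isMinl_smul hM g)
  have hHc : CCo X H := (hK.conj g).finiteIndex inf_le_right hHidx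
  obtain ⟨M', hM'M, hM'⟩ := hHc.exists_isMinl (isNC_le inf_le_left hM.isNC) hM.ne
  set φ : X → X := fun x => proj M' (g • x) with hφ
  have hφM' : ∀ x, φ x ∈ M' := fun x => proj_mem hM'.isNC.closed hM'.ne _
  have hφd : ∀ x ∈ M, ∀ y ∈ M, dist (φ x) (φ y) = dist x y := by
    intro x hx y hy
    simp only [hφ]
    rw [hgM.dist_proj_proj hM' (mem_image_of_mem _ hx) (mem_image_of_mem _ hy), dist_smul]
  have hφs : ∀ y ∈ M', ∃ x ∈ M, φ x = y := by
    intro y hy
    obtain ⟨x, hx, hxe⟩ := proj_mem hgM.isNC.closed hgM.ne y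
    refine ⟨x, hx, ?_⟩
    simp only [hφ]
    have hxe' : g • x = proj ((fun x => g • x) '' M) y := hxe
    rw [hxe']
    exact hM'.proj_proj hgM hy
  -- approximation by orbits
  set D := Metric.diam B0 with hD
  have hDnn : 0 ≤ D := Metric.diam_nonneg
  have happ : ∀ x ∈ M, ∀ y ∈ M, ∃ k ∈ K, dist (k • x) y ≤ D := by
    intro x hx y hy
    obtain ⟨c1, hc1, h1⟩ := hcov x hx
    obtain ⟨c2, hc2, h2⟩ := hcov y hy
    refine ⟨c2⁻¹ * c1, K.mul_mem (K.inv_mem hc2) hc1, ?_⟩
    rw [← dist_smul c2, mul_smul, smul_inv_smul]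
    exact Metric.dist_le_diam_of_mem hB0.isBounded h1 h2
  -- packing
  set r := D + 2 with hr
  let Pk : ℕ → X → Prop := fun n x => ∃ z : Fin n → X, (∀ i, z i ∈ M ∧ dist x (z i) ≤ r) ∧
    ∀ i j, i ≠ j → 1 ≤ dist (z i) (z j)
  have hbound : ∃ N, ∀ x ∈ M, ¬ Pk N x := by
    have hK1 : IsCompact (cthickening r B0) := hB0.cthickening
    obtain ⟨t, _, htfin, htcov⟩ := hK1.finite_cover_balls (e := 1 / 2) (by norm_num)
    refine ⟨htfin.toFinset.card + 1, ?_⟩
    rintro x hx ⟨z, hz, hsep⟩
    obtain ⟨c, hc, hcx⟩ := hcov x hx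
    have hin : ∀ m, ∃ y ∈ htfin.toFinset, dist (c • z m) y < 1 / 2 := by
      intro m
      have h1 : c • z m ∈ cthickening r B0 := by
        refine mem_cthickening_of_dist_le _ (c • x) _ _ hcx ?_
        rw [dist_smul, dist_comm]
        exact (hz m).2
      obtain ⟨y, hy, hym⟩ := mem_iUnion₂.mp (htcov h1)
      exact ⟨y, by simpa using hy, by simpa using hym⟩
    choose y hy hdist using hin
    obtain ⟨m, _, n, _, hmn, heq⟩ := Finset.exists_ne_map_eq_of_card_lt_of_maps_to
      (s := Finset.univ) (t := htfin.toFinset) (f := y) (by simp) (fun m _ => hy m)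
    have h1 := hsep m n hmn
    have h2 := dist_triangle_right (c • z m) (c • z n) (y m)
    have h3 := hdist m
    have h4 := hdist n
    rw [← heq] at h4
    rw [dist_smul] at h2
    linarith
  have hmin : ∀ n < Nat.find hbound, ∃ x ∈ M, Pk n x := by
    intro n hn
    have h1 := Nat.find_min hbound hn
    push Not at h1
    exact h1
  have hfind := Nat.find_spec hbound
  obtain ⟨m, hm⟩ : ∃ m, Nat.find hbound = m + 1 := by
    rcases Nat.eq_zero_or_pos (Nat.find hbound) with h0 | h0
    · obtain ⟨x, hx⟩ := hM.ne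
      rw [h0] at hfind
      exact absurd ⟨fun i => i.elim0, fun i => i.elim0, fun i => i.elim0⟩ (hfind x hx)
    · exact ⟨Nat.find hbound - 1, by omega⟩
  obtain ⟨x0, hx0, z, hz, hsep⟩ := hmin m (by omega)
  rw [hm] at hfind
  have hkey : ∀ k ∈ K, ∀ y ∈ M, dist (φ (k • x0)) y ≤ r → infDist y M' < 1 := by
    intro k hk y hy hd
    have hkM : ∀ x ∈ M, k • x ∈ M := fun x hx => hM.isNC.inv k hk x hx
    have hpk := hfind (φ (k • x0)) (hM'M (hφM' _))
    by_contra hcon
    push Not at hcon
    apply hpk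
    refine ⟨Fin.cons y (fun i => φ (k • z i)), ?_, ?_⟩
    · intro i
      refine Fin.cases ?_ (fun i => ?_) i
      · rw [Fin.cons_zero]
        exact ⟨hy, hd⟩
      · rw [Fin.cons_succ]
        refine ⟨hM'M (hφM' _), ?_⟩
        rw [hφd _ (hkM _ hx0) _ (hkM _ (hz i).1), dist_smul]
        exact (hz i).2
    · intro i j
      refine Fin.cases ?_ (fun i => ?_) i
      · refine Fin.cases ?_ (fun j => ?_) j
        · intro h; exact absurd rfl h
        · intro _
          rw [Fin.cons_zero, Fin.cons_succ]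
          exact hcon.trans (infDist_le_dist_of_mem (hφM' _))
      · refine Fin.cases ?_ (fun j => ?_) j
        · intro _
          rw [Fin.cons_zero, Fin.cons_succ, dist_comm]
          exact hcon.trans (infDist_le_dist_of_mem (hφM' _))
        · intro h
          rw [Fin.cons_succ, Fin.cons_succ, hφd _ (hkM _ (hz i).1) _ (hkM _ (hz j).1), dist_smul]
          exact hsep i j (fun h' => h (by rw [h']))
  have hclose : ∀ y ∈ M, infDist y M' ≤ 1 := by
    intro y hy
    by_contra hcon
    push Not at hcon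
    set p := proj M' y with hp
    have hpM' : p ∈ M' := proj_mem hM'.isNC.closed hM'.ne y
    have hL : dist y p = infDist y M' := dist_proj hM'.isNC.closed hM'.ne y
    have hL1 : 1 < dist p y := by rw [dist_comm, hL]; exact hcon
    have hLpos : 0 < dist p y := by linarith
    have ht : 1 / dist p y ∈ Icc (0 : ℝ) 1 := by
      constructor
      · positivity
      · rw [div_le_one hLpos]; exact hL1.le
    set w := pt p y (1 / dist p y) with hw
    have hwM : w ∈ M := hM.isNC.convex p (hM'M hpM') y hy _ ht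
    have hpw : dist p w = 1 := by
      rw [hw, dist_left_pt p y ht]
      field_simp
    have hwy : dist w y = dist p y - 1 := by
      rw [hw, dist_pt_right p y ht]
      field_simp
    have hw1 : 1 ≤ infDist w M' := by
      have h1 : infDist y M' ≤ infDist w M' + dist y w := infDist_le_infDist_add_dist
      rw [dist_comm y w, hwy, dist_comm p y, hL] at h1
      linarith
    obtain ⟨x, hx, hxe⟩ := hφs p hpM'
    obtain ⟨k, hk, hkd⟩ := happ x0 hx0 x hx
    have h2 : dist (φ (k • x0)) w ≤ r := by
      have h3 := dist_triangle (φ (k • x0)) p w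
      rw [← hxe, hφd _ (hM.isNC.inv k hk x0 hx0) _ hx, hxe] at h3
      linarith
    have h4 := hkey k hk w hwM h2
    linarith
  obtain ⟨B1, hB1, hcov1⟩ := hHc.cocompactOn hM'
  obtain ⟨p, hp⟩ := hM.ne
  apply relIndex_ne_zero_of_cover (p := p) (K := cthickening 1 B1) hB1.cthickening
  intro c hc
  have hcp : c • p ∈ M := hM.isNC.inv c hc p hp
  obtain ⟨a, ha, haB⟩ := hcov1 (proj M' (c • p)) (proj_mem hM'.isNC.closed hM'.ne _)
  refine ⟨a, ha, ?_⟩
  refine mem_cthickening_of_dist_le _ _ _ _ haB ?_
  rw [dist_smul, dist_proj hM'.isNC.closed hM'.ne]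
  exact hclose _ hcp

/-- **Co-Hopf property up to commensurability.** -/
theorem cohopf_comm {K : Subgroup G} (hK : CCo X K) {g : G} (h : (cj K g).relIndex K ≠ 0) :
    K.relIndex (cj K g) ≠ 0 := by
  have hinj : ∀ a : G, Function.Injective (MulAut.conj a).toMonoidHom := fun a =>
    (MulAut.conj a).injective
  have e1 : cj (cj K g) g⁻¹ = K := by
    ext x
    rw [mem_cj, mem_cj]
    have : g⁻¹ * (g⁻¹⁻¹ * x * g⁻¹) * g = x := by group
    rw [this]
  have e2 : cj (cj K g⁻¹) g = K := by
    ext x
    rw [mem_cj, mem_cj]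
    have : g⁻¹⁻¹ * (g⁻¹ * x * g) * g⁻¹ = x := by group
    rw [this]
  have h1 : K.relIndex (cj K g⁻¹) ≠ 0 := by
    have := Subgroup.relIndex_map_map_of_injective (cj K g) K (hinj g⁻¹)
    rw [show (cj K g).map (MulAut.conj g⁻¹).toMonoidHom = K from e1] at this
    rw [this]
    exact h
  have h2 := cohopf_aux hK h1
  have := Subgroup.relIndex_map_map_of_injective (cj K g⁻¹) K (hinj g)
  rw [show (cj K g⁻¹).map (MulAut.conj g).toMonoidHom = K from e2] at this
  rw [this]
  exact h2

end Pool.Agent.H29.RR
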