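import Pool.Agent.H29.RR.Cross

/-!
# The stabiliser of a component of the non-crossing graph

`Conn H` is an equivalence relation on `H` (for members of `H`), invariant under `G`.  For `A ∈ H`
the elements `g` with `Conn H A (g • A)` form a subgroup.  It has finite index: choose
representatives `q.out` of the cosets `q : G ⧸ compGrp`; if `q.out • A` and `q'.out • A` do not cross
then they are connected, so `Conn H A ((q.out⁻¹ * q'.out) • A)` and `q = q'`.  So the family
`{q.out • A}` is pairwise crossing (and `q ↦ q.out • A` is injective, because a set does not cross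
itself), hence finite by `width`.
-/

open Set
open scoped Pointwise

namespace Pool.Agent.H29.RR

section Comp

variable {G V : Type*} [Group G] [MulAction G V] {H : Set (Set V)} {A B C D : Set V}

lemma Conn.refl (H : Set (Set V)) (A : Set V) : Conn H A A := Relation.ReflTransGen.refl

lemma Conn.trans (h1 : Conn H A B) (h2 : Conn H B C) : Conn H A C :=
  Relation.ReflTransGen.trans h1 h2

lemma Conn.of_not_crossing (hB : B ∈ H) (h : ¬ Crossing A B) : Conn H A B :=
  Relation.ReflTransGen.single ⟨hB, h⟩

lemma Conn.symm (hA : A ∈ H) (h : Conn H A B) : Conn H B A := by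
  induction h with
  | refl => exact Relation.ReflTransGen.refl
  | tail hb hc ih =>
    exact Conn.trans (Conn.of_not_crossing (Conn.mem hA hb) (fun h => hc.2 h.symm)) ih

lemma Conn.smul (hS : HalfSys G H) (g : G) (h : Conn H A B) : Conn H (g • A) (g • B) := by
  induction h with
  | refl => exact Relation.ReflTransGen.refl
  | tail _ hc ih =>
    exact Relation.ReflTransGen.tail ih ⟨hS.smul g _ hc.1, fun h => hc.2 ((crossing_smul g).1 h)⟩

/-- the stabiliser of the component of `A` -/
def compGrp (hS : HalfSys G H) (hA : A ∈ H) : Subgroup G where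
  carrier := {g : G | Conn H A (g • A)}
  one_mem' := by
    simp only [Set.mem_ofPred_eq, one_smul]
    exact Conn.refl H A
  mul_mem' := by
    intro a b ha hb
    simp only [Set.mem_ofPred_eq] at ha hb ⊢
    rw [mul_smul]
    exact ha.trans (Conn.smul hS a hb)
  inv_mem' := by
    intro a ha
    simp only [Set.mem_ofPred_eq] at ha ⊢
    have h := Conn.smul hS a⁻¹ ha
    rw [inv_smul_smul] at h
    exact Conn.symm (hS.smul a⁻¹ A hA) h

lemma mem_compGrp (hS : HalfSys G H) (hA : A ∈ H) {g : G} :
    g ∈ compGrp hS hA ↔ Conn H A (g • A) := Iff.rfl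

theorem compGrp_finiteIndex (hS : HalfSys G H) (hA : A ∈ H) : (compGrp hS hA).FiniteIndex := by
  classical
  have key : ∀ q q' : G ⧸ compGrp hS hA, ¬ Crossing (q.out • A) (q'.out • A) → q = q' := by
    intro q q' h
    have h1 : Conn H (q.out • A) (q'.out • A) :=
      Conn.of_not_crossing (hS.smul _ A hA) h
    have h2 := Conn.smul hS (q.out)⁻¹ h1
    rw [inv_smul_smul, smul_smul] at h2
    have h3 : (q.out)⁻¹ * q'.out ∈ compGrp hS hA := (mem_compGrp hS hA).2 h2
    have h4 : (QuotientGroup.mk q.out : G ⧸ compGrp hS hA) = QuotientGroup.mk q'.out :=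
      QuotientGroup.eq.2 h3
    simpa using h4
  have hinj : Function.Injective (fun q : G ⧸ compGrp hS hA => q.out • A) := by
    intro q q' h
    refine key q q' ?_
    simp only at h
    rw [h]
    exact not_crossing_self _
  have hfin : (Set.range (fun q : G ⧸ compGrp hS hA => q.out • A)).Finite := by
    refine hS.width _ ?_ ?_
    · rintro _ ⟨q, rfl⟩
      exact hS.smul _ A hA
    · rintro _ ⟨q, rfl⟩ _ ⟨q', rfl⟩ hne
      by_contra hc
      exact hne (by rw [key q q' hc])
  have : Finite (G ⧸ compGrp hS hA) := by
    have := hfin.to_subtype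
    exact Finite.of_injective_finite_range hinj
  exact Subgroup.finiteIndex_of_finite_quotient

end Comp

end Pool.Agent.H29.RR
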