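import Pool.Agent.H29.RR.Rank

/-!
# The commensurated core of a convex cocompact subgroup
-/

open Set Filter Topology Metric
open Pool.Agent.H29 Pool.Agent.H74.CC

set_option linter.unusedSectionVars false

namespace Pool.Agent.H29.RR

variable {G X : Type*} [Group G] [MetricSpace X] [IsCAT0 X] [ProperSpace X]
  [MulAction G X] [IsIsometricSMul G X] [ProperlyDiscontinuousSMul G X]

/-- uniform bound for the number of translates of a compact set which come near a point -/
lemma exists_card_bound (hcoc : Cocompact G X) {C1 : Set X} (hC1 : IsCompact C1) (r : ℝ) :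
    ∃ N : ℕ, ∀ (b : X) (s : Finset G), (∀ g ∈ s, ∃ c ∈ C1, dist b (g • c) ≤ r) → s.card ≤ N := by
  classical
  obtain ⟨K0, hK0, hcov⟩ := hcoc
  have hfin := ProperlyDiscontinuousSMul.finite_disjoint_inter_image (Γ := G) hC1
    (hK0.cthickening (r := r))
  refine ⟨hfin.toFinset.card, fun b s hs => ?_⟩
  obtain ⟨h, hh⟩ := hcov b
  apply Finset.card_le_card_of_injOn (fun g => h * g)
  · intro g hg
    obtain ⟨c, hc, hd⟩ := hs g hg
    simp only [Set.Finite.coe_toFinset, mem_ofPred_eq]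
    refine ⟨(h * g) • c, ⟨c, hc, rfl⟩, ?_⟩
    apply mem_cthickening_of_dist_le _ (h • b) _ _ hh
    rw [mul_smul, dist_smul, dist_comm]
    exact hd
  · intro a _ b _ hab
    exact mul_left_cancel hab

lemma KF_anti {K : Subgroup G} {F F' : Finset G} (h : F ⊆ F') : KF K F' ≤ KF K F := by
  intro a ha
  rw [mem_KF] at ha ⊢
  exact fun g hg => ha g (h hg)

lemma mem_KF_mul {K : Subgroup G} {F F' : Finset G} {k a : G} (h : ∀ g ∈ F, k * g ∈ F')
    (ha : a ∈ KF K F') : a ∈ cj (KF K F) k := by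
  rw [mem_cj, mem_KF]
  intro g hg
  have h1 := (mem_KF.1 ha) (k * g) (h g hg)
  rw [mem_cj] at h1 ⊢
  have : g⁻¹ * (k⁻¹ * a * k) * g = (k * g)⁻¹ * a * (k * g) := by group
  rw [this]
  exact h1

/-- Some finite intersection of conjugates of a convex cocompact subgroup is commensurated. -/
theorem exists_core (hcoc : Cocompact G X) {K : Subgroup G} (hK : CCo X K) :
    ∃ F : Finset G, F.Nonempty ∧ ∀ g : G, Comm2 (cj (KF K F) g) (KF K F) := by
  classical
  have : Nonempty {F : Finset G // F.Nonempty} := ⟨⟨{1}, Finset.singleton_nonempty 1⟩⟩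
  obtain ⟨⟨F0, hF0⟩, R, hu⟩ := exists_uniform (X := X)
    (ι := {F : Finset G // F.Nonempty}) (H := fun F => KF K F.1)
    (fun i j hij => KF_anti hij) (fun i => hK.KF i.2) hcoc
  have key : ∀ F1 : Finset G, F0 ⊆ F1 → (KF K F1).relIndex (KF K F0) ≠ 0 := by
    intro F1 h01 hzero
    have hF1 : F1.Nonempty := hF0.mono h01
    have hcc0 : CCo X (KF K F0) := hK.KF hF0
    have hcc1 : CCo X (KF K F1) := hK.KF hF1
    obtain ⟨D, hD⟩ : ∃ D : Set X, IsMinl (KF K F0) D := by
      obtain ⟨Z, hZ, hne, _⟩ := id hcc0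
      obtain ⟨D, _, hD⟩ := hcc0.exists_isMinl hZ hne
      exact ⟨D, hD⟩
    obtain ⟨A1, hA1D, hA1⟩ := hcc1.exists_isMinl (isNC_le (KF_anti h01) hD.isNC) hD.ne
    obtain ⟨C1, hC1, hcov⟩ := hcc1.cocompactOn hA1
    obtain ⟨N0, hN0⟩ := exists_card_bound (G := G) hcoc hC1 (R + 1)
    -- many cosets
    have hinf : Infinite ((KF K F0) ⧸ (KF K F1).subgroupOf (KF K F0)) := by
      rw [Subgroup.relIndex, Subgroup.index_eq_zero_iff_infinite] at hzero
      exact hzero
    obtain ⟨q, hq⟩ := Infinite.exists_subset_card_eq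
      ((KF K F0) ⧸ (KF K F1).subgroupOf (KF K F0)) (N0 + 1)
    set F : Finset G := F0 ∪ q.biUnion (fun c => F1.image (fun g => (c.out : G) * g)) with hFdef
    have hF0F : F0 ⊆ F := Finset.subset_union_left
    have hF : F.Nonempty := hF0.mono hF0F
    have hccF : CCo X (KF K F) := hK.KF hF
    obtain ⟨B, hBD, hB⟩ := hccF.exists_isMinl (isNC_le (KF_anti hF0F) hD.isNC) hD.ne
    obtain ⟨b, hb⟩ := hB.ne
    have hg : ∀ c ∈ q, ∃ κ ∈ KF K F1, ∃ y ∈ C1, dist b (((c.out : G) * κ⁻¹) • y) ≤ R + 1 := by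
      intro c hc
      set k : G := (c.out : G) with hk
      have hkmem : k ∈ KF K F0 := (c.out).2
      have hle : KF K F ≤ cj (KF K F1) k := by
        intro a ha
        apply mem_KF_mul _ ha
        intro g hg
        rw [hFdef]
        apply Finset.mem_union_right
        rw [Finset.mem_biUnion]
        exact ⟨c, hc, Finset.mem_image_of_mem _ hg⟩
      have hNC : IsNC (KF K F) ((fun x => k • x) '' A1) :=
        isNC_le hle (isNC_smul hA1.isNC k)
      obtain ⟨B', hB'A, hB'⟩ := hccF.exists_isMinl hNC (hA1.ne.image _)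
      have hB'D : B' ⊆ D := by
        refine hB'A.trans ?_
        rintro _ ⟨x, hx, rfl⟩
        exact hD.isNC.inv k hkmem x (hA1D hx)
      have h1 : infDist b B' ≤ R := hu ⟨F, hF⟩ hF0F D B B' hD hB hB' hBD hB'D b hb
      obtain ⟨z, hz, hdz⟩ := (infDist_lt_iff hB'.ne).1 (lt_of_le_of_lt h1 (lt_add_one R))
      obtain ⟨x, hx, rfl⟩ := hB'A hz
      obtain ⟨κ, hκ, hκx⟩ := hcov x hx
      refine ⟨κ, hκ, κ • x, hκx, ?_⟩
      rw [mul_smul, inv_smul_smul]
      exact hdz.le
    have : Nonempty X := ⟨b⟩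
    choose! κ hκ y hy hdist using hg
    have hcard := hN0 b (q.image (fun c => (c.out : G) * (κ c)⁻¹)) (by
      intro g hg
      obtain ⟨c, hc, rfl⟩ := Finset.mem_image.1 hg
      exact ⟨y c, hy c hc, hdist c hc⟩)
    rw [Finset.card_image_of_injOn, hq] at hcard
    · omega
    · intro c hc c' hc' heq
      have heq' : (c.out : G) * (κ c)⁻¹ = (c'.out : G) * (κ c')⁻¹ := heq
      rw [← QuotientGroup.out_eq' c, ← QuotientGroup.out_eq' c']
      rw [QuotientGroup.eq, Subgroup.mem_subgroupOf]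
      have : ((c.out⁻¹ * c'.out : KF K F0) : G) = (κ c)⁻¹ * κ c' := by
        push_cast
        have h3 : (c'.out : G) = (c.out : G) * (κ c)⁻¹ * κ c' := by rw [heq']; group
        rw [h3]; group
      rw [this]
      exact mul_mem (inv_mem (hκ c hc)) (hκ c' hc')
  have key2 : ∀ g : G, (cj (KF K F0) g).relIndex (KF K F0) ≠ 0 := by
    intro g h0
    apply key (F0 ∪ F0.image (fun x => g * x)) Finset.subset_union_left
    apply Subgroup.relIndex_eq_zero_of_le_left _ h0
    intro a ha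
    apply mem_KF_mul _ ha
    intro x hx
    exact Finset.mem_union_right _ (Finset.mem_image_of_mem _ hx)
  refine ⟨F0, hF0, fun g => ⟨key2 g, ?_⟩⟩
  have h1 := key2 g⁻¹
  rw [← relIndex_conj g, map_conj_conj, mul_inv_cancel] at h1
  convert h1 using 2
  ext a
  rw [mem_map_conj]
  simp

end Pool.Agent.H29.RR
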