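import Pool.Agent.H29.RR.WDefs

/-!
# Half-spaces with flips and without infinite crossing families

Everything here is elementary set theory.  `A ~ B` below means that `A` and `B` do not cross, i.e.
one of the four corners is empty: `A ⊆ Bᶜ`, `A ⊆ B`, `B ⊆ A` or `Aᶜ ⊆ B`.

**Sector lemma** (`exists_sector`).  Let `A, C, E ∈ H` with `A ~ E` and `C ~ E`.  Then some `B ∈ H`
satisfies `B ⊆ A` and (`B ⊆ C` or `B ⊆ Cᶜ`).
Proof.  (0) If `X ∈ H`, `X ⊆ A` and `X ~ C` then we are done: if `X ⊆ C` or `X ⊆ Cᶜ` take `B = X`; if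
`C ⊆ X` take `B = C`; if `Xᶜ ⊆ C`, i.e. `Cᶜ ⊆ X`, take `B = Cᶜ`.  So assume `A` and `C` cross.
(1) `A ~ E`: for some `E' ∈ {E, Eᶜ}` we have `E' ⊆ A` or `E' ⊆ Aᶜ`. `C ~ E`: for some
`E'' ∈ {E, Eᶜ}` and some `C' ∈ {C, Cᶜ}` we have `E'' ⊆ C'`.  If `E'' = E'ᶜ` then `C'ᶜ ⊆ E'` is
contained in `A` or `Aᶜ` and `A, C` do not cross, a contradiction. So `E'' = E'`.
(2) If `E' ⊆ A` take `B = E'` (`E' ⊆ C'`).
(3) Hard case: `E' ⊆ Aᶜ`, `E' ⊆ C'`.  By the flips there is `γ` with `γ • Aᶜ ⊆ E'` : flip `E'` by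
`γ₁ • E'ᶜ ⊆ E'` and flip `A` by `γ₂ • Aᶜ ⊆ A`; as `A ⊆ E'ᶜ`,
`(γ₁ * γ₂) • Aᶜ ⊆ γ₁ • A ⊆ γ₁ • E'ᶜ ⊆ E'`.  Put `δ = γ⁻¹`.  Then `Aᶜ ⊆ δ • E' ⊆ δ • C'`, so
`δ • C'ᶜ ⊆ A`, and `Aᶜ ⊆ δ • E' ⊆ δ • Aᶜ` so `δ • A ⊆ A`, so `δ ^ k • A ⊆ A` for all `k`.  So
`B k := δ ^ (k + 1) • C'ᶜ ⊆ A` for all `k : ℕ`.  If `B k ~ C` for some `k` we are done by (0).
Otherwise `δ ^ (k + 1) • C'ᶜ` crosses `C` for all `k`, hence `δ ^ (k + 1) • C'` crosses `C'`
for all `k`, hence `δ ^ i • C'` crosses `δ ^ j • C'` for all `i ≠ j`; as crossing sets are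
different, `{δ ^ i • C'}` is an infinite pairwise crossing family, contradicting `width`.

**Transfer** (`exists_common`).  If `A` is connected to `D` by a chain of non-crossing members of
`H` then some `E ∈ H` crosses neither `A` nor `D`.
Proof.  Induction on the chain (`Relation.ReflTransGen.rec`): for `D = A` take `E = A`. Step: `E`
crosses neither `A` nor `C`, and `D ~ C`, so `D' ⊆ C'` for some `D' ∈ {D, Dᶜ}`, `C' ∈ {C, Cᶜ}`.
Apply the sector lemma to (`C'ᶜ`, `A`, `E`): there is `B ∈ H`, `B ⊆ C'ᶜ`, with `B ⊆ A` or `B ⊆ Aᶜ`.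
Then `B` crosses neither `A` nor `D` (`B ∩ D' = ∅`).
-/

open Set
open scoped Pointwise

namespace Pool.Agent.H29.RR

section Cross

variable {G V : Type*} [Group G] [MulAction G V] {H : Set (Set V)} {A B C D : Set V}

lemma Crossing.symm (h : Crossing A B) : Crossing B A := by
  obtain ⟨h1, h2, h3, h4⟩ := h
  exact ⟨by rwa [inter_comm], by rwa [inter_comm], by rwa [inter_comm], by rwa [inter_comm]⟩

lemma crossing_compl_left : Crossing Aᶜ B ↔ Crossing A B := by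
  unfold Crossing
  rw [compl_compl]
  tauto

lemma crossing_compl_right : Crossing A Bᶜ ↔ Crossing A B := by
  unfold Crossing
  rw [compl_compl]
  tauto

lemma crossing_smul (g : G) : Crossing (g • A) (g • B) ↔ Crossing A B := by
  unfold Crossing
  rw [← smul_set_compl, ← smul_set_compl, ← smul_set_inter, ← smul_set_inter, ← smul_set_inter,
    ← smul_set_inter]
  simp only [smul_set_nonempty]

lemma not_crossing_iff : ¬ Crossing A B ↔ A ⊆ Bᶜ ∨ A ⊆ B ∨ B ⊆ A ∨ Aᶜ ⊆ B := by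
  have e1 : (A ∩ B).Nonempty ↔ ¬ A ⊆ Bᶜ := by
    rw [← inter_compl_nonempty_iff, compl_compl]
  have e2 : (A ∩ Bᶜ).Nonempty ↔ ¬ A ⊆ B := inter_compl_nonempty_iff
  have e3 : (Aᶜ ∩ B).Nonempty ↔ ¬ B ⊆ A := by
    rw [inter_comm, inter_compl_nonempty_iff]
  have e4 : (Aᶜ ∩ Bᶜ).Nonempty ↔ ¬ Aᶜ ⊆ B := inter_compl_nonempty_iff
  unfold Crossing
  rw [e1, e2, e3, e4]
  tauto

lemma not_crossing_self (A : Set V) : ¬ Crossing A A :=
  not_crossing_iff.2 (Or.inr (Or.inl le_rfl))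

lemma cross_side {X E : Set V} (h : ¬ Crossing X E) :
    ∃ E', (E' = E ∨ E' = Eᶜ) ∧ (E' ⊆ X ∨ E' ⊆ Xᶜ) := by
  rcases not_crossing_iff.1 h with h | h | h | h
  · exact ⟨E, Or.inl rfl, Or.inr (subset_compl_comm.1 h)⟩
  · exact ⟨Eᶜ, Or.inr rfl, Or.inr (compl_subset_compl.2 h)⟩
  · exact ⟨E, Or.inl rfl, Or.inl h⟩
  · exact ⟨Eᶜ, Or.inr rfl, Or.inl (compl_subset_comm.1 h)⟩

/-- a system of half-spaces with flips and without infinite crossing families -/
structure HalfSys (G : Type*) {V : Type*} [Group G] [MulAction G V] (H : Set (Set V)) : Prop where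
  compl : ∀ S ∈ H, Sᶜ ∈ H
  smul : ∀ (g : G), ∀ S ∈ H, g • S ∈ H
  width : ∀ T ⊆ H, T.Pairwise Crossing → T.Finite
  flip : ∀ S ∈ H, ∃ γ : G, γ • Sᶜ ⊆ S

/-- The sector lemma. -/
theorem HalfSys.exists_sector (hS : HalfSys G H) {E : Set V} (hA : A ∈ H) (hC : C ∈ H)
    (hE : E ∈ H) (h1 : ¬ Crossing A E) (h2 : ¬ Crossing C E) :
    ∃ B ∈ H, B ⊆ A ∧ (B ⊆ C ∨ B ⊆ Cᶜ) := by
  have zero : ∀ X ∈ H, X ⊆ A → ¬ Crossing X C → ∃ B ∈ H, B ⊆ A ∧ (B ⊆ C ∨ B ⊆ Cᶜ) := by
    intro X hX hXA hXC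
    rcases not_crossing_iff.1 hXC with h | h | h | h
    · exact ⟨X, hX, hXA, Or.inr h⟩
    · exact ⟨X, hX, hXA, Or.inl h⟩
    · exact ⟨C, hC, h.trans hXA, Or.inl le_rfl⟩
    · exact ⟨Cᶜ, hS.compl C hC, (compl_subset_comm.1 h).trans hXA, Or.inr le_rfl⟩
  by_cases hAC : Crossing A C
  swap
  · exact zero A hA le_rfl hAC
  have memE : ∀ E', (E' = E ∨ E' = Eᶜ) → E' ∈ H := by
    rintro E' (rfl | rfl)
    · exact hE
    · exact hS.compl E hE
  obtain ⟨E', hE', hE'A⟩ := cross_side h1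
  obtain ⟨E'', hE'', hE''C⟩ := cross_side h2
  obtain ⟨C', hC', hEC'⟩ : ∃ C', (C' = C ∨ C' = Cᶜ) ∧ E'' ⊆ C' := by
    rcases hE''C with h | h
    · exact ⟨C, Or.inl rfl, h⟩
    · exact ⟨Cᶜ, Or.inr rfl, h⟩
  have hC'H : C' ∈ H := by
    rcases hC' with rfl | rfl
    · exact hC
    · exact hS.compl C hC
  have hcr : ∀ X, Crossing X C' ↔ Crossing X C := by
    intro X
    rcases hC' with rfl | rfl
    · rfl
    · exact crossing_compl_right
  have hcr' : ∀ X, Crossing C' X ↔ Crossing C X := by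
    intro X
    rcases hC' with rfl | rfl
    · rfl
    · exact crossing_compl_left
  by_cases hEE : E'' = E'
  swap
  · exfalso
    have hc : E'' = E'ᶜ := by
      rcases hE' with rfl | rfl <;> rcases hE'' with rfl | rfl
      · exact absurd rfl hEE
      · rfl
      · rw [compl_compl]
      · exact absurd rfl hEE
    rw [hc] at hEC'
    have h3 : C'ᶜ ⊆ E' := compl_subset_comm.1 hEC'
    apply (hcr A).not.2 ?_ ((hcr A).2 hAC)
    intro hcross
    rcases hE'A with h | h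
    · exact not_crossing_iff.2 (Or.inr (Or.inr (Or.inr (compl_subset_comm.1 (h3.trans h)))))
        ((hcr A).2 hcross)
    · refine not_crossing_iff.2 (Or.inr (Or.inl ?_)) ((hcr A).2 hcross)
      have := compl_subset_compl.2 (h3.trans h)
      rwa [compl_compl, compl_compl] at this
  subst hEE
  rcases hE'A with hEA | hEA
  · refine ⟨E'', memE _ hE', hEA, ?_⟩
    rcases hC' with rfl | rfl
    · exact Or.inl hEC'
    · exact Or.inr hEC'
  obtain ⟨γ₁, hγ₁⟩ := hS.flip E'' (memE _ hE')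
  obtain ⟨γ₂, hγ₂⟩ := hS.flip A hA
  have hAE : A ⊆ E''ᶜ := subset_compl_comm.1 hEA
  have hγ : (γ₁ * γ₂) • Aᶜ ⊆ E'' := by
    rw [mul_smul]
    exact ((smul_set_mono hγ₂).trans (smul_set_mono hAE)).trans hγ₁
  obtain ⟨δ, hδ⟩ : ∃ δ : G, δ = (γ₁ * γ₂)⁻¹ := ⟨_, rfl⟩
  have hAδ : Aᶜ ⊆ δ • E'' := by
    have := smul_set_mono (a := δ) hγ
    rw [← mul_smul, hδ, inv_mul_cancel, one_smul] at this
    rwa [hδ]
  have hδC : δ • C'ᶜ ⊆ A := by
    rw [smul_set_compl]
    exact compl_subset_comm.1 (hAδ.trans (smul_set_mono hEC'))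
  have hδA : δ • A ⊆ A := by
    have h5 : Aᶜ ⊆ (δ • A)ᶜ := by
      rw [← smul_set_compl]
      exact hAδ.trans (smul_set_mono hEA)
    exact compl_subset_compl.1 h5
  have hpow : ∀ k : ℕ, δ ^ k • A ⊆ A := by
    intro k
    induction k with
    | zero => rw [pow_zero, one_smul]
    | succ k ih =>
      rw [pow_succ, mul_smul]
      exact (smul_set_mono hδA).trans ih
  have hB : ∀ k : ℕ, δ ^ (k + 1) • C'ᶜ ⊆ A := by
    intro k
    rw [pow_succ, mul_smul]
    exact (smul_set_mono hδC).trans (hpow k)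
  by_cases hex : ∃ k : ℕ, ¬ Crossing (δ ^ (k + 1) • C'ᶜ) C
  · obtain ⟨k, hk⟩ := hex
    exact zero _ (hS.smul _ _ (hS.compl _ hC'H)) (hB k) hk
  exfalso
  push Not at hex
  have hcross : ∀ k : ℕ, Crossing C' (δ ^ (k + 1) • C') := by
    intro k
    have h6 := hex k
    rw [smul_set_compl, crossing_compl_left] at h6
    exact (hcr' _).2 h6.symm
  have hlt : ∀ i j : ℕ, i < j → Crossing (δ ^ i • C') (δ ^ j • C') := by
    intro i j hij
    obtain ⟨k, rfl⟩ := Nat.exists_eq_add_of_lt hij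
    rw [add_assoc, pow_add, mul_smul, crossing_smul]
    exact hcross k
  have hne : ∀ i j : ℕ, i ≠ j → Crossing (δ ^ i • C') (δ ^ j • C') := by
    intro i j hij
    rcases lt_or_gt_of_ne hij with h | h
    · exact hlt i j h
    · exact (hlt j i h).symm
  have hinj : Function.Injective (fun i : ℕ => δ ^ i • C') := by
    intro i j hij
    by_contra hne'
    have h7 := hne i j hne'
    simp only at hij
    rw [hij] at h7
    exact not_crossing_self _ h7
  refine Set.infinite_range_of_injective hinj (hS.width _ ?_ ?_)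
  · rintro _ ⟨i, rfl⟩
    exact hS.smul _ _ hC'H
  · rintro _ ⟨i, rfl⟩ _ ⟨j, rfl⟩ hij
    exact hne i j (fun h => hij (by rw [h]))

/-- `D` is connected to `A` by a chain of non-crossing members of `H` -/
def Conn (H : Set (Set V)) (A D : Set V) : Prop :=
  Relation.ReflTransGen (fun S T => T ∈ H ∧ ¬ Crossing S T) A D

lemma Conn.mem (hA : A ∈ H) (h : Conn H A D) : D ∈ H := by
  unfold Conn at h
  induction h with
  | refl => exact hA
  | tail _ hbc _ => exact hbc.1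

lemma HalfSys.exists_common (hS : HalfSys G H) (hA : A ∈ H) (h : Conn H A D) :
    ∃ E ∈ H, ¬ Crossing A E ∧ ¬ Crossing D E := by
  unfold Conn at h
  induction h with
  | refl => exact ⟨A, hA, not_crossing_self A, not_crossing_self A⟩
  | @tail C D hab hbc ih =>
    obtain ⟨E, hE, h1, h2⟩ := ih
    have hC : C ∈ H := Conn.mem hA hab
    obtain ⟨D', hD', hDC⟩ := cross_side hbc.2
    have key : ∀ C' ∈ H, ¬ Crossing C' E → D' ⊆ C'ᶜ → ∃ E ∈ H, ¬ Crossing A E ∧ ¬ Crossing D E := by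
      intro C' hC' hCE hDC'
      obtain ⟨B, hB, hBC, hBA⟩ := hS.exists_sector hC' hA hE hCE h1
      refine ⟨B, hB, ?_, ?_⟩
      · intro hc
        rcases hBA with h | h
        · exact not_crossing_iff.2 (Or.inr (Or.inl h)) hc.symm
        · exact not_crossing_iff.2 (Or.inl h) hc.symm
      · have h3 : B ⊆ D'ᶜ := by
          intro x hx hxD
          exact hDC' hxD (hBC hx)
        intro hc
        rcases hD' with rfl | rfl
        · exact not_crossing_iff.2 (Or.inl h3) hc.symm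
        · rw [compl_compl] at h3
          exact not_crossing_iff.2 (Or.inr (Or.inl h3)) hc.symm
    rcases hDC with h | h
    · refine key Cᶜ (hS.compl C hC) ?_ ?_
      · rwa [crossing_compl_left]
      · rwa [compl_compl]
    · exact key C hC h2 h

/-- below every half-space there is one which is on one side of a given half-space of the
component -/
theorem HalfSys.exists_deep (hS : HalfSys G H) (hA : A ∈ H) (h : Conn H A D) :
    ∃ B ∈ H, B ⊆ A ∧ (B ⊆ D ∨ B ⊆ Dᶜ) := by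
  obtain ⟨E, hE, h1, h2⟩ := hS.exists_common hA h
  exact hS.exists_sector hA (h.mem hA) hE h1 h2

end Cross

end Pool.Agent.H29.RR
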