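import Pool.Agent.H29.RR.Pos

/-!
# Coherent paths
-/

open Set Filter Topology Metric
open Pool.Agent.H29 Pool.Agent.H74.CC

set_option linter.unusedSectionVars false

namespace Pool.Agent.H29.RR

variable {G X : Type*} [Group G] [MetricSpace X] [IsCAT0 X] [ProperSpace X]
  [MulAction G X] [IsIsometricSMul G X] [ProperlyDiscontinuousSMul G X]

namespace PathAux

/-! ### conjugate subgroups -/

lemma cj_cj (H : Subgroup G) (a b : G) : cj (cj H a) b = cj H (b * a) := by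
  ext x
  rw [mem_cj, mem_cj, mem_cj]
  have e : a⁻¹ * (b⁻¹ * x * b) * a = (b * a)⁻¹ * x * (b * a) := by group
  rw [e]

lemma cj_of_mem {H : Subgroup G} {a : G} (ha : a ∈ H) : cj H a = H := by
  ext x
  rw [mem_cj]
  constructor
  · intro h
    have := H.mul_mem (H.mul_mem ha h) (H.inv_mem ha)
    have e : a * (a⁻¹ * x * a) * a⁻¹ = x := by group
    rwa [e] at this
  · intro h
    exact H.mul_mem (H.mul_mem (H.inv_mem ha) h) ha

/-! ### coherence -/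

/-- four rays, moved -/
lemma dist_diff {ρ ρ' σ σ' : ℝ → X} (hρ : IsRay ρ) (hρ' : IsRay ρ') (hσ : IsRay σ)
    (hσ' : IsRay σ') (h : Asym ρ σ) (h' : Asym ρ' σ') {x y : X} (h0 : ρ 0 = x) (h0' : ρ' 0 = x)
    (h1 : σ 0 = y) (h1' : σ' 0 = y) {D : ℝ} (hD : dist x y ≤ D) {t : ℝ} (ht : 0 ≤ t) :
    |dist (ρ t) (ρ' t) - dist (σ t) (σ' t)| ≤ 2 * D := by
  have a1 := h.dist_le hρ hσ t ht
  have a2 := h'.dist_le hρ' hσ' t ht
  rw [h0, h1] at a1
  rw [h0', h1'] at a2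
  have b1 : dist (ρ t) (ρ' t) ≤ dist (ρ t) (σ t) + dist (σ t) (σ' t) + dist (σ' t) (ρ' t) := by
    have := dist_triangle4 (ρ t) (σ t) (σ' t) (ρ' t)
    exact this
  have b2 : dist (σ t) (σ' t) ≤ dist (σ t) (ρ t) + dist (ρ t) (ρ' t) + dist (ρ' t) (σ' t) := by
    have := dist_triangle4 (σ t) (ρ t) (ρ' t) (σ' t)
    exact this
  rw [dist_comm (σ' t) (ρ' t)] at b1
  rw [dist_comm (σ t) (ρ t)] at b2
  rw [abs_le]
  constructor <;> linarith

lemma Coh.symm {H H' : Subgroup G} {x x' : X} {C : ℝ} (h : Coh H H' x x' C) :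
    Coh H' H x' x C := by
  intro ρ ρ' σ σ' hρ hρ' hσ hσ' h1 h2 h3 h4 hA hA' l1 l2 l3 l4 t ht
  have := h σ σ' ρ ρ' hσ hσ' hρ hρ' h3 h4 h1 h2 hA.symm hA'.symm (l2.asym hA) (l1.asym hA)
    (l4.asym hA') (l3.asym hA') t ht
  rw [abs_sub_comm] at this
  exact this

lemma Coh.mono {H H' : Subgroup G} {x x' : X} {C C' : ℝ} (h : Coh H H' x x' C) (hC : C ≤ C') :
    Coh H H' x x' C' := by
  intro ρ ρ' σ σ' hρ hρ' hσ hσ' h1 h2 h3 h4 hA hA' l1 l2 l3 l4 t ht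
  exact (h ρ ρ' σ σ' hρ hρ' hσ hσ' h1 h2 h3 h4 hA hA' l1 l2 l3 l4 t ht).trans hC

lemma Coh.move {H H' : Subgroup G} {x x' y y' : X} {C D : ℝ} (h : Coh H H' x x' C)
    (hx : dist y x ≤ D) (hx' : dist y' x' ≤ D) : Coh H H' y y' (C + 4 * D) := by
  intro ρ ρ' σ σ' hρ hρ' hσ hσ' h1 h2 h3 h4 hA hA' l1 l2 l3 l4 t ht
  obtain ⟨ρ1, r1, r1', r1''⟩ := exists_ray_from hρ x
  obtain ⟨ρ2, r2, r2', r2''⟩ := exists_ray_from hρ' x
  obtain ⟨σ1, s1, s1', s1''⟩ := exists_ray_from hσ x'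
  obtain ⟨σ2, s2, s2', s2''⟩ := exists_ray_from hσ' x'
  have k1 := h ρ1 ρ2 σ1 σ2 r1 r2 s1 s2 r1' r2' s1' s2' (hA.of_dist r1'' s1'')
    (hA'.of_dist r2'' s2'') (l1.asym r1'') (l2.asym r1'') (l3.asym r2'') (l4.asym r2'') t ht
  have k2 := dist_diff hρ hρ' r1 r2 r1'' r2'' h1 h2 r1' r2' hx ht
  have k3 := dist_diff hσ hσ' s1 s2 s1'' s2'' h3 h4 s1' s2' hx' ht
  rw [abs_le] at k1 k2 k3 ⊢
  constructor <;> linarith [k1.1, k1.2, k2.1, k2.2, k3.1, k3.2]

lemma Coh.smul {H H' : Subgroup G} {x x' : X} {C : ℝ} (h : Coh H H' x x' C) (g : G) :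
    Coh (cj H g) (cj H' g) (g • x) (g • x') C := by
  intro ρ ρ' σ σ' hρ hρ' hσ hσ' h1 h2 h3 h4 hA hA' l1 l2 l3 l4 t ht
  have e0 : ∀ {H : Subgroup G} {τ : ℝ → X}, Lim (cj H g) τ → Lim H (fun t => g⁻¹ • τ t) := by
    intro H τ hl
    have := hl.smul g⁻¹
    rw [cj_cj, inv_mul_cancel, cj_of_mem H.one_mem] at this
    exact this
  have := h _ _ _ _ (IsRay.smul hρ g⁻¹) (IsRay.smul hρ' g⁻¹) (IsRay.smul hσ g⁻¹)
    (IsRay.smul hσ' g⁻¹) (by rw [h1, inv_smul_smul]) (by rw [h2, inv_smul_smul])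
    (by rw [h3, inv_smul_smul]) (by rw [h4, inv_smul_smul]) (hA.smul g⁻¹) (hA'.smul g⁻¹)
    (e0 l1) (e0 l2) (e0 l3) (e0 l4) t ht
  simp only [dist_smul] at this
  exact this

/-! ### the order of the powers -/

section Order

variable {K : Subgroup G} {P : Set G} {p0 u : G}

lemma u_mem (hP : PosSys K P) (h0 : p0 ∈ P) (hu : p0⁻¹ * u ∈ P) : u ∈ P := by
  have := hP.mul _ h0 _ hu
  rwa [mul_inv_cancel_left] at this

lemma le_pow (hP : PosSys K P) (h0 : p0 ∈ P) (hu : p0⁻¹ * u ∈ P) {i j : ℕ} (hij : i ≤ j) :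
    Le P (u ^ i) (u ^ j) := by
  obtain ⟨k, rfl⟩ := Nat.exists_eq_add_of_le hij
  cases k with
  | zero => exact Or.inl rfl
  | succ n =>
    right
    rw [pow_add, inv_mul_cancel_left]
    exact hP.pow (u_mem hP h0 hu) n

lemma p0_le (u : G) (h0 : p0 ∈ P) (i : ℕ) : Le P (u ^ i) (u ^ i * p0) := by
  right
  rwa [inv_mul_cancel_left]

lemma le_p0 (hP : PosSys K P) (h0 : p0 ∈ P) (hu : p0⁻¹ * u ∈ P) {i j : ℕ} (hij : i ≤ j) :
    Le P (u ^ i * p0) (u ^ j * p0) := by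
  rcases hij.eq_or_lt with h | h
  · exact Or.inl (by rw [h])
  · have h1 : Le P (u ^ i * p0) (u ^ (i + 1)) := by
      right
      have e : (u ^ i * p0)⁻¹ * u ^ (i + 1) = p0⁻¹ * u := by
        rw [pow_succ]; group
      rw [e]
      exact hu
    exact hP.le_trans (hP.le_trans h1 (le_pow hP h0 hu h)) (p0_le u h0 j)

end Order

/-! ### projections of minimal sets -/

/-- the image of a smaller minimal set under the projection -/
lemma isMinl_proj {H H' : Subgroup G} (hle : H' ≤ H) {A B C : Set X} (hA : IsMinl H A)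
    (hB : IsMinl H B) (hC : IsMinl H' C) (hCA : C ⊆ A) : IsMinl H' (proj B '' C) := by
  apply hC.image
  · intro z hz w hw
    exact hA.dist_proj_proj hB (hCA hz) (hCA hw)
  · intro n hn z _
    exact hB.isNC.proj_smul hB.ne (hle hn) z

section Main

variable {K : Subgroup G} {P : Set G} {p0 : G} {Y : Set X} {R : ℝ}

lemma Fx_pow (K : Subgroup G) (P : Set G) (p0 u : G) (i : ℕ) :
    Fx K P (u ^ i) (u ^ i * p0) = cj (Fx K P 1 p0) (u ^ i) := by
  rw [← Fx_smul, mul_one]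

/-- existence of minimal sets of segments -/
lemma exists_min (h : Unif K P p0 Y R) {g f k : G} (hg : Le P g f) (hk : Le P (f * p0) k) :
    ∃ A ⊆ (fun x => f • x) '' Y, IsMinl (Fx K P g k) A := by
  have hP := h.pos
  have h1 : Le P f (f * p0) := by
    right
    rw [inv_mul_cancel_left]
    exact h.mem
  have hc : CCo X (Fx K P g k) := hP.CCo_Fx h.cc (hP.le_trans (hP.le_trans hg h1) hk)
  have hY := isMinl_smul h.min f
  have hle : Fx K P g k ≤ (Fx K P 1 p0).map (MulAut.conj f).toMonoidHom := by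
    have e : (Fx K P 1 p0).map (MulAut.conj f).toMonoidHom = Fx K P (f * 1) (f * p0) :=
      (Fx_smul f 1 p0).symm
    rw [e, mul_one]
    exact hP.Fx_mono hg hk
  exact hc.exists_isMinl (isNC_le hle hY.isNC) hY.ne

lemma infDist_gap (h : Unif K P p0 Y R) {u : G} (hu : p0⁻¹ * u ∈ P) {E0 E1 : Set X}
    (hE0 : IsMinl (Fx K P 1 (u * p0)) E0) (hE1 : IsMinl (Fx K P 1 (u * p0)) E1)
    (hE0Y : E0 ⊆ Y) (hE1Y : E1 ⊆ (fun x => u • x) '' Y) {e : X} (he : e ∈ E0) {M i : ℕ}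
    (hi : i + 1 ≤ M) {C0 C1 : Set X} (hC0 : IsMinl (Fx K P 1 (u ^ M * p0)) C0)
    (hC1 : IsMinl (Fx K P 1 (u ^ M * p0)) C1) (hC0Y : C0 ⊆ (fun x => u ^ i • x) '' Y)
    (hC1Y : C1 ⊆ (fun x => u ^ (i + 1) • x) '' Y) {x : X} (hx : x ∈ C0) :
    infDist x C1 ≤ 2 * R + infDist e E1 := by
  have hP := h.pos
  have hmem := h.mem
  have l0 : Le P 1 (u ^ i) := by
    have := le_pow hP hmem hu (Nat.zero_le i)
    rwa [pow_zero] at this
  have l1 : Le P 1 (u ^ (i + 1)) := by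
    have := le_pow hP hmem hu (Nat.zero_le (i + 1))
    rwa [pow_zero] at this
  have r0 : Le P (u ^ i * p0) (u ^ M * p0) := le_p0 hP hmem hu (by omega)
  have r1 : Le P (u ^ (i + 1) * p0) (u ^ M * p0) := le_p0 hP hmem hu hi
  have hF0 := isMinl_smul hE0 (u ^ i)
  have hF1 := isMinl_smul hE1 (u ^ i)
  have hle : Fx K P 1 (u ^ M * p0) ≤
      (Fx K P 1 (u * p0)).map (MulAut.conj (u ^ i)).toMonoidHom := by
    have e : (Fx K P 1 (u * p0)).map (MulAut.conj (u ^ i)).toMonoidHom =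
        Fx K P (u ^ i * 1) (u ^ i * (u * p0)) := (Fx_smul (u ^ i) 1 (u * p0)).symm
    rw [e, mul_one, ← mul_assoc, ← pow_succ]
    exact hP.Fx_mono l0 r1
  have hcc : CCo X (Fx K P 1 (u ^ M * p0)) := hP.CCo_Fx h.cc
    (hP.le_trans (hP.le_trans l0 (p0_le u hmem i)) r0)
  obtain ⟨C', hC'F, hC'⟩ := hcc.exists_isMinl (isNC_le hle hF0.isNC) hF0.ne
  have hC'' := isMinl_proj hle hF0 hF1 hC' hC'F
  have hC'Y : C' ⊆ (fun x => u ^ i • x) '' Y := hC'F.trans (image_mono hE0Y)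
  have hpm : ∀ z, proj ((fun x => u ^ i • x) '' E1) z ∈ (fun x => u ^ i • x) '' E1 := fun z =>
    proj_mem hF1.isNC.closed hF1.ne z
  have hC''Y : proj ((fun x => u ^ i • x) '' E1) '' C' ⊆ (fun x => u ^ (i + 1) • x) '' Y := by
    rintro _ ⟨z, _, rfl⟩
    obtain ⟨w, hw, hwe⟩ := hpm z
    obtain ⟨y, hy, hye⟩ := hE1Y hw
    refine ⟨y, hy, ?_⟩
    simp only at hwe hye ⊢
    rw [← hwe, ← hye, smul_smul, pow_succ]
  have d1 : dist x (proj C' x) ≤ R := by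
    rw [dist_proj hC'.isNC.closed hC'.ne]
    exact h.infDist_le l0 r0 hC0 hC' hC0Y hC'Y x hx
  have hx' : proj C' x ∈ C' := proj_mem hC'.isNC.closed hC'.ne x
  set x' := proj C' x with hx'def
  have d2 : dist x' (proj ((fun x => u ^ i • x) '' E1) x') = infDist e E1 := by
    rw [dist_proj hF1.isNC.closed hF1.ne]
    obtain ⟨z, hz, hze⟩ := hC'F hx'
    rw [← hze]
    simp only
    rw [infDist_smul']
    exact hE0.dist_const hE1 hz he
  have d3 : infDist (proj ((fun x => u ^ i • x) '' E1) x') C1 ≤ R :=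
    h.infDist_le l1 r1 hC'' hC1 hC''Y hC1Y _ ⟨x', hx', rfl⟩
  have d4 : infDist x C1 ≤ infDist (proj ((fun x => u ^ i • x) '' E1) x') C1 +
      dist x (proj ((fun x => u ^ i • x) '' E1) x') := infDist_le_infDist_add_dist
  have d5 := dist_triangle x x' (proj ((fun x => u ^ i • x) '' E1) x')
  linarith

lemma coh_of_le (h : Unif K P p0 Y R) {u : G} (hu : p0⁻¹ * u ∈ P) {M i j : ℕ} (hij : i ≤ j)
    (hj : j ≤ M) {C0 C1 : Set X} (hC0 : IsMinl (Fx K P 1 (u ^ M * p0)) C0)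
    (hC1 : IsMinl (Fx K P 1 (u ^ M * p0)) C1) (hC0Y : C0 ⊆ (fun x => u ^ i • x) '' Y)
    (hC1Y : C1 ⊆ (fun x => u ^ j • x) '' Y) {x : X} (hx : x ∈ C0) :
    Coh (cj (Fx K P 1 p0) (u ^ i)) (cj (Fx K P 1 p0) (u ^ j)) x (proj C1 x) (4 * R) := by
  have hP := h.pos
  have hmem := h.mem
  have l0 : ∀ i : ℕ, Le P 1 (u ^ i) := by
    intro i
    have := le_pow hP hmem hu (Nat.zero_le i)
    rwa [pow_zero] at this
  have lij : Le P (u ^ i) (u ^ j) := le_pow hP hmem hu hij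
  have ri : Le P (u ^ i * p0) (u ^ M * p0) := le_p0 hP hmem hu (hij.trans hj)
  have rij : Le P (u ^ i * p0) (u ^ j * p0) := le_p0 hP hmem hu hij
  have rj : Le P (u ^ j * p0) (u ^ M * p0) := le_p0 hP hmem hu hj
  have hlt : Le P (u ^ i) (u ^ j * p0) := hP.le_trans lij (p0_le u hmem j)
  obtain ⟨D0, hD0Y, hD0⟩ := exists_min h (g := u ^ i) (k := u ^ j * p0) (Le.refl (u ^ i)) rij
  obtain ⟨D1, hD1Y, hD1⟩ := exists_min h (f := u ^ j) (k := u ^ j * p0) lij (Le.refl _)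
  have hle : Fx K P 1 (u ^ M * p0) ≤ Fx K P (u ^ i) (u ^ j * p0) := hP.Fx_mono (l0 i) rj
  have hcc : CCo X (Fx K P 1 (u ^ M * p0)) := hP.CCo_Fx h.cc
    (hP.le_trans (hP.le_trans (l0 i) (p0_le u hmem i)) ri)
  obtain ⟨C', hC'D, hC'⟩ := hcc.exists_isMinl (isNC_le hle hD0.isNC) hD0.ne
  have hC'' := isMinl_proj hle hD0 hD1 hC' hC'D
  have hC'Y : C' ⊆ (fun x => u ^ i • x) '' Y := hC'D.trans hD0Y
  have hpm : ∀ z, proj D1 z ∈ D1 := fun z => proj_mem hD1.isNC.closed hD1.ne z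
  have hC''D : proj D1 '' C' ⊆ D1 := by
    rintro _ ⟨z, _, rfl⟩
    exact hpm z
  have hC''Y : proj D1 '' C' ⊆ (fun x => u ^ j • x) '' Y := hC''D.trans hD1Y
  have d1 : dist x (proj C' x) ≤ R := by
    rw [dist_proj hC'.isNC.closed hC'.ne]
    exact h.infDist_le (l0 i) ri hC0 hC' hC0Y hC'Y x hx
  have hx' : proj C' x ∈ C' := proj_mem hC'.isNC.closed hC'.ne x
  have e1 : proj C1 (proj C' x) = proj C1 x := hC0.proj_comp hC' hC1 hx
  set x' := proj C' x with hx'def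
  set x'' := proj D1 x' with hx''def
  have hx'' : x'' ∈ proj D1 '' C' := ⟨x', hx', rfl⟩
  have e2 : x'' = proj (proj D1 '' C') x' := by
    apply eq_proj hC''.isNC.closed hC''.ne hC''.isNC.convex hx''
    rw [hx''def, dist_proj hD1.isNC.closed hD1.ne]
    exact infDist_le_infDist_of_subset hC''D hC''.ne
  have e3 : proj C1 x'' = proj C1 x := by
    rw [e2, hC'.proj_comp hC'' hC1 hx', e1]
  have d2 : dist (proj C1 x) x'' ≤ R := by
    rw [← e3, dist_comm, dist_proj hC1.isNC.closed hC1.ne]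
    exact h.infDist_le (l0 j) rj hC'' hC1 hC''Y hC1Y _ hx''
  -- limit points
  have hL : ∀ {ρ : ℝ → X}, Lim (cj (Fx K P 1 p0) (u ^ i)) ρ → Lim (cj (Fx K P 1 p0) (u ^ j)) ρ →
      Lim (Fx K P (u ^ i) (u ^ j * p0)) ρ := by
    intro ρ a b
    rw [← Fx_pow] at a b
    exact hP.lim_Fx hlt (a.mono (Fx_le_left (p0_le u hmem i)))
      (b.mono (Fx_le_right (p0_le u hmem j)))
  intro ρ ρ' σ σ' hρ hρ' hσ hσ' h1 h2 h3 h4 hA hA' m1 m2 m3 m4 t ht
  obtain ⟨ρ1, r1, r1', r1''⟩ := exists_ray_from hρ x'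
  obtain ⟨ρ2, r2, r2', r2''⟩ := exists_ray_from hρ' x'
  have s1 := ((hL m1 m2).asym r1'').mem r1 hD0.isNC (by rw [r1']; exact hC'D hx')
  have s2 := ((hL m3 m4).asym r2'').mem r2 hD0.isNC (by rw [r2']; exact hC'D hx')
  have iso : ∀ {τ : ℝ → X}, IsRay τ → (∀ t, 0 ≤ t → τ t ∈ D0) → IsRay (fun t => proj D1 (τ t)) := by
    intro τ hτ hτD s t hs ht
    show dist (proj D1 (τ s)) (proj D1 (τ t)) = |s - t|
    rw [hD0.dist_proj_proj hD1 (hτD s hs) (hτD t ht)]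
    exact hτ s t hs ht
  have asy : ∀ {τ : ℝ → X}, (∀ t, 0 ≤ t → τ t ∈ D0) → Asym τ (fun t => proj D1 (τ t)) := by
    intro τ hτD
    refine ⟨infDist (τ 0) D1, fun t ht => ?_⟩
    show dist (τ t) (proj D1 (τ t)) ≤ _
    rw [dist_proj hD1.isNC.closed hD1.ne]
    exact (hD0.dist_const hD1 (hτD t ht) (hτD 0 le_rfl)).le
  have k1 := dist_diff hρ hρ' r1 r2 r1'' r2'' h1 h2 r1' r2' d1 ht
  have k2 := dist_diff hσ hσ' (iso r1 s1) (iso r2 s2)
    ((hA.symm.trans r1'').trans (asy s1)) ((hA'.symm.trans r2'').trans (asy s2)) h3 h4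
    (by show proj D1 (ρ1 0) = x''; rw [r1']) (by show proj D1 (ρ2 0) = x''; rw [r2']) d2 ht
  have k3 : dist (proj D1 (ρ1 t)) (proj D1 (ρ2 t)) = dist (ρ1 t) (ρ2 t) :=
    hD0.dist_proj_proj hD1 (s1 t ht) (s2 t ht)
  rw [k3] at k2
  rw [abs_le] at k1 k2 ⊢
  constructor <;> linarith [k1.1, k1.2, k2.1, k2.2]

end Main

end PathAux

open PathAux in
theorem exists_path {K : Subgroup G} {P : Set G} {p0 : G} {Y : Set X} {R : ℝ}
    (h : Unif K P p0 Y R) {u : G} (hu : p0⁻¹ * u ∈ P) (o : X) :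
    ∃ C : ℝ, ∀ M : ℕ, ∃ g : ℤ → G, ∀ i j : ℤ, 0 ≤ i → i ≤ M → 0 ≤ j → j ≤ M →
      (g i)⁻¹ * g j ∈ Qs (Fx K P 1 p0) u o C (j - i) := by
  classical
  have hP := h.pos
  have hmem := h.mem
  have hp0 : Le P 1 p0 := by
    right
    rwa [inv_one, one_mul]
  have hup : Le P (1 * p0) (u * p0) := by
    have := le_p0 hP hmem hu (Nat.zero_le 1)
    rwa [pow_zero, pow_one] at this
  have h1u : Le P 1 u := by
    have := le_pow hP hmem hu (Nat.zero_le 1)
    rwa [pow_zero, pow_one] at this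
  obtain ⟨E0, hE0Y, hE0⟩ := exists_min h (g := 1) (k := u * p0) (Le.refl 1) hup
  obtain ⟨E1, hE1Y, hE1⟩ := exists_min h (f := u) (k := u * p0) h1u (Le.refl _)
  have hE0Y' : E0 ⊆ Y := by
    intro z hz
    obtain ⟨w, hw, hwz⟩ := hE0Y hz
    simp only [one_smul] at hwz
    rwa [← hwz]
  obtain ⟨e, he⟩ := hE0.ne
  set Δ : ℝ := 2 * R + infDist e E1 with hΔ
  have hKc : CCo X (Fx K P 1 p0) := hP.CCo_Fx h.cc hp0
  obtain ⟨B, hB, hBc⟩ := hKc.cocompactOn h.min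
  obtain ⟨D0, hD0⟩ := hB.isBounded.subset_closedBall o
  refine ⟨max (4 * R + 4 * D0) (max Δ (2 * D0)), fun M => ?_⟩
  -- minimal sets of the long segment
  have l0 : ∀ i : ℕ, Le P 1 (u ^ i) := by
    intro i
    have := le_pow hP hmem hu (Nat.zero_le i)
    rwa [pow_zero] at this
  have hex : ∀ i : ℕ, ∃ A : Set X, i ≤ M → (A ⊆ (fun x => u ^ i • x) '' Y ∧
      IsMinl (Fx K P 1 (u ^ M * p0)) A) := by
    intro i
    by_cases hi : i ≤ M
    · obtain ⟨A, hA, hA'⟩ := exists_min h (l0 i) (le_p0 hP hmem hu hi)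
      exact ⟨A, fun _ => ⟨hA, hA'⟩⟩
    · exact ⟨∅, fun h => absurd h hi⟩
  choose A hA using hex
  obtain ⟨p, hp⟩ := (hA 0 (Nat.zero_le M)).2.ne
  set x : ℕ → X := fun i => proj (A i) p with hx
  have hxA : ∀ i, i ≤ M → x i ∈ A i := fun i hi =>
    proj_mem (hA i hi).2.isNC.closed (hA i hi).2.ne p
  have hxx : ∀ i j, i ≤ M → j ≤ M → proj (A j) (x i) = x j := fun i j hi hj =>
    (hA 0 (Nat.zero_le M)).2.proj_comp (hA i hi).2 (hA j hj).2 hp
  have hgap : ∀ i, i + 1 ≤ M → dist (x i) (x (i + 1)) ≤ Δ := by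
    intro i hi
    rw [← hxx i (i + 1) (by omega) hi, dist_proj (hA (i + 1) hi).2.isNC.closed (hA (i + 1) hi).2.ne]
    exact infDist_gap h hu hE0 hE1 hE0Y' hE1Y he hi (hA i (by omega)).2 (hA (i + 1) hi).2
      (hA i (by omega)).1 (hA (i + 1) hi).1 (hxA i (by omega))
  have hdist : ∀ i k, i + k ≤ M → dist (x i) (x (i + k)) ≤ Δ * k := by
    intro i k
    induction k with
    | zero => intro _; simp
    | succ k ih =>
      intro hk
      have h1 := ih (by omega)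
      have h2 := hgap (i + k) (by omega)
      have h3 := dist_triangle (x i) (x (i + k)) (x (i + k + 1))
      rw [← add_assoc]
      push_cast
      linarith
  have hcoh : ∀ i j, i ≤ j → j ≤ M →
      Coh (cj (Fx K P 1 p0) (u ^ i)) (cj (Fx K P 1 p0) (u ^ j)) (x i) (x j) (4 * R) := by
    intro i j hij hj
    have := coh_of_le h hu hij hj (hA i (hij.trans hj)).2 (hA j hj).2 (hA i (hij.trans hj)).1
      (hA j hj).1 (hxA i (hij.trans hj))
    rwa [hxx i j (hij.trans hj) hj] at this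
  have hcoh' : ∀ i j, i ≤ M → j ≤ M →
      Coh (cj (Fx K P 1 p0) (u ^ i)) (cj (Fx K P 1 p0) (u ^ j)) (x i) (x j) (4 * R) := by
    intro i j hi hj
    rcases le_total i j with hij | hij
    · exact hcoh i j hij hj
    · exact PathAux.Coh.symm (hcoh j i hij hi)
  -- corrections
  have hcor : ∀ i : ℕ, ∃ c : G, i ≤ M → (c ∈ Fx K P 1 p0 ∧ c • (u ^ i)⁻¹ • x i ∈ B) := by
    intro i
    by_cases hi : i ≤ M
    · obtain ⟨y, hy, hyx⟩ := (hA i hi).1 (hxA i hi)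
      obtain ⟨c, hc, hcB⟩ := hBc y hy
      refine ⟨c, fun _ => ⟨hc, ?_⟩⟩
      simp only at hyx
      rw [← hyx, inv_smul_smul]
      exact hcB
    · exact ⟨1, fun h => absurd h hi⟩
  choose c hc using hcor
  set gN : ℕ → G := fun i => u ^ i * (c i)⁻¹ with hgN
  have hgo : ∀ i, i ≤ M → dist (gN i • o) (x i) ≤ D0 := by
    intro i hi
    have h1 := hD0 (hc i hi).2
    rw [mem_closedBall] at h1
    rw [← dist_smul (gN i)⁻¹, inv_smul_smul, dist_comm]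
    have e1 : (gN i)⁻¹ • x i = c i • (u ^ i)⁻¹ • x i := by
      rw [smul_smul]
      congr 1
      simp only [hgN]
      group
    rw [e1]
    exact h1
  have hgcj : ∀ i, i ≤ M → cj (Fx K P 1 p0) (u ^ i) = cj (Fx K P 1 p0) (gN i) := by
    intro i hi
    have h1 := cj_of_mem ((Fx K P 1 p0).inv_mem (hc i hi).1)
    simp only [hgN]
    rw [← cj_cj, h1]
  refine ⟨fun i => gN i.toNat, ?_⟩
  intro i j hi hiM hj hjM
  obtain ⟨i, rfl⟩ := Int.eq_ofNat_of_zero_le hi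
  obtain ⟨j, rfl⟩ := Int.eq_ofNat_of_zero_le hj
  have hi' : i ≤ M := by exact_mod_cast hiM
  have hj' : j ≤ M := by exact_mod_cast hjM
  simp only [Int.toNat_natCast]
  have hd : dist (x i) (x j) ≤ Δ * |(((j : ℤ) - (i : ℤ) : ℤ) : ℝ)| := by
    rcases le_total i j with hij | hij
    · obtain ⟨k, rfl⟩ := Nat.exists_eq_add_of_le hij
      have := hdist i k hj'
      have e1 : |((((i + k : ℕ) : ℤ) - (i : ℤ) : ℤ) : ℝ)| = k := by
        push_cast
        rw [add_sub_cancel_left, Nat.abs_cast]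
      rw [e1]
      exact this
    · obtain ⟨k, rfl⟩ := Nat.exists_eq_add_of_le hij
      have := hdist j k hi'
      have e1 : |(((j : ℤ) - ((j + k : ℕ) : ℤ) : ℤ) : ℝ)| = k := by
        push_cast
        rw [sub_add_cancel_left, abs_neg, Nat.abs_cast]
      rw [e1, dist_comm]
      exact this
  refine ⟨?_, ?_, ?_⟩
  · have h1 := PathAux.Coh.move (hcoh' i j hi' hj') (hgo i hi') (hgo j hj')
    rw [hgcj i hi', hgcj j hj'] at h1
    have h2 := PathAux.Coh.smul h1 (gN i)⁻¹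
    rw [cj_cj, cj_cj, inv_mul_cancel, cj_of_mem (one_mem _), inv_smul_smul, smul_smul] at h2
    exact PathAux.Coh.mono h2 (le_max_left _ _)
  · have h1 : dist o (((gN i)⁻¹ * gN j) • o) = dist (gN i • o) (gN j • o) := by
      rw [← dist_smul (gN i), smul_smul, mul_inv_cancel_left]
    rw [h1]
    have h2 := hgo i hi'
    have h3 := hgo j hj'
    have h4 := dist_triangle4 (gN i • o) (x i) (x j) (gN j • o)
    rw [dist_comm (x j)] at h4
    have h5 : Δ * |(((j : ℤ) - (i : ℤ) : ℤ) : ℝ)| ≤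
        max (4 * R + 4 * D0) (max Δ (2 * D0)) * |(((j : ℤ) - (i : ℤ) : ℤ) : ℝ)| :=
      mul_le_mul_of_nonneg_right ((le_max_left _ _).trans (le_max_right _ _)) (abs_nonneg _)
    have h6 : 2 * D0 ≤ max (4 * R + 4 * D0) (max Δ (2 * D0)) :=
      (le_max_right _ _).trans (le_max_right _ _)
    linarith
  · intro hji
    have hj1 : j = i + 1 := by omega
    refine ⟨c i, (hc i hi').1, (c j)⁻¹, (Fx K P 1 p0).inv_mem (hc j hj').1, ?_⟩
    rw [hj1]
    simp only [hgN]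
    rw [pow_succ]
    group

end Pool.Agent.H29.RR
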