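import Pool.Agent.H29.RR.Ultra
import Pool.Agent.H29.RR.Path

/-!
# Exact lines
-/

open Set Filter Topology Metric
open Pool.Agent.H29 Pool.Agent.H74.CC

set_option linter.unusedSectionVars false

namespace Pool.Agent.H29.RR

variable {G X : Type*} [Group G] [MetricSpace X] [IsCAT0 X] [ProperSpace X]
  [MulAction G X] [IsIsometricSMul G X] [ProperlyDiscontinuousSMul G X]

lemma Qs_finite (K : Subgroup G) (u : G) (o : X) (C : ℝ) (n : ℤ) : (Qs K u o C n).Finite :=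
  (finite_near (G := G) o o (C * |(n : ℝ)| + C)).subset (fun _ hw => hw.2.1)

/-- asymptotic rays from the same point agree -/
lemma Asym.eq {X : Type*} [MetricSpace X] [IsCAT0 X] {ρ σ : ℝ → X} (h : Asym ρ σ)
    (hρ : IsRay ρ) (hσ : IsRay σ) (h0 : ρ 0 = σ 0) {t : ℝ} (ht : 0 ≤ t) : ρ t = σ t := by
  have := h.dist_le hρ hσ t ht
  rw [h0, dist_self] at this
  exact dist_eq_zero.mp (le_antisymm this dist_nonneg)

/-- **Exactness.** -/
theorem exact_of_recurrent {K : Subgroup G} (hK : CCo X K) {U : Ultrafilter ℕ}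
    (hU : ∀ N : ℕ, ∀ᶠ n in (U : Filter ℕ), N ≤ n)
    (hid : ∀ p : ℕ → Prop, (∀ᶠ n in (U : Filter ℕ), p n) ↔
      ∀ᶠ m in (U : Filter ℕ), ∀ᶠ n in (U : Filter ℕ), p (m + n))
    {f : ℤ → G} {o : X} {C : ℝ}
    (hcoh : ∀ i : ℤ, 1 ≤ i → Coh (cj K (f 1)) (cj K (f i)) (f 1 • o) (f i • o) C)
    (hrec : ∀ i : ℤ, ∀ᶠ m : ℕ in (U : Filter ℕ), f ((m : ℤ) + i) = f (m : ℤ) * f i)
    {ρ : ℝ → X} (hρ : IsRay ρ) (h : ∀ i : ℤ, 1 ≤ i → Lim (cj K (f i)) ρ) :
    ∀ i : ℤ, Lim (cj K (f i)) ρ := by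
  -- the translated rays
  have key : ∀ σ : ℝ → X, IsRay σ → ∃ (r : ℕ → ℝ → X) (θ : ℝ → X), (∀ m, IsRay (r m)) ∧
      (∀ m, r m 0 = o) ∧ (∀ m : ℕ, Asym (fun t => (f m)⁻¹ • σ t) (r m)) ∧ IsRay θ ∧ θ 0 = o ∧
      ∀ t, 0 ≤ t → Tendsto (fun m => r m t) U (𝓝 (θ t)) := by
    intro σ hσ
    choose r hr1 hr2 hr3 using fun m : ℕ => exists_ray_from (hσ.smul (f m)⁻¹) o
    obtain ⟨θ, h1, h2, h3⟩ := exists_ray_limit U (ρ := r) (o := o)
      (Eventually.of_forall fun m => ⟨hr1 m, hr2 m⟩)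
    exact ⟨r, θ, hr1, hr2, hr3, h1, h2, h3⟩
  obtain ⟨r, θ, hr1, hr2, hr3, hθ, hθ0, hθt⟩ := key ρ hρ
  -- the limit ray has all limit points
  have claim1 : ∀ i : ℤ, Lim (cj K (f i)) θ := by
    intro i
    apply Lim.closed U (hK.conj (f i)) (ρ := r) _ hθt
    filter_upwards [hrec i, hU (1 + i.natAbs)] with m hm hm2
    refine ⟨hr1 m, ?_⟩
    have h1 := (h ((m : ℤ) + i) (by omega)).smul (f m)⁻¹
    rw [cj_cj, hm, inv_mul_cancel_left] at h1
    exact h1.asym (hr3 m)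
  obtain ⟨r', θ', hr1', hr2', hr3', hθ', hθ0', hθt'⟩ := key θ hθ
  -- idempotency
  have hstep : ∀ m : ℕ, ∀ t, 0 ≤ t → Tendsto (fun n => r (m + n) t) U (𝓝 (r' m t)) := by
    intro m
    apply tendsto_ray (M := dist o ((f m)⁻¹ • o) + 1 + dist o ((f m)⁻¹ • o))
    · exact Eventually.of_forall fun n => ⟨hr1 _, by rw [hr2, hr2']⟩
    · exact hr1' m
    · intro s hs
      have h1 : ∀ᶠ n in (U : Filter ℕ), dist (r n s) (θ s) < 1 :=
        (Metric.tendsto_nhds.mp (hθt s hs)) 1 one_pos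
      filter_upwards [h1, hrec m] with n hn1 hn2
      have e : f ((m + n : ℕ) : ℤ) = f n * f m := by
        rw [← hn2]
        congr 1
        push_cast
        ring
      have a1 : Asym (r (m + n)) (fun t => (f m)⁻¹ • r n t) := by
        have h2 := hr3 (m + n)
        rw [e] at h2
        have h3 := (hr3 n).smul (f m)⁻¹
        refine h2.symm.trans (Asym.trans ?_ h3)
        have : (fun t => (f n * f m)⁻¹ • ρ t) = fun t => (f m)⁻¹ • (f n)⁻¹ • ρ t := by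
          funext t
          rw [mul_inv_rev, mul_smul]
        rw [this]
        exact Asym.refl _
      have a2 := a1.dist_le (hr1 _) ((hr1 n).smul _) s hs
      have a3 := (hr3' m).dist_le (hθ.smul _) (hr1' m) s hs
      rw [hr2, hr2] at a2
      rw [hθ0, hr2', dist_comm ((f m)⁻¹ • o) o] at a3
      have a4 : dist ((f m)⁻¹ • r n s) ((f m)⁻¹ • θ s) ≤ 1 := by
        rw [dist_smul]
        exact hn1.le
      calc dist (r (m + n) s) (r' m s) ≤ dist (r (m + n) s) ((f m)⁻¹ • r n s) +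
            dist ((f m)⁻¹ • r n s) ((f m)⁻¹ • θ s) + dist ((f m)⁻¹ • θ s) (r' m s) :=
            dist_triangle4 _ _ _ _
        _ ≤ _ := add_le_add (add_le_add a2 a4) a3
  have claim2 : ∀ t, 0 ≤ t → θ' t = θ t := by
    intro t ht
    apply dist_le_zero.mp
    apply le_of_forall_pos_le_add
    intro ε hε
    rw [zero_add]
    have h1 : ∀ᶠ n in (U : Filter ℕ), dist (r n t) (θ t) < ε :=
      (Metric.tendsto_nhds.mp (hθt t ht)) ε hε
    rw [hid] at h1
    have h2 : ∀ᶠ m in (U : Filter ℕ), dist (r' m t) (θ t) ≤ ε := by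
      filter_upwards [h1] with m hm
      have h3 : Tendsto (fun n => dist (r (m + n) t) (θ t)) U (𝓝 (dist (r' m t) (θ t))) :=
        (hstep m t ht).dist tendsto_const_nhds
      exact le_of_tendsto h3 (hm.mono fun n hn => hn.le)
    exact le_of_tendsto ((hθt' t ht).dist tendsto_const_nhds) h2
  -- coarse isometry
  obtain ⟨ρ1, hρ1, hρ10, hρ1a⟩ := exists_ray_from hρ (f 1 • o)
  obtain ⟨θ1, hθ1, hθ10, hθ1a⟩ := exists_ray_from hθ (f 1 • o)
  have claim3 : Asym ρ1 θ1 := by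
    refine ⟨C + 1, fun t ht => ?_⟩
    have h1 : Tendsto (fun m => dist (r m t) (r' m t)) U (𝓝 (dist (θ t) (θ' t))) :=
      (hθt t ht).dist (hθt' t ht)
    rw [claim2 t ht, dist_self] at h1
    have h2 : ∀ᶠ m in (U : Filter ℕ), dist (r m t) (r' m t) < 1 :=
      h1.eventually_lt_const one_pos
    obtain ⟨m, hm1, hm2⟩ := (h2.and (hU 1)).exists
    have hm2' : (1 : ℤ) ≤ (m : ℤ) := by exact_mod_cast hm2
    obtain ⟨ρ2, hρ2, hρ20, hρ2a⟩ := exists_ray_from hρ (f m • o)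
    obtain ⟨θ2, hθ2, hθ20, hθ2a⟩ := exists_ray_from hθ (f m • o)
    have h3 := hcoh m hm2' ρ1 θ1 ρ2 θ2 hρ1 hθ1 hρ2 hθ2 hρ10 hθ10 hρ20 hθ20
      (hρ1a.symm.trans hρ2a) (hθ1a.symm.trans hθ2a) ((h 1 le_rfl).asym hρ1a)
      ((h m hm2').asym hρ1a) ((claim1 1).asym hθ1a) ((claim1 m).asym hθ1a) t ht
    have e1 : (f m)⁻¹ • ρ2 t = r m t :=
      Asym.eq ((hρ2a.symm.smul (f m)⁻¹).trans (hr3 m)) (hρ2.smul _) (hr1 m)
        (by rw [hρ20, inv_smul_smul, hr2]) ht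
    have e2 : (f m)⁻¹ • θ2 t = r' m t :=
      Asym.eq ((hθ2a.symm.smul (f m)⁻¹).trans (hr3' m)) (hθ2.smul _) (hr1' m)
        (by rw [hθ20, inv_smul_smul, hr2']) ht
    have e3 : dist (ρ2 t) (θ2 t) = dist (r m t) (r' m t) := by
      rw [← e1, ← e2, dist_smul]
    have h4 := (abs_le.mp h3).2
    rw [e3] at h4
    linarith
  intro i
  exact (claim1 i).asym ((hθ1a.trans claim3.symm).trans hρ1a.symm)

lemma Coh.smul {H H' : Subgroup G} {x x' : X} {C : ℝ} (h : Coh H H' x x' C) (g : G) :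
    Coh (cj H g) (cj H' g) (g • x) (g • x') C := by
  intro ρ ρ' σ σ' hρ hρ' hσ hσ' h1 h2 h3 h4 h5 h6 h7 h8 h9 h10 t ht
  have key : ∀ {H : Subgroup G} {ρ : ℝ → X}, Lim (cj H g) ρ → Lim H (fun t => g⁻¹ • ρ t) := by
    intro H ρ hl
    have := hl.smul g⁻¹
    rwa [cj_cj, inv_mul_cancel, cj_one] at this
  have := h (fun t => g⁻¹ • ρ t) (fun t => g⁻¹ • ρ' t) (fun t => g⁻¹ • σ t)
    (fun t => g⁻¹ • σ' t) (hρ.smul _) (hρ'.smul _) (hσ.smul _) (hσ'.smul _)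
    (by rw [h1, inv_smul_smul]) (by rw [h2, inv_smul_smul]) (by rw [h3, inv_smul_smul])
    (by rw [h4, inv_smul_smul]) (h5.smul _) (h6.smul _) (key h7) (key h8) (key h9) (key h10) t ht
  rwa [dist_smul, dist_smul] at this

theorem exists_eline (hcoc : Cocompact G X) {K : Subgroup G} {P : Set G} (hP : PosSys K P)
    (hK : CCo X K) {a b : G} (hab : a⁻¹ * b ∈ P) :
    ∃ f : ℤ → G, ELine X K P f ∧ (f 0)⁻¹ * a ∈ P ∧ b⁻¹ * f 1 ∈ P := by
  obtain ⟨p0, Y, R, hunif⟩ := exists_unif (X := X) hcoc hP hK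
  obtain ⟨τ, hτ⟩ := hP.ne
  obtain ⟨o, _⟩ := hunif.min.ne
  set K' := Fx K P 1 p0 with hK'
  have hp0 := hunif.mem
  have hle0 : Le P 1 p0 := Or.inr (by simpa using hp0)
  have hK'c : CCo X K' := hP.CCo_Fx hK hle0
  set u : G := p0 * (a⁻¹ * b) * τ with hu
  have hu' : p0⁻¹ * u = a⁻¹ * b * τ := by rw [hu]; group
  have huP : p0⁻¹ * u ∈ P := by rw [hu']; exact hP.mul _ hab _ hτ
  obtain ⟨C, hC⟩ := exists_path hunif huP o
  obtain ⟨g, hg⟩ := exists_half (Q := Qs K' u o C) (fun n => Qs_finite K' u o C n) hC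
  obtain ⟨U, hU, hid⟩ := exists_idem
  obtain ⟨f, hf, hrec⟩ := exists_recurrent (Q := Qs K' u o C) (fun n => Qs_finite K' u o C n)
    hU hid hg
  -- steps
  have hKle : K' ≤ K := by
    have := Fx_le_left (K := K) hle0
    rwa [cj_one] at this
  have hKle' : K' ≤ cj K p0 := Fx_le_right (K := K) hle0
  have hstep : ∀ i : ℤ, ∃ k ∈ K', ∃ k' ∈ K', (f i)⁻¹ * f (i + 1) = k * u * k' := by
    intro i
    exact (hf i (i + 1)).2.2 (by ring)
  have huP' : u ∈ P := by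
    have : u = p0 * (p0⁻¹ * u) := by group
    rw [this]
    exact hP.mul _ hp0 _ huP
  have hsucc : ∀ i : ℤ, (f i)⁻¹ * f (i + 1) ∈ P := by
    intro i
    obtain ⟨k, hk, k', hk', e⟩ := hstep i
    rw [e]
    exact hP.right _ (hKle hk') _ (hP.left _ (hKle hk) _ huP')
  have hlt : ∀ i j : ℤ, i < j → (f i)⁻¹ * f j ∈ P := by
    intro i j hij
    obtain ⟨n, rfl⟩ := Int.le.dest (Int.add_one_le_of_lt hij)
    induction n with
    | zero => simpa using hsucc i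
    | succ n ih =>
      have h1 := ih (by omega)
      have h2 := hsucc (i + 1 + n)
      have h3 := hP.lt_trans h1 h2
      have e : i + 1 + (n : ℤ) + 1 = i + 1 + ((n + 1 : ℕ) : ℤ) := by push_cast; ring
      rwa [e] at h3
  -- intermediate translate
  have hmid : ∀ i : ℤ, (f i * p0)⁻¹ * f (i + 1) ∈ P := by
    intro i
    obtain ⟨k, hk, k', hk', e⟩ := hstep i
    have h1 := hKle' hk
    rw [mem_cj] at h1
    have e2 : (f i * p0)⁻¹ * f (i + 1) = (p0⁻¹ * k * p0) * (p0⁻¹ * u) * k' := by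
      calc (f i * p0)⁻¹ * f (i + 1) = p0⁻¹ * ((f i)⁻¹ * f (i + 1)) := by group
        _ = p0⁻¹ * (k * u * k') := by rw [e]
        _ = (p0⁻¹ * k * p0) * (p0⁻¹ * u) * k' := by group
    rw [e2]
    exact hP.right _ (hKle hk') _ (hP.left _ h1 _ huP)
  obtain ⟨k, hk, k', hk', e01⟩ := hstep 0
  rw [zero_add] at e01
  set c : G := a * (f 0 * k * p0)⁻¹ with hc
  have hconj : ∀ i : ℤ, cj K' (f i) = Fx K P (f i) (f i * p0) := by
    intro i
    have := Fx_smul (K := K) (P := P) (f i) 1 p0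
    rw [mul_one] at this
    exact this.symm
  refine ⟨fun i => c * f i, ⟨?_, ?_⟩, ?_, ?_⟩
  · intro i j hij
    have e : (c * f i)⁻¹ * (c * f j) = (f i)⁻¹ * f j := by group
    show (c * f i)⁻¹ * (c * f j) ∈ P
    rw [e]
    exact hlt i j hij
  · intro ρ hρ hl i
    have h1 : ∀ i : ℤ, 1 ≤ i → Lim (cj K (f i)) (fun t => c⁻¹ • ρ t) := by
      intro i hi
      have := (hl i hi).smul c⁻¹
      rwa [cj_cj, inv_mul_cancel_left] at this
    have h2 : ∀ i : ℤ, 1 ≤ i → Lim (cj K' (f i)) (fun t => c⁻¹ • ρ t) := by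
      intro i hi
      rw [hconj]
      have h3 : Le P (f i) (f (i + 1)) := Or.inr (hsucc i)
      have h4 := hP.lim_Fx h3 (h1 i hi) (h1 (i + 1) (by omega))
      exact h4.mono (hP.Fx_mono (Le.refl _) (Or.inr (hmid i)))
    have h3 := exact_of_recurrent hK'c hU hid (o := o) (C := C) (f := f) (by
      intro j hj
      have h4 := ((hf 1 j).1).smul (f 1)
      rw [cj_cj, mul_inv_cancel_left, smul_smul, mul_inv_cancel_left] at h4
      exact h4) hrec (hρ.smul c⁻¹) h2 i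
    have h4 : Lim (cj K (f i)) (fun t => c⁻¹ • ρ t) := by
      refine h3.mono ?_
      rw [hconj]
      exact Fx_le_left (Or.inr (by
        rw [inv_mul_cancel_left]
        exact hp0))
    have h5 := h4.smul c
    rw [cj_cj] at h5
    have e : (fun t => c • c⁻¹ • ρ t) = ρ := by
      funext t
      rw [smul_inv_smul]
    rw [e] at h5
    exact h5
  · have e : (c * f 0)⁻¹ * a = k * p0 := by rw [hc]; group
    show (c * f 0)⁻¹ * a ∈ P
    rw [e]
    exact hP.left _ (hKle hk) _ hp0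
  · have e : b⁻¹ * (c * f 1) = τ * k' := by
      calc b⁻¹ * (c * f 1) = b⁻¹ * a * p0⁻¹ * k⁻¹ * ((f 0)⁻¹ * f 1) := by rw [hc]; group
        _ = b⁻¹ * a * p0⁻¹ * k⁻¹ * (k * u * k') := by rw [e01]
        _ = τ * k' := by rw [hu]; group
    show b⁻¹ * (c * f 1) ∈ P
    rw [e]
    exact hP.right _ (hKle hk') _ hτ

end Pool.Agent.H29.RR
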