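import Pool.Agent.H29.RR.CCo
import Pool.Agent.H29.Displacement

/-!
# Convex cocompact subgroups: overgroups of finite index, subgroups as groups

**CCo.overgroup**.  Let `J ≤ K` have finite index, `Z` closed convex nonempty, `J`-invariant,
`J`-cocompact.  As in the proof of `isMinl_of_finiteIndex` (`Pool.Agent.H74.CC1`) consider, for the
finitely many cosets `q : K ⧸ J.subgroupOf K`, the function `φ q x = infDist (q.out⁻¹ • x) Z`
(it depends only on the coset, as `Z` is `J`-invariant), and `F x = ∑ q, φ q x ^ 2`, a convex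
(`gconvexFun_sum`, `gconvexFun_sq`, `gconvexFun_comp_smul`, `gconvexFun_infDist`), continuous,
`K`-invariant function.  Take `z ∈ Z` and `Z' = {x | F x ≤ F z}` (`isNC_sublevel`).  For `x ∈ Z'` the
term of the coset of `1` gives `infDist x Z ^ 2 ≤ F z` so `infDist x Z ≤ sqrt (F z) =: r`, and `J` acts
cocompactly on `{x | infDist x Z ≤ r}` by `cocompactOn_nbhd`.  So `K` acts cocompactly on `Z'`.
-/

open Set Filter Topology Metric
open Pool.Agent.H29 Pool.Agent.H74.CC

set_option linter.unusedSectionVars false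

namespace Pool.Agent.H29.RR

variable {G X : Type*} [Group G] [MetricSpace X] [IsCAT0 X] [ProperSpace X]
  [MulAction G X] [IsIsometricSMul G X]

lemma CCo.overgroup {J K : Subgroup G} (h : CCo X J) (hle : J ≤ K) (hidx : J.relIndex K ≠ 0) :
    CCo X K := by
  obtain ⟨Z, hZ, hne, hc⟩ := h
  have hfin : Finite (K ⧸ J.subgroupOf K) := by
    have : (J.subgroupOf K).FiniteIndex := ⟨hidx⟩
    exact Subgroup.finite_quotient_of_finiteIndex
  have := Fintype.ofFinite (K ⧸ J.subgroupOf K)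
  set φ : (K ⧸ J.subgroupOf K) → X → ℝ := fun q x => infDist (((q.out : K) : G)⁻¹ • x) Z with hφ
  have hφmk : ∀ (c : K) (x : X), φ (QuotientGroup.mk c) x = infDist ((c : G)⁻¹ • x) Z := by
    intro c x
    obtain ⟨h, hh⟩ := QuotientGroup.mk_out_eq_mul (J.subgroupOf K) c
    simp only [hφ]
    rw [hh]
    have h2 : ((h : K) : G) ∈ J := h.2
    have e : (((c * (h : K) : K) : G))⁻¹ • x = ((h : K) : G)⁻¹ • (c : G)⁻¹ • x := by
      rw [smul_smul, Subgroup.coe_mul, mul_inv_rev]
    rw [e, hZ.infDist_smul (J.inv_mem h2)]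
  set F : X → ℝ := fun x => ∑ q : K ⧸ J.subgroupOf K, φ q x ^ 2 with hF
  have hconvZ : GConvexFun (fun x => infDist x Z) := gconvexFun_infDist hZ.closed hne hZ.convex
  have hconv1 : ∀ q, GConvexFun (fun x => φ q x ^ 2) := by
    intro q
    apply gconvexFun_sq
    · exact gconvexFun_comp_smul hconvZ _
    · intro x; exact infDist_nonneg
  have hFconv : GConvexFun F := gconvexFun_sum _ (fun q _ => hconv1 q)
  have hφcont : ∀ q, Continuous (φ q) := fun q =>
    (continuous_infDist_pt Z).comp (isometry_smul X _).continuous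
  have hFcont : Continuous F := continuous_finsetSum _ (fun q _ => (hφcont q).pow 2)
  have hFinv : ∀ n ∈ K, ∀ x, F (n • x) = F x := by
    intro n hn x
    simp only [hF]
    apply Fintype.sum_equiv (MulAction.toPerm ((⟨n, hn⟩ : K)⁻¹))
    intro q
    induction q using QuotientGroup.induction_on with
    | H c =>
      rw [MulAction.toPerm_apply]
      have e1 : ((⟨n, hn⟩ : K)⁻¹) • (QuotientGroup.mk c : K ⧸ J.subgroupOf K) =
          QuotientGroup.mk ((⟨n, hn⟩ : K)⁻¹ * c) := rfl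
      rw [e1, hφmk, hφmk]
      congr 2
      rw [smul_smul]
      congr 1
      push_cast
      group
  obtain ⟨z, hz⟩ := hne
  have hne : Z.Nonempty := ⟨z, hz⟩
  have e0 : ∀ x, φ (QuotientGroup.mk 1) x = infDist x Z := by
    intro x
    rw [hφmk]
    simp
  refine ⟨{x : X | F x ≤ F z}, isNC_sublevel hFconv hFcont hFinv (F z), ⟨z, le_refl (F z)⟩, ?_⟩
  obtain ⟨B, hB, hcov⟩ := cocompactOn_nbhd hZ hne hc (Real.sqrt (F z))
  refine ⟨B, hB, fun x hx => ?_⟩
  have hx' : F x ≤ F z := hx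
  have h1 : infDist x Z ^ 2 ≤ F x := by
    rw [← e0]
    exact Finset.single_le_sum (f := fun q => φ q x ^ 2) (fun q _ => sq_nonneg _)
      (Finset.mem_univ (QuotientGroup.mk 1))
  have h2 : infDist x Z ≤ Real.sqrt (F z) := Real.le_sqrt_of_sq_le (h1.trans hx')
  obtain ⟨c, hcJ, hcB⟩ := hcov x h2
  exact ⟨c, hle hcJ, hcB⟩

lemma CCo.subgroupOf {K L : Subgroup G} (h : CCo X K) (hle : K ≤ L) :
    CCo X (K.subgroupOf L) := by
  obtain ⟨Z, hZ, hne, B, hB, hcov⟩ := h
  refine ⟨Z, ⟨hZ.closed, hZ.convex, fun n hn x hx => ?_⟩, hne, B, hB, fun p hp => ?_⟩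
  · exact hZ.inv (n : G) (Subgroup.mem_subgroupOf.1 hn) x hx
  · obtain ⟨c, hc, hcB⟩ := hcov p hp
    exact ⟨⟨c, hle hc⟩, Subgroup.mem_subgroupOf.2 hc, hcB⟩

end Pool.Agent.H29.RR
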