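import Pool.Agent.H29.RR.IWall
import Pool.Agent.H29.RR.CompGrp
import Pool.Agent.H29.RR.Over

/-!
# The flippable case

`HI G h₁ h₂` is the set of all translates of `h₁`, `h₂` and of their complements.

**halfSys_HI**.  `compl`, `smul`: clear (`Set.smul_set_compl`).  `width`: let `T ⊆ HI` be pairwise crossing; `T`
is the union of four subsets (the four types); a subset of members `(g • h₁)ᶜ` has complements which
are pairwise crossing translates of `h₁` (`crossing_compl_left`, `crossing_compl_right`), and taking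
complements is injective.  `flip`: it is enough to flip `h₁, h₂, h₁ᶜ, h₂ᶜ` (if `γ • Sᶜ ⊆ S` then
`(g * γ * g⁻¹) • (g • S)ᶜ ⊆ g • S`). `h₂`: `r₁ • h₂ᶜ ⊆ h₂` (from `h₂ ∪ r₁ • h₂ = univ`). `h₁`:
`r₁ • h₁ᶜ ⊆ r₁ • h₂ᶜ ⊆ h₂ ⊆ h₁`. `h₁ᶜ`: `r₂ • h₁ ⊆ h₁ᶜ`. `h₂ᶜ`: `r₂ • h₂ ⊆ r₂ • h₁ ⊆ h₁ᶜ ⊆ h₂ᶜ`.

**rankOne_of_iflips**.  Let `L = compGrp` of `h₁` (finite index).  The stabiliser `KI G h₁ h₂ ≤ L`, `p ∈ L`
(`p • h₁ ⊆ h₁` does not cross `h₁`), `r₁ ∈ L` (`r₁ • h₂ᶜ ⊆ h₂`: `r₁ • h₂` does not cross `h₂`; `h₁`, `h₂` do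
not cross; so `h₁ - h₂ - r₁ • h₂ - r₁ • h₁` is a chain), similarly `r₂ ∈ L`.  Apply `rankOne_of_iwall`
to the group `↥L` (instances for subgroups: `IsIsometricSMul`, `Cocompact.subgroup` in
`Pool.Agent.H29.Displacement`; `CCo.subgroupOf`; the stabiliser in `↥L` of the interval is
`(KI G h₁ h₂).subgroupOf L`; `FinSep` for `↥L` follows from `FinSep` for `G` by `Set.Finite.subset`).
Hypothesis `h3` for `g ∈ L`, `S ∈ {h₁, h₂}`: `g • S` is connected to `h₁` (`g • h₂ ⊆ g • h₁` do not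
cross). By `HalfSys.exists_deep` there is `B ∈ HI` with `B ⊆ h₁` and `B ⊆ g • S` or `B ⊆ (g • S)ᶜ`.  We need
`a ∈ L` with `a • h₁ ⊆ B`.  `B` is one of `x • h₁` (take `a = x`), `x • h₂` (take `a = x * p`), `(x • h₁)ᶜ`
or `(x • h₂)ᶜ` (take `a = x * r₂`: `x • r₂ • h₁ ⊆ (x • h₁)ᶜ ⊆ (x • h₂)ᶜ`).  `a ∈ L`: `a • h₁ ⊆ B ⊆ h₁` so `a • h₁`
and `h₁` do not cross.
-/

open Set Filter Topology Metric
open Pool.Agent.H29 Pool.Agent.H74.CC
open scoped Pointwise

set_option linter.unusedSectionVars false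

namespace Pool.Agent.H29.RR

universe u

section Alg

variable {G V : Type*} [Group G] [MulAction G V] {h₁ h₂ : Set V}

/-- all translates of two sets and of their complements -/
def HI (G : Type*) {V : Type*} [Group G] [MulAction G V] (h₁ h₂ : Set V) : Set (Set V) :=
  {S | ∃ g : G, S = g • h₁ ∨ S = g • h₂ ∨ S = (g • h₁)ᶜ ∨ S = (g • h₂)ᶜ}

/-- pairwise crossing families of translates are finite -/
def Width (G : Type*) {V : Type*} [Group G] [MulAction G V] (h : Set V) : Prop :=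
  ∀ T : Set (Set V), (∀ S ∈ T, ∃ g : G, S = g • h) → T.Pairwise Crossing → T.Finite

lemma smul_mem_HI {g : G} {S : Set V} (hS : S ∈ HI G h₁ h₂) : g • S ∈ HI G h₁ h₂ := by
  obtain ⟨x, rfl | rfl | rfl | rfl⟩ := hS
  · exact ⟨g * x, Or.inl (by rw [mul_smul])⟩
  · exact ⟨g * x, Or.inr (Or.inl (by rw [mul_smul]))⟩
  · exact ⟨g * x, Or.inr (Or.inr (Or.inl (by rw [mul_smul, Set.smul_set_compl])))⟩
  · exact ⟨g * x, Or.inr (Or.inr (Or.inr (by rw [mul_smul, Set.smul_set_compl])))⟩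

lemma left_mem_HI : h₁ ∈ HI G h₁ h₂ := ⟨1, Or.inl (by rw [one_smul])⟩

lemma right_mem_HI : h₂ ∈ HI G h₁ h₂ := ⟨1, Or.inr (Or.inl (by rw [one_smul]))⟩

private lemma flip_conj {S : Set V} {γ : G} (h : γ • Sᶜ ⊆ S) (g : G) :
    (g * γ * g⁻¹) • (g • S)ᶜ ⊆ g • S := by
  rw [← Set.smul_set_compl, mul_smul, mul_smul, inv_smul_smul]
  exact smul_set_mono h

private lemma width_compl {h : Set V} (w : Width G h) (T : Set (Set V))
    (hT : ∀ S ∈ T, ∃ g : G, S = (g • h)ᶜ) (hp : T.Pairwise Crossing) : T.Finite := by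
  have h1 : (compl '' T).Finite := by
    apply w
    · rintro _ ⟨S, hS, rfl⟩
      obtain ⟨g, hg⟩ := hT S hS
      exact ⟨g, by rw [hg, compl_compl]⟩
    · rintro _ ⟨S, hS, rfl⟩ _ ⟨S', hS', rfl⟩ hne
      have hne' : S ≠ S' := fun h => hne (by rw [h])
      exact crossing_compl_left.2 (crossing_compl_right.2 (hp hS hS' hne'))
  exact h1.of_finite_image compl_injective.injOn

lemma halfSys_HI (hle : h₂ ⊆ h₁) (w1 : Width G h₁) (w2 : Width G h₂) {r₁ r₂ : G}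
    (hr₁ : h₂ ∪ r₁ • h₂ = univ) (hr₂ : Disjoint (r₂ • h₁) h₁) : HalfSys G (HI G h₁ h₂) where
  compl := by
    rintro S ⟨x, rfl | rfl | rfl | rfl⟩
    · exact ⟨x, Or.inr (Or.inr (Or.inl rfl))⟩
    · exact ⟨x, Or.inr (Or.inr (Or.inr rfl))⟩
    · exact ⟨x, Or.inl (compl_compl _)⟩
    · exact ⟨x, Or.inr (Or.inl (compl_compl _))⟩
  smul := fun g S hS => smul_mem_HI hS
  width := by
    intro T hT hp
    have f1 : {S ∈ T | ∃ g : G, S = g • h₁}.Finite :=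
      w1 _ (fun S hS => hS.2) (hp.mono (fun S hS => hS.1))
    have f2 : {S ∈ T | ∃ g : G, S = g • h₂}.Finite :=
      w2 _ (fun S hS => hS.2) (hp.mono (fun S hS => hS.1))
    have f3 : {S ∈ T | ∃ g : G, S = (g • h₁)ᶜ}.Finite :=
      width_compl w1 _ (fun S hS => hS.2) (hp.mono (fun S hS => hS.1))
    have f4 : {S ∈ T | ∃ g : G, S = (g • h₂)ᶜ}.Finite :=
      width_compl w2 _ (fun S hS => hS.2) (hp.mono (fun S hS => hS.1))
    apply (((f1.union f2).union f3).union f4).subset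
    intro S hS
    obtain ⟨x, h | h | h | h⟩ := hT hS
    · exact Or.inl (Or.inl (Or.inl ⟨hS, x, h⟩))
    · exact Or.inl (Or.inl (Or.inr ⟨hS, x, h⟩))
    · exact Or.inl (Or.inr ⟨hS, x, h⟩)
    · exact Or.inr ⟨hS, x, h⟩
  flip := by
    have e2 : r₁ • h₂ᶜ ⊆ h₂ := by
      intro x hx
      rw [Set.smul_set_compl] at hx
      have h3 : x ∈ h₂ ∪ r₁ • h₂ := by rw [hr₁]; exact mem_univ x
      exact h3.resolve_right hx
    have e1 : r₁ • h₁ᶜ ⊆ h₁ :=
      ((smul_set_mono (compl_subset_compl.2 hle)).trans e2).trans hle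
    have e3 : r₂ • h₁ᶜᶜ ⊆ h₁ᶜ := by
      rw [compl_compl]
      exact hr₂.subset_compl_right
    have e4 : r₂ • h₂ᶜᶜ ⊆ h₂ᶜ := by
      rw [compl_compl]
      exact ((smul_set_mono hle).trans hr₂.subset_compl_right).trans (compl_subset_compl.2 hle)
    rintro S ⟨x, rfl | rfl | rfl | rfl⟩
    · exact ⟨_, flip_conj e1 x⟩
    · exact ⟨_, flip_conj e2 x⟩
    · rw [← Set.smul_set_compl]
      exact ⟨_, flip_conj e3 x⟩
    · rw [← Set.smul_set_compl]
      exact ⟨_, flip_conj e4 x⟩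

end Alg

variable {G : Type*} {X : Type u} {V : Type*} [Group G] [MetricSpace X] [IsCAT0 X] [ProperSpace X]
  [MulAction G X] [IsIsometricSMul G X] [ProperlyDiscontinuousSMul G X] [MulAction G V]
  {h₁ h₂ : Set V}

theorem rankOne_of_iflips [Nonempty X] (hgc : GeodesicallyComplete X) (hcoc : Cocompact G X)
    (hirr : MetricIrreducible X) (hle : h₂ ⊆ h₁) (s1 : FinSep h₁ G) (s2 : FinSep h₂ G)
    (w1 : Width G h₁) (w2 : Width G h₂) (hK : CCo X (KI G h₁ h₂)) {p : G}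
    (hp : p • h₁ ⊆ h₂) (hne : p • h₁ ≠ h₁) {r₁ r₂ : G} (hr₁ : h₂ ∪ r₁ • h₂ = univ)
    (hr₂ : Disjoint (r₂ • h₁) h₁) : ∃ g : G, IsRankOne (X := X) g := by
  have hS : HalfSys G (HI G h₁ h₂) := halfSys_HI hle w1 w2 hr₁ hr₂
  have hA : h₁ ∈ HI G h₁ h₂ := left_mem_HI
  have hB : h₂ ∈ HI G h₁ h₂ := right_mem_HI
  have hfi : (compGrp hS hA).FiniteIndex := compGrp_finiteIndex hS hA
  -- membership in the finite index subgroup
  have hmem : ∀ a : G, ¬ Crossing h₁ (a • h₁) → a ∈ compGrp hS hA := fun a ha =>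
    (mem_compGrp hS hA).2 (Conn.of_not_crossing (smul_mem_HI hA) ha)
  have c12 : ¬ Crossing h₁ h₂ := not_crossing_iff.2 (Or.inr (Or.inr (Or.inl hle)))
  have hpL : p ∈ compGrp hS hA :=
    hmem p (not_crossing_iff.2 (Or.inr (Or.inr (Or.inl (hp.trans hle)))))
  have hr₁L : r₁ ∈ compGrp hS hA := by
    rw [mem_compGrp]
    have e2 : h₂ᶜ ⊆ r₁ • h₂ := by
      intro x hx
      have h3 : x ∈ h₂ ∪ r₁ • h₂ := by rw [hr₁]; exact mem_univ x
      exact h3.resolve_left hx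
    refine (Conn.of_not_crossing hB c12).trans ((Conn.of_not_crossing (smul_mem_HI hB)
      (not_crossing_iff.2 (Or.inr (Or.inr (Or.inr e2))))).trans
      (Conn.of_not_crossing (smul_mem_HI hA)
        (not_crossing_iff.2 (Or.inr (Or.inl (smul_set_mono hle))))))
  have hKL : KI G h₁ h₂ ≤ compGrp hS hA := by
    intro k hk
    rw [mem_compGrp]
    have : k • h₁ = h₁ := hk.1
    rw [this]
    exact Conn.refl _ _
  have hKeq : KI (compGrp hS hA) h₁ h₂ = (KI G h₁ h₂).subgroupOf (compGrp hS hA) := by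
    ext k
    rfl
  have hK' : CCo X (KI (compGrp hS hA) h₁ h₂) := by
    rw [hKeq]
    exact hK.subgroupOf hKL
  have s1' : FinSep h₁ (compGrp hS hA) := by
    intro v w
    apply (s1 v w).subset
    rintro S ⟨⟨g, rfl⟩, h2, h3⟩
    exact ⟨⟨(g : G), rfl⟩, h2, h3⟩
  have s2' : FinSep h₂ (compGrp hS hA) := by
    intro v w
    apply (s2 v w).subset
    rintro S ⟨⟨g, rfl⟩, h2, h3⟩
    exact ⟨⟨(g : G), rfl⟩, h2, h3⟩
  have hr₂c : r₂ • h₁ ⊆ h₁ᶜ := hr₂.subset_compl_right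
  have h3 : ∀ (g : compGrp hS hA) (S : Set V), S = h₁ ∨ S = h₂ →
      ∃ a : compGrp hS hA, a • h₁ ⊆ h₁ ∧ (a • h₁ ⊆ g • S ∨ Disjoint (a • h₁) (g • S)) := by
    rintro ⟨g, hg⟩ S hSS
    have hconn : Conn (HI G h₁ h₂) h₁ (g • S) := by
      have hg' := (mem_compGrp hS hA).1 hg
      rcases hSS with rfl | rfl
      · exact hg'
      · exact hg'.trans (Conn.of_not_crossing (smul_mem_HI hB)
          (not_crossing_iff.2 (Or.inr (Or.inr (Or.inl (smul_set_mono hle))))))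
    obtain ⟨B, hBH, hBh, hBS⟩ := hS.exists_deep hA hconn
    obtain ⟨a, ha⟩ : ∃ a : G, a • h₁ ⊆ B := by
      obtain ⟨x, rfl | rfl | rfl | rfl⟩ := hBH
      · exact ⟨x, Subset.rfl⟩
      · refine ⟨x * p, ?_⟩
        rw [mul_smul]
        exact smul_set_mono hp
      · refine ⟨x * r₂, ?_⟩
        rw [mul_smul, ← Set.smul_set_compl]
        exact smul_set_mono hr₂c
      · refine ⟨x * r₂, ?_⟩
        rw [mul_smul, ← Set.smul_set_compl]
        exact smul_set_mono (hr₂c.trans (compl_subset_compl.2 hle))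
    have haL : a ∈ compGrp hS hA :=
      hmem a (not_crossing_iff.2 (Or.inr (Or.inr (Or.inl (ha.trans hBh)))))
    refine ⟨⟨a, haL⟩, ha.trans hBh, ?_⟩
    rcases hBS with h | h
    · exact Or.inl (ha.trans h)
    · exact Or.inr (disjoint_left.2 fun x hx hx' => h (ha hx) hx')
  have hcoc' : Cocompact (compGrp hS hA) X := hcoc.subgroup _
  obtain ⟨g, c, hc, ⟨l, hl, hcl⟩, hb⟩ := rankOne_of_iwall (G := compGrp hS hA) (X := X) hgc hcoc'
    hirr hle s1' s2' hK' (p := ⟨p, hpL⟩) hp hne h3 (r := ⟨r₁, hr₁L⟩) hr₁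
  exact ⟨(g : G), c, hc, ⟨l, hl, hcl⟩, hb⟩

end Pool.Agent.H29.RR
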