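import Mathlib

/-!
# Crossing sets
-/

open Set

namespace Pool.Agent.H29.RR

/-- Two subsets of `V` cross when all four corners are nonempty. -/
def Crossing {V : Type*} (A B : Set V) : Prop :=
  (A ∩ B).Nonempty ∧ (A ∩ Bᶜ).Nonempty ∧ (Aᶜ ∩ B).Nonempty ∧ (Aᶜ ∩ Bᶜ).Nonempty

end Pool.Agent.H29.RR
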