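import Pool.Agent.H29.WallFam
import Pool.Agent.H29.RR.WDefs

/-!
# Sides of convex sets

`Side W y` is the path component of `y` in the complement of `W` (empty if `y ∈ W`).

**comp2** (as `WallFam.comp_pt` in `Pool.Agent.H29.WallFam`).  `W₁`, `W₂` disjoint convex, `a ∈ W₁`, `b ∈ W₂`, `x`
arbitrary. If the segment from `x` to `a` avoids `W₂` then `x` and `a` are joined in `W₂ᶜ`
(`joinedIn_of_pt`).  Otherwise it meets `W₂` in `c = pt x a t`, and the segment from `x` to `c` avoids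
`W₁`: a point `c' ∈ W₁` on it would give (convexity of `W₁`) `c ∈ W₁`.  So `x` is joined in `W₁ᶜ` to `c`,
and `c` to `b` inside `W₂`.

**not_crossing_side**.  Let `a ∈ W₁`, `b ∈ W₂`, `S₁ = Side W₁ y₁`, `S₂ = Side W₂ y₂`.
(i) `b ∈ S₁`, `a ∈ S₂`: `S₁ᶜ ∩ S₂ᶜ = ∅`: for `z` use `comp2`.  (ii) `b ∈ S₁`, `a ∉ S₂`: `S₂ ⊆ S₁`, by
`comp2`. (iii) symmetric. (iv) `b ∉ S₁`, `a ∉ S₂`: `S₁ ∩ S₂ = ∅`, by `comp2`.
-/

open Set Filter Topology Metric
open Pool.Agent.H29
open scoped Pointwise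

set_option linter.unusedSectionVars false

namespace Pool.Agent.H29.RR

section Side

variable {X : Type*} [MetricSpace X]

/-- the side of `W` containing `y` -/
def Side (W : Set X) (y : X) : Set X := {z | JoinedIn Wᶜ y z}

variable {W : Set X} {y z v w : X}

lemma mem_side : z ∈ Side W y ↔ JoinedIn Wᶜ y z := Iff.rfl

lemma mem_side_self (h : y ∉ W) : y ∈ Side W y := JoinedIn.refl h

lemma side_subset : Side W y ⊆ Wᶜ := fun _ h => h.target_mem

lemma side_eq (h : z ∈ Side W y) : Side W y = Side W z := by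
  ext u
  exact ⟨fun hu => (mem_side.mp h).symm.trans hu, fun hu => (mem_side.mp h).trans hu⟩

/-- two sides of the same wall do not cross -/
lemma not_crossing_side_same (W : Set X) (y z : X) : ¬ Crossing (Side W y) (Side W z) := by
  rintro ⟨⟨u, hu1, hu2⟩, ⟨v, hv1, hv2⟩, -, -⟩
  exact hv2 ((mem_side.mp hu2).trans ((mem_side.mp hu1).symm.trans hv1))

lemma side_smul {G : Type*} [Group G] [MulAction G X] [IsIsometricSMul G X] (g : G) (W : Set X)
    (y : X) : g • Side W y = Side (g • W) (g • y) := by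
  have key : ∀ (g : G) (W : Set X) (y z : X), JoinedIn Wᶜ y z →
      JoinedIn (g • W)ᶜ (g • y) (g • z) := by
    intro g W y z h
    have h1 := JoinedIn.map h (f := fun z : X => g • z) (isometry_smul X g).continuous
    apply h1.mono
    rintro _ ⟨u, hu, rfl⟩
    intro hcon
    exact hu (Set.smul_mem_smul_set_iff.mp hcon)
  ext w
  constructor
  · rintro ⟨z, hz, rfl⟩
    exact key g W y z hz
  · intro hw
    have h2 := key g⁻¹ _ _ _ (mem_side.mp hw)
    rw [inv_smul_smul, inv_smul_smul] at h2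
    exact ⟨g⁻¹ • w, h2, smul_inv_smul g w⟩

end Side

section Convex

variable {X : Type*} [MetricSpace X] [IsCAT0 X] {W W₁ W₂ : Set X} {a b b' x y z v w y₁ y₂ : X}

lemma joined_of_disjoint (h2 : GConvex W₂) (hd : Disjoint W₁ W₂) (hb : b ∈ W₂) (hb' : b' ∈ W₂) :
    JoinedIn W₁ᶜ b b' :=
  joinedIn_of_pt (fun t ht hcon => Set.disjoint_left.mp hd hcon (h2 b hb b' hb' t ht))

lemma comp2 (h1 : GConvex W₁) (h2 : GConvex W₂) (hd : Disjoint W₁ W₂) (x : X) (ha : a ∈ W₁)
    (hb : b ∈ W₂) : JoinedIn W₁ᶜ x b ∨ JoinedIn W₂ᶜ x a := by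
  by_cases hmeet : ∀ t ∈ Icc (0 : ℝ) 1, pt x a t ∈ W₂ᶜ
  · exact Or.inr (joinedIn_of_pt hmeet)
  · push Not at hmeet
    obtain ⟨t, ht, hpt⟩ := hmeet
    have hpt' : pt x a t ∈ W₂ := not_not.mp hpt
    left
    have h1 : JoinedIn W₁ᶜ x (pt x a t) := by
      apply joinedIn_of_pt
      intro s hs hcon
      rw [pt_pt x a hs ht] at hcon
      have hst : s * t ∈ Icc (0 : ℝ) 1 :=
        ⟨mul_nonneg hs.1 ht.1, mul_le_one₀ hs.2 ht.1 ht.2⟩
      have hle : s * t ≤ t := mul_le_of_le_one_left ht.1 hs.2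
      refine Set.disjoint_left.mp hd ?_ hpt'
      rcases eq_or_lt_of_le hst.2 with h3 | h3
      · have ht1 : t = 1 := le_antisymm ht.2 (by linarith)
        rw [ht1, pt_one]
        exact ha
      · have hpos : 0 < 1 - s * t := by linarith
        have hr : (t - s * t) / (1 - s * t) ∈ Icc (0 : ℝ) 1 := by
          refine ⟨div_nonneg (by linarith) hpos.le, ?_⟩
          rw [div_le_one hpos]
          linarith [ht.2]
        have h4 := h1 _ hcon _ ha _ hr
        have h5 := pt_pt_pt x a hst one_mem_I hr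
        rw [pt_one] at h5
        rw [h5] at h4
        have h6 : ∀ u : ℝ, 1 - u ≠ 0 →
            (1 - (t - u) / (1 - u)) * u + (t - u) / (1 - u) * 1 = t := by
          intro u hu
          field_simp
          ring
        rwa [h6 _ hpos.ne'] at h4
    exact h1.trans (joined_of_disjoint h2 hd hpt' hb)

lemma not_crossing_side (h1 : GConvex W₁) (h2 : GConvex W₂) (hd : Disjoint W₁ W₂)
    (hne1 : W₁.Nonempty) (hne2 : W₂.Nonempty) : ¬ Crossing (Side W₁ y₁) (Side W₂ y₂) := by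
  obtain ⟨a, ha⟩ := hne1
  obtain ⟨b, hb⟩ := hne2
  rintro ⟨⟨z₁, hz1, hz1'⟩, ⟨z₂, hz2, hz2'⟩, ⟨z₃, hz3, hz3'⟩, ⟨z₄, hz4, hz4'⟩⟩
  by_cases h3 : b ∈ Side W₁ y₁
  · by_cases h4 : a ∈ Side W₂ y₂
    · rcases comp2 h1 h2 hd z₄ ha hb with h | h
      · exact hz4 ((mem_side.mp h3).trans h.symm)
      · exact hz4' ((mem_side.mp h4).trans h.symm)
    · rcases comp2 h1 h2 hd z₃ ha hb with h | h
      · exact hz3 ((mem_side.mp h3).trans h.symm)
      · exact h4 ((mem_side.mp hz3').trans h)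
  · by_cases h4 : a ∈ Side W₂ y₂
    · rcases comp2 h1 h2 hd z₂ ha hb with h | h
      · exact h3 ((mem_side.mp hz2).trans h)
      · exact hz2' ((mem_side.mp h4).trans h.symm)
    · rcases comp2 h1 h2 hd z₁ ha hb with h | h
      · exact h3 ((mem_side.mp hz1).trans h)
      · exact h4 ((mem_side.mp hz1').trans h)

/-- a segment leaving a side meets the wall -/
lemma side_meets (hv : v ∈ Side W y) (hw : w ∉ Side W y) :
    ∃ t ∈ Icc (0 : ℝ) 1, pt v w t ∈ W := by
  by_contra hcon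
  push Not at hcon
  exact hw ((mem_side.mp hv).trans (joinedIn_of_pt hcon))

end Convex

end Pool.Agent.H29.RR
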