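import Pool.Agent.H29.RR.Geo1
import Pool.Agent.H29.RR.Over
import Pool.Agent.H29.RR.Flippable

/-!
# Translates of a periodic convex wall

**PWall**: `D` is closed, convex, nonempty, and its stabiliser acts cocompactly on it.

**PWall.finite_meet**.  Let `C` be compact, `g • D` meet `C` in `x`. Then `g⁻¹ • x ∈ D`, so there is `k` with
`k • D = D` and `(k * g⁻¹) • x ∈ B`.  There are finitely many elements `f = k * g⁻¹` with `f • C` meeting `B`
(`ProperlyDiscontinuousSMul.finite_disjoint_inter_image`), and `g • D = f⁻¹ • k • D = f⁻¹ • D`.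

**PWall.finSep_side**.  Let `S = g • Side D y`, `v ∈ S`, `w ∉ S`. `S = Side (g • D) (g • y)` (`side_smul`)
`= Side (g • D) v` (`side_eq`), and `g • D` meets the segment from `v` to `w` (`side_meets`), a compact set
(the image of `Icc 0 1` under `pt v w`, or use the closed ball around `v` of radius `dist v w`).  So `g • D` is
one of finitely many sets, and so is `S`.

**PWall.cco**.  For all `a`, the stabiliser of `a • D` is convex cocompact: for `a = 1` take `Z = D`; in general it
is `cj (stabilizer G D) a`: `CCo.conj`.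

**PWall.cco_pair**.  Let `W₁ = a • D`, `W₂ = b • D` be disjoint, `e₁ ∈ W₁`, `e₂ ∈ W₂`.  Then the common stabiliser of
`Side W₁ e₂` and `(Side W₂ e₁)ᶜ` is convex cocompact.  Proof: `J = stabilizer W₁ ⊓ stabilizer W₂` is convex
cocompact (`CCo.inf`), `J ≤ K'` because for `g ∈ J`: `g • Side W₁ e₂ = Side W₁ (g • e₂)` with `g • e₂ ∈ W₂`, joined
to `e₂` in `W₁ᶜ` (`joined_of_disjoint`), similarly for the other (`Set.smul_set_compl`).  Finite index: for
`g ∈ K'` (which fixes `Side W₁ e₂ ∋ e₂`, not containing `e₁ ∈ W₁`) `g • W₁` meets the segment from `e₂` to `e₁`,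
because `g • Side W₁ e₂ = Side (g • W₁) (g • e₂) = Side W₁ e₂` contains `e₂` and not `e₁`; similarly
`g • W₂` meets this segment. So `g ↦ (g • W₁, g • W₂)` has finitely many values on `K'`
(`PWall.finite_meet`): use `relIndex_of_finite_image` and then `CCo.overgroup`.

**PWall.finite_types**.  There is a finite set `C` of points outside `D` such that for all `u ∉ D` there are `k` with
`k • D = D` and `c ∈ C` with `k • Side D u = Side D c`.  Proof: By geodesic completeness there is `u'` in `Side D u`
with `infDist u' D = 1`: let `y = proj D u ≠ u`; extend the segment from `y` to `u` to a line `c` (see the proof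
of `exists_wall_beyond` in `Pool.Agent.H29.Displacement`), `infDist (c t) D = t` for
`t` between `0` and `dist y u`, and `t ≤ infDist (c t) D` for all `t ≥ dist y u`, also `≤ t` as `c 0 = y ∈ D`.  So
`u' = c 1` has `infDist u' D = 1` and is joined to `u` by a segment of `c` outside `D` (`line_pt`,
`joinedIn_of_pt`).  Next `proj D u' ∈ D`, so `k • proj D u' ∈ B` for some `k` with `k • D = D`, and
`k • u'` lies in the compact set `E = cthickening 1 B ∩ {z | infDist z D = 1}`.  Cover `E` by finitely many balls of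
radius `1/2` with centres in `E`; each ball lies in `Dᶜ` and its points are joined to the centre in `Dᶜ` by segments. So
`Side D (k • u') = Side D c` for a centre `c`.
-/

open Set Filter Topology Metric
open Pool.Agent.H29 Pool.Agent.H74.CC
open scoped Pointwise

set_option linter.unusedSectionVars false

namespace Pool.Agent.H29.RR

variable {G : Type*} {X : Type*} [Group G] [MetricSpace X] [IsCAT0 X] [ProperSpace X]
  [MulAction G X] [IsIsometricSMul G X] [ProperlyDiscontinuousSMul G X]

variable (G) in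
/-- periodic convex walls -/
structure PWall (D : Set X) : Prop where
  closed : IsClosed D
  ne : D.Nonempty
  conv : GConvex D
  coc : ∃ B : Set X, IsCompact B ∧ ∀ x ∈ D, ∃ k : G, k • D = D ∧ k • x ∈ B

variable {D : Set X}

lemma gconvex_smul_set {D : Set X} (h : GConvex D) (g : G) : GConvex (g • D) := by
  rintro x ⟨a, ha, rfl⟩ y ⟨b, hb, rfl⟩ t ht
  exact ⟨pt a b t, h a ha b hb t ht, smul_pt g a b ht⟩

lemma PWall.finite_meet (hD : PWall G D) {C : Set X} (hC : IsCompact C) :
    {S : Set X | (∃ g : G, S = g • D) ∧ (S ∩ C).Nonempty}.Finite := by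
  obtain ⟨B, hB, hcov⟩ := hD.coc
  have hfin := ProperlyDiscontinuousSMul.finite_disjoint_inter_image (Γ := G) hC hB
  apply (hfin.image (fun f => f⁻¹ • D)).subset
  rintro S ⟨⟨g, rfl⟩, x, hx, hxC⟩
  obtain ⟨k, hk, hkB⟩ := hcov (g⁻¹ • x) (Set.mem_smul_set_iff_inv_smul_mem.mp hx)
  refine ⟨k * g⁻¹, ⟨k • g⁻¹ • x, ⟨x, hxC, mul_smul _ _ _⟩, hkB⟩, ?_⟩
  show (k * g⁻¹)⁻¹ • D = g • D
  rw [mul_inv_rev, inv_inv, mul_smul]
  congr 1
  rw [inv_smul_eq_iff, hk]

lemma PWall.finSep_side (hD : PWall G D) (y : X) : FinSep (Side D y) G := by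
  intro v w
  have hfin := hD.finite_meet (isCompact_closedBall v (dist v w))
  apply (hfin.image (fun W => Side W v)).subset
  rintro S ⟨⟨g, rfl⟩, hv, hw⟩
  rw [side_smul] at hv hw ⊢
  obtain ⟨t, ht, hmem⟩ := side_meets hv hw
  refine ⟨g • D, ⟨⟨g, rfl⟩, pt v w t, hmem, ?_⟩, (side_eq hv).symm⟩
  rw [mem_closedBall, dist_comm, dist_left_pt v w ht]
  exact mul_le_of_le_one_left dist_nonneg ht.2

lemma PWall.cco (hD : PWall G D) (a : G) : CCo X (MulAction.stabilizer G (a • D)) := by
  have h1 : CCo X (MulAction.stabilizer G D) := by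
    refine ⟨D, ⟨hD.closed, hD.conv, ?_⟩, hD.ne, ?_⟩
    · intro n hn x hx
      have hn' : n • D = D := hn
      rw [← hn']
      exact Set.smul_mem_smul_set hx
    · obtain ⟨B, hB, h⟩ := hD.coc
      refine ⟨B, hB, fun p hp => ?_⟩
      obtain ⟨k, hk, hkB⟩ := h p hp
      exact ⟨k, hk, hkB⟩
  have h2 := h1.conj a
  have h3 : cj (MulAction.stabilizer G D) a = MulAction.stabilizer G (a • D) := by
    ext g
    rw [mem_cj_stab, MulAction.mem_stabilizer_iff]
  rw [← h3]
  exact h2

lemma PWall.cco_pair (hD : PWall G D) {a b : G} (hd : Disjoint (a • D) (b • D)) {e₁ e₂ : X}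
    (h1 : e₁ ∈ a • D) (h2 : e₂ ∈ b • D) :
    CCo X (KI G (Side (a • D) e₂) (Side (b • D) e₁)ᶜ) := by
  have hJ := (hD.cco a).inf (hD.cco b)
  have e1n : e₁ ∉ b • D := fun h => (Set.disjoint_left.mp hd) h1 h
  have e2n : e₂ ∉ a • D := fun h => (Set.disjoint_left.mp hd) h h2
  have hc1 : GConvex (a • D) := gconvex_smul_set hD.conv a
  have hc2 : GConvex (b • D) := gconvex_smul_set hD.conv b
  refine hJ.overgroup ?_ ?_
  · intro g hg
    obtain ⟨hg1, hg2⟩ := Subgroup.mem_inf.mp hg
    rw [MulAction.mem_stabilizer_iff] at hg1 hg2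
    refine Subgroup.mem_inf.mpr ⟨?_, ?_⟩
    · rw [MulAction.mem_stabilizer_iff, side_smul, hg1]
      have h3 : g • e₂ ∈ b • D := by
        rw [← hg2]
        exact Set.smul_mem_smul_set h2
      have h4 : g • e₂ ∈ Side (a • D) e₂ := joined_of_disjoint hc2 hd h2 h3
      exact (side_eq h4).symm
    · rw [MulAction.mem_stabilizer_iff, Set.smul_set_compl, side_smul, hg2]
      have h3 : g • e₁ ∈ a • D := by
        rw [← hg1]
        exact Set.smul_mem_smul_set h1
      have h4 : g • e₁ ∈ Side (b • D) e₁ := joined_of_disjoint hc1 hd.symm h1 h3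
      rw [(side_eq h4).symm]
  · have hfin := hD.finite_meet (isCompact_closedBall e₂ (dist e₂ e₁))
    apply relIndex_of_finite_image (fun g : G => (g • a • D, g • b • D))
    · apply (hfin.prod hfin).subset
      rintro _ ⟨g, hg, rfl⟩
      obtain ⟨hg1, hg2⟩ := Subgroup.mem_inf.mp hg
      rw [MulAction.mem_stabilizer_iff] at hg1 hg2
      rw [Set.smul_set_compl, compl_inj_iff] at hg2
      rw [side_smul] at hg1 hg2
      refine ⟨⟨⟨g * a, smul_smul _ _ _⟩, ?_⟩, ⟨⟨g * b, smul_smul _ _ _⟩, ?_⟩⟩
      · have h5 : e₂ ∈ Side (g • a • D) (g • e₂) := by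
          rw [hg1]
          exact mem_side_self e2n
        have h6 : e₁ ∉ Side (g • a • D) (g • e₂) := by
          rw [hg1]
          exact fun h => side_subset h h1
        obtain ⟨t, ht, hmem⟩ := side_meets h5 h6
        refine ⟨pt e₂ e₁ t, hmem, ?_⟩
        rw [mem_closedBall, dist_comm, dist_left_pt e₂ e₁ ht]
        exact mul_le_of_le_one_left dist_nonneg ht.2
      · have h5 : e₁ ∈ Side (g • b • D) (g • e₁) := by
          rw [hg2]
          exact mem_side_self e1n
        have h6 : e₂ ∉ Side (g • b • D) (g • e₁) := by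
          rw [hg2]
          exact fun h => side_subset h h2
        obtain ⟨t, ht, hmem⟩ := side_meets h5 h6
        refine ⟨pt e₁ e₂ t, hmem, ?_⟩
        rw [mem_closedBall, dist_pt_right e₁ e₂ ht, dist_comm e₁ e₂]
        exact mul_le_of_le_one_left dist_nonneg (by linarith [ht.1])
    · intro d _ d' _ he
      have he1 : d • a • D = d' • a • D := congrArg Prod.fst he
      have he2 : d • b • D = d' • b • D := congrArg Prod.snd he
      refine Subgroup.mem_inf.mpr ⟨?_, ?_⟩
      · rw [MulAction.mem_stabilizer_iff, mul_smul, ← he1, inv_smul_smul]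
      · rw [MulAction.mem_stabilizer_iff, mul_smul, ← he2, inv_smul_smul]

end Pool.Agent.H29.RR
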