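import Pool.Agent.H29.RR.Geo2

/-!
# Finitely many types of sides

See the header of `Pool.Agent.H29.RR.Geo2` (paragraph `PWall.finite_types`) for the proof.
-/

open Set Filter Topology Metric
open Pool.Agent.H29 Pool.Agent.H74.CC
open scoped Pointwise

set_option linter.unusedSectionVars false

namespace Pool.Agent.H29.RR

lemma infDist_smul_smul {G : Type*} {X : Type*} [Group G] [MetricSpace X] [MulAction G X]
    [IsIsometricSMul G X] (k : G) (z : X) (D : Set X) :
    infDist (k • z) (k • D) = infDist z D := by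
  unfold infDist
  rw [infEDist_smul]

/-- from a point outside a convex set one can go to distance one from it -/
lemma exists_infDist_one {X : Type*} [MetricSpace X] [IsCAT0 X] [ProperSpace X]
    (hgc : GeodesicallyComplete X) {D : Set X} (hcl : IsClosed D) (hne : D.Nonempty)
    (hconv : GConvex D) {u : X} (hu : u ∉ D) :
    ∃ u' : X, infDist u' D = 1 ∧ JoinedIn Dᶜ u u' := by
  set y := proj D u with hy
  have hyD : y ∈ D := proj_mem hcl hne u
  have hyu : y ≠ u := fun h => hu (h ▸ hyD)
  obtain ⟨c, hc, hc0, hcd⟩ := hgc.line hyu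
  set δ := dist y u with hδ
  have hδpos : 0 < δ := dist_pos.mpr hyu
  have hφ := (gconvexFun_infDist hcl hne hconv).comp_line hc
  have hφ0 : infDist (c 0) D = 0 := by rw [hc0]; exact infDist_zero_of_mem hyD
  have hφδ : infDist (c δ) D = δ := by rw [hcd, ← dist_proj hcl hne, ← hy, dist_comm]
  have hle : ∀ t, 0 ≤ t → infDist (c t) D ≤ t := by
    intro t ht
    calc infDist (c t) D ≤ dist (c t) y := infDist_le_dist_of_mem hyD
      _ = t := by rw [← hc0, hc.dist_eq, Real.dist_eq, sub_zero, abs_of_nonneg ht]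
  have hge : ∀ t, 0 ≤ t → t ≤ infDist (c t) D := by
    intro t ht
    rcases le_or_gt δ t with h | h
    · have htpos : 0 < t := lt_of_lt_of_le hδpos h
      have hl : δ / t ∈ Icc (0 : ℝ) 1 := ⟨by positivity, (div_le_one htpos).mpr h⟩
      have h1 := hφ 0 t (δ / t) hl
      simp only [mul_zero, zero_add, hφ0] at h1
      rw [div_mul_cancel₀ _ htpos.ne', hφδ, div_mul_eq_mul_div, le_div_iff₀ htpos] at h1
      exact le_of_mul_le_mul_left (by linarith) hδpos
    · have h1 := infDist_le_infDist_add_dist (s := D) (x := c δ) (y := c t)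
      rw [hφδ, hc.dist_eq, Real.dist_eq, abs_of_pos (by linarith)] at h1
      linarith
  have heq : ∀ t, 0 ≤ t → infDist (c t) D = t := fun t ht => le_antisymm (hle t ht) (hge t ht)
  refine ⟨c 1, heq 1 zero_le_one, ?_⟩
  apply joinedIn_of_pt
  intro l hl
  rw [← hcd, ← line_pt hc δ 1 hl]
  intro hcon
  have hp : 0 < (1 - l) * δ + l * 1 := by
    have h1 := hl.1
    have h2 := hl.2
    rcases eq_or_lt_of_le hl.1 with h | h
    · rw [← h]; simpa using hδpos
    · nlinarith
  have h1 := hge _ hp.le
  rw [infDist_zero_of_mem hcon] at h1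
  linarith

variable {G : Type*} {X : Type*} [Group G] [MetricSpace X] [IsCAT0 X] [ProperSpace X]
  [MulAction G X] [IsIsometricSMul G X] [ProperlyDiscontinuousSMul G X] {D : Set X}

lemma PWall.finite_types (hgc : GeodesicallyComplete X) (hD : PWall G D) :
    ∃ C : Finset X, (∀ c ∈ C, c ∉ D) ∧ ∀ u : X, u ∉ D → ∃ k : G, k • D = D ∧ ∃ c ∈ C,
      k • Side D u = Side D c := by
  obtain ⟨B, hB, hBc⟩ := hD.coc
  set E : Set X := cthickening 1 B ∩ {z | infDist z D = 1} with hE
  have hEc : IsCompact E := by
    apply (hB.cthickening).inter_right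
    exact isClosed_eq (continuous_infDist_pt D) continuous_const
  obtain ⟨C, hCE, hCf, hcov⟩ := hEc.finite_cover_balls (e := 1 / 2) (by norm_num)
  refine ⟨hCf.toFinset, ?_, ?_⟩
  · intro c hc hcD
    have h1 : infDist c D = 1 := (hCE (hCf.mem_toFinset.mp hc)).2
    rw [infDist_zero_of_mem hcD] at h1
    norm_num at h1
  · intro u hu
    obtain ⟨u', h1, hj⟩ := exists_infDist_one hgc hD.closed hD.ne hD.conv hu
    obtain ⟨k, hk, hkB⟩ := hBc (proj D u') (proj_mem hD.closed hD.ne u')
    have hkE : k • u' ∈ E := by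
      refine ⟨?_, ?_⟩
      · apply mem_cthickening_of_dist_le (k • u') (k • proj D u') 1 B hkB
        rw [dist_smul, dist_proj hD.closed hD.ne, h1]
      · show infDist (k • u') D = 1
        calc infDist (k • u') D = infDist (k • u') (k • D) := by rw [hk]
          _ = infDist u' D := infDist_smul_smul k u' D
          _ = 1 := h1
    obtain ⟨c, hcC, hcb⟩ := mem_iUnion₂.mp (hcov hkE)
    refine ⟨k, hk, c, hCf.mem_toFinset.mpr hcC, ?_⟩
    rw [side_smul, hk]
    have hjk : JoinedIn Dᶜ (k • u) (k • u') := by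
      have h2 : k • u' ∈ k • Side D u := smul_mem_smul_set hj
      rw [side_smul, hk] at h2
      exact h2
    have hjc : JoinedIn Dᶜ (k • u') c := by
      apply joinedIn_of_pt
      intro l hl hcon
      have h2 := infDist_le_dist_of_mem (x := k • u') hcon
      have h3 : infDist (k • u') D = 1 := hkE.2
      rw [dist_left_pt _ _ hl, h3] at h2
      have h4 : l * dist (k • u') c ≤ 1 * dist (k • u') c :=
        mul_le_mul_of_nonneg_right hl.2 dist_nonneg
      have h5 : dist (k • u') c < 1 / 2 := hcb
      linarith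
    exact side_eq (hjk.trans hjc)

end Pool.Agent.H29.RR
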