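import Pool.Agent.H29.RR.Geo2

/-!
# Chains of walls

`PWidth G D`: every set of pairwise intersecting translates of `D` is finite.

**exists_deep_point** (see the proof of `exists_wall_beyond` in `Pool.Agent.H29.Displacement`): for `x ∉ D` and
`R` there is `z` joined to `x` in `Dᶜ` with `R ≤ infDist z D`.

**exists_inside**.  Every side of `D` contains a translate of `D`.  Proof: fix `x₀`, `R` with
`∀ y, ∃ g, dist y (g • x₀) ≤ R` (`Cocompact.orbit`).  For `n : ℕ` take `z ∈ Side D u` with `infDist z D ≥ n + R + 1` and `g`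
with `dist z (g • x₀) ≤ R`.  Then the segment from `z` to `g • x₀` avoids `D`, so `g • x₀ ∈ Side D u` and
`infDist (g • x₀) D ≥ n + 1`, i.e. `infDist x₀ (g⁻¹ • D) ≥ n + 1`.  So the set
`T = {S | ∃ g, S = g⁻¹ • D ∧ g • x₀ ∈ Side D u}` is infinite (a finite set of nonempty sets `S` has a bound for
`infDist x₀ S`).  By `PWidth` two members `W₁ = g⁻¹ • D`, `W₂ = g'⁻¹ • D` are disjoint.  Take `a ∈ W₁`, `b ∈ W₂`.
`comp2` with `x = x₀`: either `JoinedIn W₁ᶜ x₀ b`; then `b ∈ Side W₁ x₀ = g⁻¹ • Side D (g • x₀) = g⁻¹ • Side D u`, and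
`W₂ ⊆ Side W₁ x₀` (`joined_of_disjoint`), so `(g * g'⁻¹) • D = g • W₂ ⊆ Side D u`; or symmetrically.

**exists_next**.  Let `W = a • D` and `e ∉ W`.  There is `b` with `b • D ⊆ Side W u` for some `u ∉ W` not joined to
`e` in `Wᶜ`. (By `hsep` there are two points not joined in `Wᶜ = a • Dᶜ`; one of them is not joined to `e`; apply
`exists_inside` to `Side D (a⁻¹ • u)`.)

**exists_chain**: with a base point `e₀ ∈ D` there is `x : ℕ → G` such that for all `n`, `x n • D` and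
`x (n + 1) • D` are disjoint and `x n • e₀`, `x (n + 2) • e₀` are not joined in `(x (n + 1) • D)ᶜ`.  Proof: `x 0 = 1`,
`x 1` from `exists_inside` for some side of `D`, `x (n + 2)` from `exists_next` for
`W = x (n + 1) • D`, `e = x n • e₀`.  (Recursion on pairs.)

**chain_props**: for `i < n`: (1) `x i • D`, `x n • D` are disjoint; (2) `x (i + 1) • e₀` and `x n • e₀` are joined in
`(x i • D)ᶜ`; (3) `x (n - 1) • e₀` and `x i • e₀` are joined in `(x n • D)ᶜ`; (4) `x i • e₀` and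
`x (n + 1) • e₀` are not joined in `(x n • D)ᶜ`.  Proof: induction on `n`, writing `W n = x n • D`,
`b n = x n • e₀ ∈ W n`. Start `n = i + 1`: clear.  Step: `W i` lies in
`Side (W n) (b i)`, `W (n + 1)` lies in `Side (W n) (b (n + 1))`, different sides by (4), so they are disjoint.
`comp2` for `W i`, `W n` at `b (n + 1)`: `JoinedIn (W i)ᶜ (b (n + 1)) (b n)` (the other case contradicts (4)), so (2).
`comp2` for `W (n + 1)`, `W n` at `b i`: `JoinedIn (W (n + 1))ᶜ (b i) (b n)` (the other case contradicts (4)): this is (3).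
(4): `b i` is joined to `b n` in `(W (n + 1))ᶜ` and `b n` is not joined to `b (n + 2)`.
-/

open Set Filter Topology Metric
open Pool.Agent.H29 Pool.Agent.H74.CC
open scoped Pointwise

set_option linter.unusedSectionVars false

namespace Pool.Agent.H29.RR

variable {G : Type*} {X : Type*} [Group G] [MetricSpace X] [IsCAT0 X] [ProperSpace X]
  [MulAction G X] [IsIsometricSMul G X] [ProperlyDiscontinuousSMul G X] {D : Set X}

variable (G) in
/-- sets of pairwise intersecting translates are finite -/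
def PWidth (D : Set X) : Prop :=
  ∀ T : Set (Set X), (∀ S ∈ T, ∃ g : G, S = g • D) → (∀ S ∈ T, ∀ S' ∈ T, (S ∩ S').Nonempty) →
    T.Finite

lemma exists_deep_point (hgc : GeodesicallyComplete X) (hcl : IsClosed D)
    (hne : D.Nonempty) (hconv : GConvex D) {x : X} (hx : x ∉ D) (R : ℝ) :
    ∃ z, JoinedIn Dᶜ x z ∧ R ≤ infDist z D := by
  set y := proj D x with hy
  have hyD : y ∈ D := proj_mem hcl hne x
  have hxy : y ≠ x := fun h => hx (h ▸ hyD)
  obtain ⟨c, hc, hc0, hcd⟩ := hgc.line hxy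
  set δ := dist y x with hδ
  have hδpos : 0 < δ := dist_pos.mpr hxy
  have hφ := (gconvexFun_infDist hcl hne hconv).comp_line hc
  have hφ0 : infDist (c 0) D = 0 := by rw [hc0]; exact infDist_zero_of_mem hyD
  have hφδ : infDist (c δ) D = δ := by rw [hcd, ← dist_proj hcl hne, ← hy, dist_comm]
  have hge : ∀ t, δ ≤ t → t ≤ infDist (c t) D := by
    intro t ht
    have htpos : 0 < t := lt_of_lt_of_le hδpos ht
    have hl : δ / t ∈ Icc (0 : ℝ) 1 := ⟨by positivity, (div_le_one htpos).mpr ht⟩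
    have h1 := hφ 0 t (δ / t) hl
    simp only [mul_zero, zero_add, hφ0] at h1
    rw [div_mul_cancel₀ _ htpos.ne', hφδ, div_mul_eq_mul_div, le_div_iff₀ htpos] at h1
    exact le_of_mul_le_mul_left (by linarith) hδpos
  set t := max δ R with ht
  have htδ : δ ≤ t := le_max_left _ _
  have htR : R ≤ t := le_max_right δ R
  refine ⟨c t, ?_, htR.trans (hge t htδ)⟩
  apply joinedIn_of_pt
  intro l hl
  rw [← hcd, ← line_pt hc δ t hl]
  intro hcon
  have h1 := hge ((1 - l) * δ + l * t) (by nlinarith [hl.1, hl.2])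
  rw [infDist_zero_of_mem hcon] at h1
  have : 0 < (1 - l) * δ + l * t := by
    have := hl.1; have := hl.2
    nlinarith
  linarith

/-- transport of a wall into a side -/
lemma subset_side_of_joined (hconv : GConvex D) {u x₀ : X} {g g' : G}
    (hg : g • x₀ ∈ Side D u) (hd : Disjoint (g⁻¹ • D) (g'⁻¹ • D)) {b : X}
    (hb : b ∈ g'⁻¹ • D) (hj : JoinedIn (g⁻¹ • D)ᶜ x₀ b) : (g * g'⁻¹) • D ⊆ Side D u := by
  intro z hz
  rw [mul_smul] at hz
  obtain ⟨w, hw, rfl⟩ := hz
  have h1 : JoinedIn (g⁻¹ • D)ᶜ b w :=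
    joined_of_disjoint (gconvex_smul_set hconv g'⁻¹) hd hb hw
  have h2 : w ∈ Side (g⁻¹ • D) x₀ := hj.trans h1
  have h3 : g • w ∈ g • Side (g⁻¹ • D) x₀ := smul_mem_smul_set h2
  rw [side_smul, smul_inv_smul] at h3
  rw [side_eq hg]
  exact h3

lemma exists_inside [Nonempty X] (hgc : GeodesicallyComplete X) (hcoc : Cocompact G X)
    (hD : PWall G D) (hw : PWidth G D) {u : X} (hu : u ∉ D) : ∃ g : G, g • D ⊆ Side D u := by
  obtain ⟨x₀⟩ := ‹Nonempty X›
  obtain ⟨R, hR⟩ := hcoc.orbit x₀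
  have hdeep : ∀ n : ℕ, ∃ g : G, g • x₀ ∈ Side D u ∧ (n : ℝ) + 1 ≤ infDist (g • x₀) D := by
    intro n
    obtain ⟨z, hz1, hz2⟩ := exists_deep_point hgc hD.closed hD.ne hD.conv hu ((n : ℝ) + R + 1)
    obtain ⟨g, hg⟩ := hR z
    have hn : (0 : ℝ) ≤ n := Nat.cast_nonneg n
    refine ⟨g, ?_, ?_⟩
    · have j2 : JoinedIn Dᶜ z (g • x₀) := by
        apply joinedIn_of_pt
        intro l hl hcon
        have h2 := infDist_le_dist_of_mem (x := z) hcon
        rw [dist_left_pt _ _ hl] at h2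
        have h3 : l * dist z (g • x₀) ≤ 1 * dist z (g • x₀) :=
          mul_le_mul_of_nonneg_right hl.2 dist_nonneg
        linarith
      exact hz1.trans j2
    · have h1 : infDist z D ≤ infDist (g • x₀) D + dist z (g • x₀) :=
        infDist_le_infDist_add_dist
      linarith
  have hinf : {S : Set X | ∃ g : G, S = g⁻¹ • D ∧ g • x₀ ∈ Side D u}.Infinite := by
    intro hfin
    obtain ⟨M, hM⟩ := (hfin.image (fun S => infDist x₀ S)).bddAbove
    obtain ⟨n, hn⟩ := exists_nat_ge M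
    obtain ⟨g, hg1, hg2⟩ := hdeep n
    have h1 : infDist x₀ (g⁻¹ • D) ≤ M := hM ⟨_, ⟨g, rfl, hg1⟩, rfl⟩
    have h2 : infDist (g • x₀) (g • g⁻¹ • D) = infDist x₀ (g⁻¹ • D) :=
      Metric.infDist_image (isometry_smul X g) (x := x₀) (t := g⁻¹ • D)
    rw [smul_inv_smul] at h2
    linarith
  have hex : ∃ g g' : G, g • x₀ ∈ Side D u ∧ g' • x₀ ∈ Side D u ∧
      Disjoint (g⁻¹ • D) (g'⁻¹ • D) := by
    by_contra hcon
    apply hinf
    apply hw
    · rintro S ⟨g, hg, _⟩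
      exact ⟨g⁻¹, hg⟩
    · rintro S ⟨g, rfl, hg⟩ S' ⟨g', rfl, hg'⟩
      by_contra hne
      rw [not_nonempty_iff_eq_empty, ← disjoint_iff_inter_eq_empty] at hne
      exact hcon ⟨g, g', hg, hg', hne⟩
  obtain ⟨g, g', hg, hg', hd⟩ := hex
  obtain ⟨a, ha⟩ : (g⁻¹ • D).Nonempty := hD.ne.smul_set
  obtain ⟨b, hb⟩ : (g'⁻¹ • D).Nonempty := hD.ne.smul_set
  rcases comp2 (gconvex_smul_set hD.conv g⁻¹) (gconvex_smul_set hD.conv g'⁻¹) hd x₀ ha hb
    with h | h
  · exact ⟨g * g'⁻¹, subset_side_of_joined hD.conv hg hd hb h⟩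
  · exact ⟨g' * g⁻¹, subset_side_of_joined hD.conv hg' hd.symm ha h⟩

lemma exists_next [Nonempty X] (hgc : GeodesicallyComplete X) (hcoc : Cocompact G X)
    (hD : PWall G D) (hw : PWidth G D) (hsep : ∃ y z : X, y ∉ D ∧ z ∉ D ∧ ¬ JoinedIn Dᶜ y z)
    (a : G) {e : X} (he : e ∉ a • D) :
    ∃ b : G, Disjoint (a • D) (b • D) ∧ ∀ z ∈ b • D, ¬ JoinedIn (a • D)ᶜ e z := by
  obtain ⟨y, z, hy, hz, hyz⟩ := hsep
  have hex : ∃ u : X, u ∉ D ∧ ¬ JoinedIn Dᶜ (a⁻¹ • e) u := by
    by_cases h : JoinedIn Dᶜ (a⁻¹ • e) y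
    · exact ⟨z, hz, fun h' => hyz (h.symm.trans h')⟩
    · exact ⟨y, hy, h⟩
  obtain ⟨u, hu, hue⟩ := hex
  obtain ⟨g, hg⟩ := exists_inside hgc hcoc hD hw hu
  refine ⟨a * g, ?_, ?_⟩
  · rw [mul_smul, Set.disjoint_left]
    rintro _ ⟨p, hp, rfl⟩ ⟨q, hq, hqp⟩
    have hqp' : q = p := MulAction.injective a hqp
    exact side_subset (hg hq) (hqp' ▸ hp)
  · intro q hq hj
    rw [mul_smul] at hq
    obtain ⟨w, hw', rfl⟩ := hq
    have h1 : a • w ∈ Side (a • D) (a • a⁻¹ • e) := by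
      rw [smul_inv_smul]
      exact hj
    rw [← side_smul, smul_mem_smul_set_iff] at h1
    have h2 : JoinedIn Dᶜ u w := hg hw'
    exact hue (JoinedIn.trans h1 h2.symm)

end Pool.Agent.H29.RR
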