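import Pool.Agent.H29.RR.Geo3

/-!
# Chains of walls, continued

See the header of `Pool.Agent.H29.RR.Geo3` (paragraphs `exists_chain` and `chain_props`) for the proofs.
-/

open Set Filter Topology Metric
open Pool.Agent.H29 Pool.Agent.H74.CC
open scoped Pointwise

set_option linter.unusedSectionVars false

namespace Pool.Agent.H29.RR

variable {G : Type*} {X : Type*} [Group G] [MetricSpace X] [IsCAT0 X] [ProperSpace X]
  [MulAction G X] [IsIsometricSMul G X] [ProperlyDiscontinuousSMul G X] {D : Set X}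

/-- chains of walls -/
structure IsChainW (D : Set X) (e₀ : X) (x : ℕ → G) : Prop where
  mem : e₀ ∈ D
  disj : ∀ n, Disjoint (x n • D) (x (n + 1) • D)
  sep : ∀ n, ¬ JoinedIn (x (n + 1) • D)ᶜ (x n • e₀) (x (n + 2) • e₀)

lemma exists_chain [Nonempty X] (hgc : GeodesicallyComplete X) (hcoc : Cocompact G X)
    (hD : PWall G D) (hw : PWidth G D) (hsep : ∃ y z : X, y ∉ D ∧ z ∉ D ∧ ¬ JoinedIn Dᶜ y z) :
    ∃ (e₀ : X) (x : ℕ → G), IsChainW D e₀ x := by
  classical
  obtain ⟨e₀, he₀⟩ := hD.ne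
  obtain ⟨u, _, hu, _, _⟩ := id hsep
  obtain ⟨g, hg⟩ := exists_inside hgc hcoc hD hw hu
  have hmem : ∀ a : G, a • e₀ ∈ a • D := fun a => smul_mem_smul_set he₀
  have hstart : Disjoint ((1 : G) • D) (g • D) := by
    rw [one_smul]
    exact Set.disjoint_left.2 fun z hz hz' => side_subset (hg hz') hz
  have hnext : ∀ p : {p : G × G // Disjoint (p.1 • D) (p.2 • D)},
      ∃ c : G, Disjoint (p.1.2 • D) (c • D) ∧
        ∀ z ∈ c • D, ¬ JoinedIn (p.1.2 • D)ᶜ (p.1.1 • e₀) z := by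
    intro p
    exact exists_next hgc hcoc hD hw hsep p.1.2
      (Set.disjoint_left.1 p.2 (hmem p.1.1))
  choose c hc1 hc2 using hnext
  let st : ℕ → {p : G × G // Disjoint (p.1 • D) (p.2 • D)} := fun n =>
    Nat.rec ⟨(1, g), hstart⟩ (fun _ p => ⟨(p.1.2, c p), hc1 p⟩) n
  have hst : ∀ n, st (n + 1) = ⟨((st n).1.2, c (st n)), hc1 (st n)⟩ := fun n => rfl
  have h1 : ∀ n, (st (n + 1)).1.1 = (st n).1.2 := fun n => by rw [hst]
  have h2 : ∀ n, (st (n + 1)).1.2 = c (st n) := fun n => by rw [hst]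
  refine ⟨e₀, fun n => (st n).1.1, he₀, fun n => ?_, fun n => ?_⟩
  · show Disjoint ((st n).1.1 • D) ((st (n + 1)).1.1 • D)
    rw [h1]
    exact (st n).2
  · show ¬ JoinedIn ((st (n + 1)).1.1 • D)ᶜ ((st n).1.1 • e₀) ((st (n + 2)).1.1 • e₀)
    rw [h1 (n + 1), h2, h1]
    exact hc2 (st n) _ (hmem _)

lemma chain_props (hconv : GConvex D) {e₀ : X} {x : ℕ → G} (hx : IsChainW D e₀ x) (i : ℕ) :
    ∀ n, i < n → Disjoint (x i • D) (x n • D) ∧ JoinedIn (x i • D)ᶜ (x (i + 1) • e₀) (x n • e₀) ∧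
      JoinedIn (x n • D)ᶜ (x (n - 1) • e₀) (x i • e₀) ∧
      ¬ JoinedIn (x n • D)ᶜ (x i • e₀) (x (n + 1) • e₀) := by
  have hm : ∀ n, x n • e₀ ∈ x n • D := fun n => smul_mem_smul_set hx.mem
  have hc : ∀ n, GConvex (x n • D) := fun n => gconvex_smul_set hconv (x n)
  intro n hn
  induction n, hn using Nat.le_induction with
  | base =>
    refine ⟨hx.disj i, ?_, ?_, hx.sep i⟩
    · exact JoinedIn.refl (Set.disjoint_right.1 (hx.disj i) (hm (i + 1)))
    · show JoinedIn (x (i + 1) • D)ᶜ (x (i + 1 - 1) • e₀) (x i • e₀)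
      rw [Nat.add_sub_cancel]
      exact JoinedIn.refl (Set.disjoint_left.1 (hx.disj i) (hm i))
  | succ n hn ih =>
    obtain ⟨i1, i2, i3, i4⟩ := ih
    have j1 : Disjoint (x i • D) (x (n + 1) • D) := by
      rw [Set.disjoint_left]
      intro z hz hz'
      exact i4 ((joined_of_disjoint (hc i) i1.symm (hm i) hz).trans
        (joined_of_disjoint (hc (n + 1)) (hx.disj n) hz' (hm (n + 1))))
    have j2 : JoinedIn (x i • D)ᶜ (x (n + 1) • e₀) (x n • e₀) := by
      rcases comp2 (hc i) (hc n) i1 (x (n + 1) • e₀) (hm i) (hm n) with h | h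
      · exact h
      · exact absurd h.symm i4
    have j3 : JoinedIn (x (n + 1) • D)ᶜ (x i • e₀) (x n • e₀) := by
      rcases comp2 (hc (n + 1)) (hc n) (hx.disj n).symm (x i • e₀) (hm (n + 1)) (hm n) with h | h
      · exact h
      · exact absurd h i4
    refine ⟨j1, i2.trans j2.symm, ?_, ?_⟩
    · rw [Nat.add_sub_cancel]
      exact j3.symm
    · intro h
      exact hx.sep n (j3.symm.trans h)

end Pool.Agent.H29.RR
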