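import Pool.Agent.H29.RR.Unflip

/-!
# Rank rigidity for convex cocompact intervals of finite width

Case 1: both flips exist: `rankOne_of_iflips`.  Case 2: no `r` with `h₂ ∪ r • h₂ = univ`:
`finite_of_unflip` and `rankOne_of_iwall_translation`.  Case 3: no `r` with `r • h₁` disjoint from `h₁`:
`finite_of_unflip` for the interval `h₁ᶜ ⊆ h₂ᶜ` and `p⁻¹` (`p⁻¹ • h₂ᶜ ⊆ h₁ᶜ`; if `p⁻¹ • h₂ᶜ = h₂ᶜ` then
`p • h₂ = h₂`, so `p • h₁ ⊆ h₂ = p • h₂ ⊆ p • h₁` and `h₁ = h₂`, `p • h₁ = h₁`, a contradiction), whose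
stabiliser is the same (`stabilizer_compl'` below), `FinSep` and `Width` pass to complements.
-/

open Set Filter Topology Metric
open Pool.Agent.H29 Pool.Agent.H74.CC
open scoped Pointwise

set_option linter.unusedSectionVars false

namespace Pool.Agent.H29.RR

universe u

section Alg

variable {G V : Type*} [Group G] [MulAction G V] {h h₁ h₂ : Set V}

lemma FinSep.compl (s : FinSep h G) : FinSep hᶜ G := by
  intro v w
  apply ((s w v).image (fun S => Sᶜ)).subset
  rintro S ⟨⟨g, rfl⟩, hv, hw⟩
  rw [Set.smul_set_compl] at hv hw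
  refine ⟨g • h, ⟨⟨g, rfl⟩, ?_, hv⟩, (Set.smul_set_compl).symm⟩
  exact not_not.mp hw

lemma Width.compl (w : Width G h) : Width G hᶜ := by
  intro T hT hpw
  have h1 : ((fun S : Set V => Sᶜ) '' T).Finite := by
    apply w
    · rintro _ ⟨S, hS, rfl⟩
      obtain ⟨g, rfl⟩ := hT S hS
      refine ⟨g, ?_⟩
      show (g • hᶜ)ᶜ = g • h
      rw [Set.smul_set_compl, compl_compl]
    · rintro _ ⟨S, hS, rfl⟩ _ ⟨S', hS', rfl⟩ hne
      show Crossing Sᶜ S'ᶜ
      rw [crossing_compl_left, crossing_compl_right]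
      exact hpw hS hS' (fun he => hne (by rw [he]))
  exact h1.of_finite_image compl_injective.injOn

lemma KI_compl : KI G h₂ᶜ h₁ᶜ = KI G h₁ h₂ := by
  ext g
  rw [Subgroup.mem_inf, Subgroup.mem_inf, MulAction.mem_stabilizer_iff,
    MulAction.mem_stabilizer_iff, MulAction.mem_stabilizer_iff, MulAction.mem_stabilizer_iff,
    Set.smul_set_compl, Set.smul_set_compl, compl_inj_iff, compl_inj_iff]
  exact and_comm

end Alg

variable {G : Type*} {X : Type u} {V : Type*} [Group G] [MetricSpace X] [IsCAT0 X] [ProperSpace X]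
  [MulAction G X] [IsIsometricSMul G X] [ProperlyDiscontinuousSMul G X] [MulAction G V]
  {h₁ h₂ : Set V}

theorem rankOne_of_walls [Nonempty X] (hgc : GeodesicallyComplete X) (hcoc : Cocompact G X)
    (hirr : MetricIrreducible X) (hle : h₂ ⊆ h₁) (s1 : FinSep h₁ G) (s2 : FinSep h₂ G)
    (w1 : Width G h₁) (w2 : Width G h₂) (hK : CCo X (KI G h₁ h₂)) {p : G}
    (hp : p • h₁ ⊆ h₂) (hne : p • h₁ ≠ h₁) : ∃ g : G, IsRankOne (X := X) g := by
  by_cases hr1 : ∃ r : G, h₂ ∪ r • h₂ = univ
  · by_cases hr2 : ∃ r : G, Disjoint (r • h₁) h₁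
    · obtain ⟨r₁, hr₁⟩ := hr1
      obtain ⟨r₂, hr₂⟩ := hr2
      exact rankOne_of_iflips hgc hcoc hirr hle s1 s2 w1 w2 hK hp hne hr₁ hr₂
    · push Not at hr2
      have hfin : ((KI G h₂ᶜ h₁ᶜ : Subgroup G) : Set G).Finite := by
        apply finite_of_unflip hgc hcoc hirr (compl_subset_compl.mpr hle) s2.compl s1.compl
          w2.compl w1.compl (by rwa [KI_compl]) (p := p⁻¹)
        · rw [Set.smul_set_compl, compl_subset_compl]
          have := smul_set_mono (a := p⁻¹) hp
          rwa [inv_smul_smul] at this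
        · intro he
          rw [Set.smul_set_compl, compl_inj_iff] at he
          have h2 : p • h₂ = h₂ := by
            have := congrArg (fun S => p • S) he
            simp only [smul_inv_smul] at this
            exact this.symm
          have h3 : p • h₂ ⊆ p • h₁ := smul_set_mono hle
          have h4 : p • h₁ = p • h₂ := Subset.antisymm (by rw [h2]; exact hp) h3
          have h5 : h₁ = h₂ := MulAction.injective p h4
          apply hne
          rw [h4, h2, h5]
        · intro g
          obtain ⟨x, hx1, hx2⟩ := Set.not_disjoint_iff.mp (hr2 g)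
          refine ⟨x, ?_, ?_⟩
          · rw [Set.smul_set_compl, compl_compl]
            exact hx1
          · rw [compl_compl]
            exact hx2
      rw [KI_compl] at hfin
      exact ⟨_, rankOne_of_iwall_translation hcoc hle s1 s2 hp hne
        (hfin.subset (fun _ hk => hk.1))⟩
  · push Not at hr1
    have hfin : ((KI G h₁ h₂ : Subgroup G) : Set G).Finite := by
      apply finite_of_unflip hgc hcoc hirr hle s1 s2 w1 w2 hK hp hne
      intro g
      have h1 := hr1 g
      rw [Ne, ← Ne, Set.ne_univ_iff_exists_notMem] at h1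
      obtain ⟨x, hx⟩ := h1
      rw [mem_union, not_or] at hx
      exact ⟨x, hx.2, hx.1⟩
    exact ⟨_, rankOne_of_iwall_translation hcoc hle s1 s2 hp hne
      (hfin.subset (fun _ hk => hk.1))⟩

end Pool.Agent.H29.RR
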