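import Pool.Agent.H29.RR.Geo2B
import Pool.Agent.H29.RR.Geo3B
import Pool.Agent.H29.RR.WallMain

/-!
# Rank rigidity from a separating periodic convex set of finite width

Take a chain (`exists_chain`), `W n = x n • D`, `b n = x n • e₀ ∈ W n`, `U n = Side (W n) (b (n + 1))`.
`(x n)⁻¹ • U n = Side D ((x n)⁻¹ • b (n + 1))` is a side of `D`; by `PWall.finite_types` there are `k n` with
`k n • D = D` and `c n` in a finite set with `k n • (x n)⁻¹ • U n = Side D (c n)`.  By the pigeonhole
principle there are `i`, `j` with `i + 2 ≤ j` and `c i = c j` (e.g. `n ↦ c (2 * n)` is not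
injective: `Finite.exists_ne_map_eq_of_infinite`).  Let `p = x j * (k j)⁻¹ * k i * (x i)⁻¹`: `p • U i = U j`.
`h₁ = U i`, `h₂ = (Side (W (i + 1)) (b i))ᶜ`.
* `h₂ ⊆ h₁`: `z ∉ Side (W (i + 1)) (b i)`; `comp2` for `W i`, `W (i + 1)` at `z`.
* `U j ⊆ h₂`: let `z ∈ U j` and suppose `z ∈ Side (W m) (b i)`, `m = i + 1 < j`.  `comp2` for `W m`, `W j` at `z`:
  either `JoinedIn (W m)ᶜ z (b j)`, so `b i` is joined to `b j` and to `b (m + 1)` (chain_props (2) for `m < j`) in
  `(W m)ᶜ`, a contradiction to `sep`; or `JoinedIn (W j)ᶜ z (b m)`, so `b m` is joined to `b (j + 1)` in `(W j)ᶜ`,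
  a contradiction to (4) for `m < j`.
* `U j ≠ U i`: `b j ∈ U i` by (2) for `i < j` and `b j ∈ W j` is not in `U j`.
* `FinSep h₁ G`, `FinSep h₂ G`: `PWall.finSep_side` (for the wall `W n`, which is a `PWall` too, or write the
  side as a translate of a side of `D`), `FinSep.compl`.
* `Width G h₁`: a set `T` of pairwise crossing translates `g • U i = Side ((g * x i) • D) _`; two crossing sides
  belong to different walls (`not_crossing_side_same`) which intersect (`not_crossing_side`).  Choose for each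
  `S ∈ T` such a wall; this is injective, and the set of these walls is finite by `PWidth`.  `Width G h₂`:
  same and `Width.compl`.
* `CCo`: `PWall.cco_pair`.
-/

open Set Filter Topology Metric
open Pool.Agent.H29 Pool.Agent.H74.CC
open scoped Pointwise

set_option linter.unusedSectionVars false

namespace Pool.Agent.H29.RR

universe u

variable {G : Type*} {X : Type u} [Group G] [MetricSpace X] [IsCAT0 X] [ProperSpace X]
  [MulAction G X] [IsIsometricSMul G X] [ProperlyDiscontinuousSMul G X] {D : Set X}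

lemma finSep_side_smul (hD : PWall G D) (a : G) (y : X) : FinSep (Side (a • D) y) G := by
  have e : Side (a • D) y = a • Side D (a⁻¹ • y) := by
    rw [side_smul, smul_inv_smul]
  intro v w
  refine (hD.finSep_side (a⁻¹ • y) v w).subset ?_
  rintro S ⟨⟨g, rfl⟩, hv, hw⟩
  refine ⟨⟨g * a, ?_⟩, hv, hw⟩
  rw [e, mul_smul]

lemma width_side (hD : PWall G D) (hw : PWidth G D) (a : G) (y : X) :
    Width G (Side (a • D) y) := by
  intro T hT hcr
  choose! g hg using hT
  have hside : ∀ S ∈ T, S = Side ((g S * a) • D) (g S • y) := by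
    intro S hS
    have h1 := hg S hS
    rw [side_smul] at h1
    rw [mul_smul]
    exact h1
  have hconv : ∀ S, GConvex ((g S * a) • D) := fun S => gconvex_smul_set hD.conv _
  have hne : ∀ S, ((g S * a) • D).Nonempty := fun S => hD.ne.smul_set
  have himg : ((fun S => (g S * a) • D) '' T).Finite := by
    apply hw
    · rintro _ ⟨S, _, rfl⟩
      exact ⟨g S * a, rfl⟩
    · rintro _ ⟨S, hS, rfl⟩ _ ⟨S', hS', rfl⟩
      by_cases heq : S = S'
      · subst heq
        simpa using hne S
      · by_contra hemp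
        rw [Set.not_nonempty_iff_eq_empty] at hemp
        have hd : Disjoint ((g S * a) • D) ((g S' * a) • D) :=
          Set.disjoint_iff_inter_eq_empty.mpr hemp
        have hc := hcr hS hS' heq
        rw [hside S hS, hside S' hS'] at hc
        exact not_crossing_side (hconv S) (hconv S') hd (hne S) (hne S') hc
  refine Set.Finite.of_finite_image himg ?_
  intro S hS S' hS' heq
  by_contra hne'
  have hc := hcr hS hS' hne'
  have heq' : (g S * a) • D = (g S' * a) • D := heq
  rw [hside S hS, hside S' hS', heq'] at hc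
  exact not_crossing_side_same _ _ _ hc

theorem rankOne_of_pwall [Nonempty X] (hgc : GeodesicallyComplete X) (hcoc : Cocompact G X)
    (hirr : MetricIrreducible X) (hD : PWall G D) (hw : PWidth G D)
    (hsep : ∃ y z : X, y ∉ D ∧ z ∉ D ∧ ¬ JoinedIn Dᶜ y z) :
    ∃ g : G, IsRankOne (X := X) g := by
  obtain ⟨e₀, x, hx⟩ := exists_chain hgc hcoc hD hw hsep
  have hb : ∀ n, x n • e₀ ∈ x n • D := fun n => Set.smul_mem_smul_set hx.mem
  have hconv : ∀ n, GConvex (x n • D) := fun n => gconvex_smul_set hD.conv _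
  have hnot : ∀ n, x (n + 1) • e₀ ∉ x n • D := fun n h =>
    Set.disjoint_left.mp (hx.disj n) h (hb (n + 1))
  have hu : ∀ n, (x n)⁻¹ • x (n + 1) • e₀ ∉ D := by
    intro n h
    apply hnot n
    rw [Set.mem_smul_set_iff_inv_smul_mem]
    exact h
  obtain ⟨C, hC, hfin⟩ := PWall.finite_types hgc hD
  choose k hk c hc hkc using fun n => hfin _ (hu n)
  -- pigeonhole
  obtain ⟨m, m', hmm, hcm⟩ : ∃ m m' : ℕ, m < m' ∧ c (2 * m) = c (2 * m') := by
    obtain ⟨m, m', hne, he⟩ := Finite.exists_ne_map_eq_of_infinite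
      (fun n : ℕ => (⟨c (2 * n), hc (2 * n)⟩ : C))
    have he' : c (2 * m) = c (2 * m') := congrArg Subtype.val he
    rcases lt_or_gt_of_ne hne with h | h
    · exact ⟨m, m', h, he'⟩
    · exact ⟨m', m, h, he'.symm⟩
  obtain ⟨i, j, hij, hcij⟩ : ∃ i j : ℕ, i + 2 ≤ j ∧ c i = c j :=
    ⟨2 * m, 2 * m', by omega, hcm⟩
  have hU : ∀ n, (x n)⁻¹ • Side (x n • D) (x (n + 1) • e₀) =
      Side D ((x n)⁻¹ • x (n + 1) • e₀) := by
    intro n
    rw [side_smul, inv_smul_smul]
  set p : G := x j * (k j)⁻¹ * k i * (x i)⁻¹ with hpdef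
  have hpU : p • Side (x i • D) (x (i + 1) • e₀) = Side (x j • D) (x (j + 1) • e₀) := by
    rw [hpdef, mul_smul, mul_smul, mul_smul, hU i, hkc i, hcij, ← hkc j, ← hU j, inv_smul_smul,
      smul_inv_smul]
  have hP := chain_props hD.conv hx
  have hle : (Side (x (i + 1) • D) (x i • e₀))ᶜ ⊆ Side (x i • D) (x (i + 1) • e₀) := by
    intro z hz
    rcases comp2 (hconv i) (hconv (i + 1)) (hx.disj i) z (hb i) (hb (i + 1)) with h | h
    · exact h.symm
    · exact absurd h.symm hz
  have hp : p • Side (x i • D) (x (i + 1) • e₀) ⊆ (Side (x (i + 1) • D) (x i • e₀))ᶜ := by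
    rw [hpU]
    intro z hz hz2
    have hz1 : JoinedIn (x j • D)ᶜ (x (j + 1) • e₀) z := hz
    have hz3 : JoinedIn (x (i + 1) • D)ᶜ (x i • e₀) z := hz2
    obtain ⟨hd, h2, h3, h4⟩ := hP (i + 1) j (by omega)
    rcases comp2 (hconv (i + 1)) (hconv j) hd z (hb (i + 1)) (hb j) with h | h
    · exact hx.sep i ((hz3.trans h).trans h2.symm)
    · exact h4 (h.symm.trans hz1.symm)
  have hne : p • Side (x i • D) (x (i + 1) • e₀) ≠ Side (x i • D) (x (i + 1) • e₀) := by
    intro heq
    obtain ⟨hd, h2, h3, h4⟩ := hP i j (by omega)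
    have h5 : x j • e₀ ∈ Side (x i • D) (x (i + 1) • e₀) := h2
    rw [← heq, hpU] at h5
    exact side_subset h5 (hb j)
  exact rankOne_of_walls hgc hcoc hirr hle (finSep_side_smul hD _ _)
    (finSep_side_smul hD _ _).compl (width_side hD hw _ _) (width_side hD hw _ _).compl
    (hD.cco_pair (hx.disj i) (hb i) (hb (i + 1))) hp hne

end Pool.Agent.H29.RR
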