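import Pool.Agent.H29.RR.WallThm

/-!
# Rank rigidity for convex cocompact intervals of walls

This file generalises `Pool.Agent.H29.RR.WallThm` from one half-space `h` to an interval
`h₂ ⊆ h₁`; the proofs are the same with small changes.  `K = KI G h₁ h₂` is the common stabiliser,
`PI h₁ h₂` is the set of `g` with `g • h₁ ⊆ h₂` and `g • h₁ ≠ h₁`.

**posSys_iwall** (copy `posSys_wall`). `mul`: `(p * q) • h₁ ⊆ p • h₂ ⊆ p • h₁ ⊆ h₂`, and
`(p * q) • h₁ ⊆ p • h₁ ⊂ h₁`.  `left`, `right`: clear.  `virt`: for `f` with `Le P 1 f`, `Le P f p`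
we have `p • h₂ ⊆ f • h₂` and `f • h₁ ⊆ h₁`, so the sets `f • h₁`, `f • h₂` lie between `p • h₂` and
`h₁`. Careful: to use `FinSep` one needs a point of `p • h₂` and a point outside `h₁`; `h₂` is nonempty
because `p • h₁ ⊆ h₂` and `h₁` is nonempty (as `p • h₁ ≠ h₁`), and `h₁ ≠ univ` (same reason).  The
elements `d` of `K ⊓ cj K p` fix `h₁`, `h₂`, `p • h₁`, `p • h₂`, so they map each translate of `h₁` (or
`h₂`) between `p • h₂` and `h₁` to such a translate; there are finitely many of them; use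
`relIndex_of_finite_image` with
`d ↦ (fun S : J₁ => d • S, fun S : J₂ => d • S)`, `J_i` the (finite) set of translates of `h_i`
between `p • h₂` and `h₁`.

**cover_iwall** (copy `cover_wall`).  First find `a` with: for all `g ∈ F` and `S ∈ {h₁, h₂}`,
`a • h₁ ⊆ g • S` or `Disjoint (a • h₁) (g • S)` (induction over `F`; apply `h3` twice in each step, first
to `a⁻¹ * g`, `h₁` and then to `(a * b)⁻¹ * g`, `h₂`). The result is `a' = a * p`, with
`a' • h₁ = a • p • h₁ ⊂ a • h₁` (strict), `a • p • h₁ ⊆ a • h₂`.  For `A` take all `g * p⁻¹`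
(`g ∈ F`) such that `a • h₁ ⊆ g • h₁` or `a • h₁ ⊆ g • h₂`, and all `g * r` (`g ∈ F`) such that `a • h₁`
is disjoint from `g • h₁` or from `g • h₂`.  Membership `b⁻¹ * a' ∈ PI`:
if `b = g * p⁻¹` then `a' • h₁ ⊂ a • h₁ ⊆ g • h₁ ⊆ (g * p⁻¹) • h₂ ⊆ b • h₁` (from `p • h₁ ⊆ h₂`);
if `b = g * r` then `a' • h₁ ⊂ a • h₁ ⊆ (g • h_i)ᶜ ⊆ (g • h₂)ᶜ ⊆ (g * r) • h₂ ⊆ b • h₁` (from
`h₂ ∪ r • h₂ = univ`).  Index: let `d ∈ cj K a' ⊓ KF K A`, `g ∈ F`, `S ∈ {h₁, h₂}`.  If `a • h₁ ⊆ g • S`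
then with `b = g * p⁻¹`: `a' • h₁ ⊆ d • g • S ⊆ b • h₂` (as `d` fixes `a' • h₁` and `b • h₂`), so
`d • g • S` is one of finitely many sets (`FinSep`, a point of `a' • h₁`, a point outside `b • h₂`).
If `a • h₁` is disjoint from `g • S` then with `b = g * r`: `d • g • S` is disjoint from `a' • h₁` and
`(d • g • S)ᶜ ⊆ b • h₂`: again finitely many sets.  Conclude with `relIndex_of_finite_image` applied to
`d ↦ (fun g : F => (d • g • h₁, d • g • h₂))`.

**rankOne_of_iwall_translation**.  Let `Q` be the intersection of the stabilisers of `h₁` and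
`(p * p) • h₁`.  The elements of `Q` permute the translates of `h₁` (and of `h₂`) between
`(p * p) • h₁` and `h₁`; among these are `h₂`, `p • h₁`, `p • h₂`.  So `KI ⊓ cj KI p` has finite index in
`Q` (`relIndex_of_finite_image` with `d ↦ (d • h₂, d • p • h₁, d • p • h₂)`), so `Q` is finite
(`infinite_inf_of_relIndex`). Apply `rankOne_of_wall_translation` to `h₁` and `p * p`.

**rankOne_of_iwall**: copy `rankOne_of_wall`.
-/

open Set Filter Topology Metric
open Pool.Agent.H29 Pool.Agent.H74.CC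
open scoped Pointwise

set_option linter.unusedSectionVars false

namespace Pool.Agent.H29.RR

universe u

section IWall

variable {G V : Type*} [Group G] [MulAction G V] {h₁ h₂ : Set V}

/-- the strictly positive elements of an interval -/
def PI (h₁ h₂ : Set V) : Set G := {g : G | g • h₁ ⊆ h₂ ∧ g • h₁ ≠ h₁}

variable (G) in
/-- the stabiliser of an interval -/
abbrev KI (h₁ h₂ : Set V) : Subgroup G := MulAction.stabilizer G h₁ ⊓ MulAction.stabilizer G h₂

lemma iwall_ssubset (hle : h₂ ⊆ h₁) {p : G} (hp : p • h₁ ⊆ h₂) (hne : p • h₁ ≠ h₁) :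
    p • h₁ ⊂ h₁ :=
  ssubset_of_subset_of_ne (hp.trans hle) hne

lemma iwall_points {p : G} (hp : p • h₁ ⊂ h₁) : (∃ w, w ∉ h₁) ∧ ∃ v, v ∈ h₁ := by
  constructor
  · by_contra hcon
    push Not at hcon
    apply hp.2
    intro v _
    have := hcon (p⁻¹ • v)
    rwa [← Set.mem_smul_set_iff_inv_smul_mem] at this
  · by_contra hcon
    push Not at hcon
    apply hp.2
    intro v hv
    exact absurd hv (hcon v)

lemma mem_cj_KI {g f : G} : g ∈ cj (KI G h₁ h₂) f ↔ g • f • h₁ = f • h₁ ∧ g • f • h₂ = f • h₂ := by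
  rw [cj_inf, Subgroup.mem_inf, mem_cj_stab, mem_cj_stab]

lemma mem_PI_iff {g f : G} :
    g⁻¹ * f ∈ (PI h₁ h₂ : Set G) ↔ f • h₁ ⊆ g • h₂ ∧ f • h₁ ≠ g • h₁ := by
  have e1 : (g⁻¹ * f) • h₁ ⊆ h₂ ↔ f • h₁ ⊆ g • h₂ := by
    rw [mul_smul, Set.smul_set_subset_iff_subset_inv_smul_set, inv_inv]
  have e2 : (g⁻¹ * f) • h₁ = h₁ ↔ f • h₁ = g • h₁ := by
    rw [mul_smul, inv_smul_eq_iff]
  show (g⁻¹ * f) • h₁ ⊆ h₂ ∧ (g⁻¹ * f) • h₁ ≠ h₁ ↔ _
  rw [e1, Ne, e2]

lemma Le_PI_left (hle : h₂ ⊆ h₁) {f : G} (hf : Le (PI h₁ h₂) 1 f) : f • h₁ ⊆ h₁ := by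
  rcases hf with rfl | hf
  · rw [one_smul]
  · have := (mem_PI_iff.mp hf).1
    rw [one_smul] at this
    exact this.trans hle

lemma Le_PI_right (hle : h₂ ⊆ h₁) {f q : G} (hf : Le (PI h₁ h₂) f q) : q • h₂ ⊆ f • h₂ := by
  rcases hf with rfl | hf
  · exact Subset.rfl
  · exact (smul_set_mono hle).trans (mem_PI_iff.mp hf).1

lemma posSys_iwall (hle : h₂ ⊆ h₁) (s1 : FinSep h₁ G) (s2 : FinSep h₂ G) {p : G}
    (hp : p • h₁ ⊆ h₂) (hne : p • h₁ ≠ h₁) : PosSys (KI G h₁ h₂) (PI h₁ h₂ : Set G) where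
  ne := ⟨p, hp, hne⟩
  mul := by
    rintro p ⟨hp1, hp2⟩ q ⟨hq1, hq2⟩
    have h5 : p • h₁ ⊂ h₁ := iwall_ssubset hle hp1 hp2
    have h6 : q • h₁ ⊂ h₁ := iwall_ssubset hle hq1 hq2
    have h7 : (p * q) • h₁ ⊂ h₁ := by
      rw [mul_smul]
      exact (smul_ssubset h6).trans h5
    refine ⟨?_, h7.ne⟩
    rw [mul_smul]
    exact (smul_set_mono (hq1.trans hle)).trans hp1
  left := by
    rintro k ⟨hk1, hk2⟩ p ⟨hp1, hp2⟩
    have hk1' : k • h₁ = h₁ := hk1
    have hk2' : k • h₂ = h₂ := hk2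
    refine ⟨?_, ?_⟩
    · rw [mul_smul]
      have := smul_set_mono (a := k) hp1
      rwa [hk2'] at this
    · rw [mul_smul]
      intro he
      apply hp2
      have : k • p • h₁ = k • h₁ := by rw [he, hk1']
      exact smul_left_cancel k this
  right := by
    rintro k ⟨hk1, hk2⟩ p ⟨hp1, hp2⟩
    have hk1' : k • h₁ = h₁ := hk1
    refine ⟨?_, ?_⟩
    · rwa [mul_smul, hk1']
    · rwa [mul_smul, hk1']
  virt := by
    rintro q ⟨hq1, hq2⟩
    have hq' := iwall_ssubset hle hq1 hq2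
    obtain ⟨⟨w, hw⟩, v0, hv0⟩ := iwall_points hq'
    have hv1 : q • v0 ∈ h₂ := hq1 (Set.smul_mem_smul_set hv0)
    set v := q • q • v0 with hvdef
    have hv : v ∈ q • h₂ := Set.smul_mem_smul_set hv1
    set J : Set (Set V) := {S | ((∃ g : G, S = g • h₁) ∨ ∃ g : G, S = g • h₂) ∧
      q • h₂ ⊆ S ∧ S ⊆ h₁} with hJ
    have hJI : J ⊆ {S | (∃ g : G, S = g • h₁) ∧ v ∈ S ∧ w ∉ S} ∪
        {S | (∃ g : G, S = g • h₂) ∧ v ∈ S ∧ w ∉ S} := by
      rintro S ⟨h2 | h2, h3, h4⟩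
      · exact Or.inl ⟨h2, h3 hv, fun hwS => hw (h4 hwS)⟩
      · exact Or.inr ⟨h2, h3 hv, fun hwS => hw (h4 hwS)⟩
    have hJf : J.Finite := ((s1 v w).union (s2 v w)).subset hJI
    have := hJf.to_subtype
    have hmap : ∀ d ∈ (KI G h₁ h₂ ⊓ cj (KI G h₁ h₂) q : Subgroup G),
        ∀ S ∈ J, d • S ∈ J := by
      rintro d ⟨⟨hd1, _⟩, hd2⟩ S ⟨hg, h3, h4⟩
      have hd1' : d • h₁ = h₁ := hd1
      have hd2' : d • q • h₂ = q • h₂ := (mem_cj_KI.mp hd2).2
      refine ⟨?_, ?_, ?_⟩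
      · rcases hg with ⟨g, hg⟩ | ⟨g, hg⟩
        · exact Or.inl ⟨d * g, by rw [hg, mul_smul]⟩
        · exact Or.inr ⟨d * g, by rw [hg, mul_smul]⟩
      · have := smul_set_mono (a := d) h3
        rwa [hd2'] at this
      · have := smul_set_mono (a := d) h4
        rwa [hd1'] at this
    apply relIndex_of_finite_image (fun d => fun S : J => d • (S : Set V))
    · apply Set.Finite.subset (Set.Finite.pi' (fun _ : J => hJf))
      rintro _ ⟨d, hd, rfl⟩ S
      exact hmap d hd S S.2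
    · intro d _ d' _ he
      rw [mem_Fx]
      intro f hf1 hf2
      have hA := Le_PI_left hle hf1
      have hB := Le_PI_right hle hf2
      rw [mem_cj_KI]
      constructor
      · have hfJ : f • h₁ ∈ J :=
          ⟨Or.inl ⟨f, rfl⟩, hB.trans (smul_set_mono hle), hA⟩
        have h5 := congrFun he ⟨f • h₁, hfJ⟩
        simp only at h5
        rw [mul_smul, ← h5, inv_smul_smul]
      · have hfJ : f • h₂ ∈ J :=
          ⟨Or.inr ⟨f, rfl⟩, hB, (smul_set_mono hle).trans hA⟩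
        have h5 := congrFun he ⟨f • h₂, hfJ⟩
        simp only at h5
        rw [mul_smul, ← h5, inv_smul_smul]

lemma cover_iwall (hle : h₂ ⊆ h₁) (s1 : FinSep h₁ G) (s2 : FinSep h₂ G) {p : G}
    (hp : p • h₁ ⊆ h₂) (hne : p • h₁ ≠ h₁)
    (h3 : ∀ (g : G) (S : Set V), S = h₁ ∨ S = h₂ →
      ∃ a : G, a • h₁ ⊆ h₁ ∧ (a • h₁ ⊆ g • S ∨ Disjoint (a • h₁) (g • S)))
    {r : G} (hr : h₂ ∪ r • h₂ = univ) (F : Finset G) :
    ∃ (a : G) (A : Finset G), (∀ b ∈ A, b⁻¹ * a ∈ (PI h₁ h₂ : Set G)) ∧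
      (KF (KI G h₁ h₂) F).relIndex (cj (KI G h₁ h₂) a ⊓ KF (KI G h₁ h₂) A) ≠ 0 := by
  classical
  have hps := iwall_ssubset hle hp hne
  obtain ⟨⟨w0, hw0⟩, v0, hv0⟩ := iwall_points hps
  have hdown : ∀ (a g : G) (S : Set V) (b : G), b • h₁ ⊆ h₁ →
      (b • h₁ ⊆ (a⁻¹ * g) • S ∨ Disjoint (b • h₁) ((a⁻¹ * g) • S)) →
      ((a * b) • h₁ ⊆ g • S ∨ Disjoint ((a * b) • h₁) (g • S)) := by
    intro a g S b _ hb2
    rcases hb2 with hb2 | hb2
    · left
      have := smul_set_mono (a := a) hb2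
      rwa [smul_smul, smul_smul, mul_inv_cancel_left] at this
    · right
      have := (Set.disjoint_smul_set (a := a)).mpr hb2
      rwa [smul_smul, smul_smul, mul_inv_cancel_left] at this
  -- a deep translate
  obtain ⟨a, ha⟩ : ∃ a : G, ∀ g ∈ F, ∀ S : Set V, S = h₁ ∨ S = h₂ →
      (a • h₁ ⊆ g • S ∨ Disjoint (a • h₁) (g • S)) := by
    induction F using Finset.induction_on with
    | empty => exact ⟨1, by simp⟩
    | insert g F _ ih =>
      obtain ⟨a, ha⟩ := ih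
      obtain ⟨b, hb1, hb2⟩ := h3 (a⁻¹ * g) h₁ (Or.inl rfl)
      obtain ⟨c, hc1, hc2⟩ := h3 ((a * b)⁻¹ * g) h₂ (Or.inr rfl)
      have hsub1 : (a * b) • h₁ ⊆ a • h₁ := by
        rw [mul_smul]
        exact smul_set_mono hb1
      have hsub2 : (a * b * c) • h₁ ⊆ (a * b) • h₁ := by
        rw [mul_smul]
        exact smul_set_mono hc1
      have hb3 := hdown a g h₁ b hb1 hb2
      have hc3 := hdown (a * b) g h₂ c hc1 hc2
      refine ⟨a * b * c, ?_⟩
      intro k hk S hS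
      rcases Finset.mem_insert.mp hk with rfl | hk
      · rcases hS with rfl | rfl
        · rcases hb3 with h4 | h4
          · exact Or.inl (hsub2.trans h4)
          · exact Or.inr (h4.mono_left hsub2)
        · exact hc3
      · rcases ha k hk S hS with h4 | h4
        · exact Or.inl ((hsub2.trans hsub1).trans h4)
        · exact Or.inr (h4.mono_left (hsub2.trans hsub1))
  have hstrict : (a * p) • h₁ ⊂ a • h₁ := by
    rw [mul_smul]
    exact smul_ssubset hps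
  have hrc : ∀ g : G, (g • h₂)ᶜ ⊆ (g * r) • h₂ := by
    intro g v hv
    have h5 : g⁻¹ • v ∈ h₂ ∪ r • h₂ := by rw [hr]; exact mem_univ _
    rcases h5 with h5 | h5
    · exact absurd (Set.mem_smul_set_iff_inv_smul_mem.mpr h5) hv
    · rw [mul_smul]
      exact Set.mem_smul_set_iff_inv_smul_mem.mpr h5
  have hbig : ∀ S : Set V, S = h₁ ∨ S = h₂ → h₂ ⊆ S ∧ S ⊆ h₁ := by
    rintro S (rfl | rfl)
    · exact ⟨hle, Subset.rfl⟩
    · exact ⟨Subset.rfl, hle⟩
  have hpinv : ∀ g : G, g • h₁ ⊆ (g * p⁻¹) • h₂ := by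
    intro g
    rw [mul_smul]
    apply smul_set_mono
    have := smul_set_mono (a := p⁻¹) hp
    rwa [inv_smul_smul] at this
  have hrc' : ∀ (g : G) (S : Set V), S = h₁ ∨ S = h₂ → (g • S)ᶜ ⊆ (g * r) • h₂ := by
    intro g S hS
    exact (compl_subset_compl.mpr (smul_set_mono (hbig S hS).1)).trans (hrc g)
  have hmemPI : ∀ b : G, a • h₁ ⊆ b • h₂ → b⁻¹ * (a * p) ∈ (PI h₁ h₂ : Set G) := by
    intro b hb
    rw [mem_PI_iff]
    refine ⟨hstrict.1.trans hb, ?_⟩
    exact (hstrict.trans_subset (hb.trans (smul_set_mono hle))).ne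
  set A : Finset G := (F.image (fun g => g * p⁻¹) ∪ F.image (fun g => g * r)).filter
    (fun b => b⁻¹ * (a * p) ∈ (PI h₁ h₂ : Set G)) with hA
  refine ⟨a * p, A, fun b hb => (Finset.mem_filter.mp hb).2, ?_⟩
  -- finitely many values
  have hval : ∀ (S : Set V), S = h₁ ∨ S = h₂ → ∀ g : F,
      {T : Set V | ∃ d ∈ cj (KI G h₁ h₂) (a * p) ⊓ KF (KI G h₁ h₂) A,
        T = d • (g : G) • S}.Finite := by
    rintro S hS ⟨g, hg⟩
    have sS : FinSep S G := by
      rcases hS with rfl | rfl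
      · exact s1
      · exact s2
    rcases ha g hg S hS with h5 | h5
    · have hb : a • h₁ ⊆ (g * p⁻¹) • h₂ :=
        (h5.trans (smul_set_mono (hbig S hS).2)).trans (hpinv g)
      have hbA : g * p⁻¹ ∈ A := by
        rw [hA, Finset.mem_filter]
        exact ⟨Finset.mem_union_left _ (Finset.mem_image_of_mem _ hg), hmemPI _ hb⟩
      apply (sS ((a * p) • v0) ((g * p⁻¹) • w0)).subset
      rintro T ⟨d, ⟨hd1, hd2⟩, rfl⟩
      have h7 : d • (g * p⁻¹) • h₂ = (g * p⁻¹) • h₂ := (mem_cj_KI.mp (mem_KF.mp hd2 _ hbA)).2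
      have h8 : d • (a * p) • h₁ = (a * p) • h₁ := (mem_cj_KI.mp hd1).1
      refine ⟨⟨d * g, by rw [mul_smul]⟩, ?_, ?_⟩
      · have h9 : (a * p) • v0 ∈ (a * p) • h₁ := Set.smul_mem_smul_set hv0
        rw [← h8] at h9
        exact smul_set_mono (a := d) (hstrict.1.trans h5) h9
      · intro hcon
        have h9 : d • g • S ⊆ d • (g * p⁻¹) • h₂ :=
          smul_set_mono ((smul_set_mono (hbig S hS).2).trans (hpinv g))
        have h10 := h9 hcon
        rw [h7] at h10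
        exact hw0 (hle (Set.smul_mem_smul_set_iff.mp h10))
    · have hb : a • h₁ ⊆ (g * r) • h₂ :=
        (Set.subset_compl_iff_disjoint_right.mpr h5).trans (hrc' g S hS)
      have hbA : g * r ∈ A := by
        rw [hA, Finset.mem_filter]
        exact ⟨Finset.mem_union_right _ (Finset.mem_image_of_mem _ hg), hmemPI _ hb⟩
      apply (sS ((g * r) • w0) ((a * p) • v0)).subset
      rintro T ⟨d, ⟨hd1, hd2⟩, rfl⟩
      have h7 : d • (g * r) • h₂ = (g * r) • h₂ := (mem_cj_KI.mp (mem_KF.mp hd2 _ hbA)).2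
      have h8 : d • (a * p) • h₁ = (a * p) • h₁ := (mem_cj_KI.mp hd1).1
      refine ⟨⟨d * g, by rw [mul_smul]⟩, ?_, ?_⟩
      · by_contra hcon
        have h9 : (g * r) • w0 ∈ (d • g • S)ᶜ := hcon
        rw [← Set.smul_set_compl] at h9
        have h10 := smul_set_mono (a := d) (hrc' g S hS) h9
        rw [h7] at h10
        exact hw0 (hle (Set.smul_mem_smul_set_iff.mp h10))
      · intro hcon
        have h9 : (a * p) • v0 ∈ (a * p) • h₁ := Set.smul_mem_smul_set hv0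
        rw [← h8] at h9
        have h10 := (Set.disjoint_smul_set (a := d)).mpr (h5.mono_left hstrict.1)
        exact Set.disjoint_left.mp h10 h9 hcon
  apply relIndex_of_finite_image
    (fun d => (fun g : F => d • (g : G) • h₁, fun g : F => d • (g : G) • h₂))
  · apply Set.Finite.subset ((Set.Finite.pi' (hval h₁ (Or.inl rfl))).prod
      (Set.Finite.pi' (hval h₂ (Or.inr rfl))))
    rintro _ ⟨d, hd, rfl⟩
    exact ⟨fun g => ⟨d, hd, rfl⟩, fun g => ⟨d, hd, rfl⟩⟩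
  · intro d _ d' _ he
    rw [mem_KF]
    intro g hg
    rw [mem_cj_KI]
    have h5 := congrFun (congrArg Prod.fst he) ⟨g, hg⟩
    have h6 := congrFun (congrArg Prod.snd he) ⟨g, hg⟩
    simp only at h5 h6
    constructor
    · rw [mul_smul, ← h5, inv_smul_smul]
    · rw [mul_smul, ← h6, inv_smul_smul]

end IWall

variable {G : Type*} {X : Type u} {V : Type*} [Group G] [MetricSpace X] [IsCAT0 X] [ProperSpace X]
  [MulAction G X] [IsIsometricSMul G X] [ProperlyDiscontinuousSMul G X] [MulAction G V]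
  {h₁ h₂ : Set V}

/-- a strict translation with finite common stabiliser gives a rank one isometry -/
lemma rankOne_of_iwall_translation [Nonempty X] (hcoc : Cocompact G X) (hle : h₂ ⊆ h₁)
    (s1 : FinSep h₁ G) (s2 : FinSep h₂ G) {p : G} (hp : p • h₁ ⊆ h₂) (hne : p • h₁ ≠ h₁)
    (hf : ((KI G h₁ h₂ ⊓ cj (KI G h₁ h₂) p : Subgroup G) : Set G).Finite) :
    IsRankOne (X := X) (p * p)⁻¹ := by
  have hps := iwall_ssubset hle hp hne
  obtain ⟨⟨w, hw⟩, v0, hv0⟩ := iwall_points hps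
  have hpp : (p * p) • h₁ ⊂ h₁ := by
    rw [mul_smul]
    exact (smul_ssubset hps).trans hps
  apply rankOne_of_wall_translation hcoc s1 hpp
  have c1 : (p * p) • h₁ ⊆ p • h₂ := by
    rw [mul_smul]
    exact smul_set_mono hp
  have c2 : p • h₂ ⊆ p • h₁ := smul_set_mono hle
  have hrel : (KI G h₁ h₂ ⊓ cj (KI G h₁ h₂) p : Subgroup G).relIndex
      (MulAction.stabilizer G h₁ ⊓ cj (MulAction.stabilizer G h₁) (p * p)) ≠ 0 := by
    apply relIndex_of_finite_image (fun d => (d • h₂, d • p • h₁, d • p • h₂))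
    · have hv : (p * p) • v0 ∈ (p * p) • h₁ := Set.smul_mem_smul_set hv0
      have key : ∀ d ∈ (MulAction.stabilizer G h₁ ⊓ cj (MulAction.stabilizer G h₁) (p * p) :
          Subgroup G), ∀ S : Set V, (p * p) • h₁ ⊆ S → S ⊆ h₁ →
          (p * p) • v0 ∈ d • S ∧ w ∉ d • S := by
        rintro d ⟨hd1, hd2⟩ S hS1 hS2
        have hd1' : d • h₁ = h₁ := hd1
        have hd2' : d • (p * p) • h₁ = (p * p) • h₁ := mem_cj_stab.mp hd2
        have e1 := smul_set_mono (a := d) hS1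
        have e2 := smul_set_mono (a := d) hS2
        rw [hd2'] at e1
        rw [hd1'] at e2
        exact ⟨e1 hv, fun hcon => hw (e2 hcon)⟩
      apply Set.Finite.subset ((s2 ((p * p) • v0) w).prod
        ((s1 ((p * p) • v0) w).prod (s2 ((p * p) • v0) w)))
      rintro _ ⟨d, hd, rfl⟩
      refine ⟨⟨⟨d, rfl⟩, key d hd h₂ ?_ hle⟩, ⟨⟨d * p, by rw [mul_smul]⟩, key d hd (p • h₁) ?_ ?_⟩,
        ⟨⟨d * p, by rw [mul_smul]⟩, key d hd (p • h₂) c1 ?_⟩⟩
      · exact (c1.trans c2).trans hp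
      · exact c1.trans c2
      · exact hps.1
      · exact c2.trans hps.1
    · rintro d ⟨hd1, _⟩ d' ⟨hd1', _⟩ he
      have e1 : d • h₁ = h₁ := hd1
      have e2 : d' • h₁ = h₁ := hd1'
      simp only [Prod.mk.injEq] at he
      obtain ⟨he1, he2, he3⟩ := he
      refine ⟨⟨?_, ?_⟩, ?_⟩
      · show (d⁻¹ * d') • h₁ = h₁
        rw [mul_smul, e2, inv_smul_eq_iff, e1]
      · show (d⁻¹ * d') • h₂ = h₂
        rw [mul_smul, ← he1, inv_smul_smul]
      · show d⁻¹ * d' ∈ cj (KI G h₁ h₂) p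
        rw [mem_cj_KI]
        constructor
        · rw [mul_smul, ← he2, inv_smul_smul]
        · rw [mul_smul, ← he3, inv_smul_smul]
  by_contra hcon
  exact infinite_inf_of_relIndex hrel hcon (hf.subset (fun k hk => hk.2))

theorem rankOne_of_iwall [Nonempty X] (hgc : GeodesicallyComplete X) (hcoc : Cocompact G X)
    (hirr : MetricIrreducible X) (hle : h₂ ⊆ h₁) (s1 : FinSep h₁ G) (s2 : FinSep h₂ G)
    (hK : CCo X (KI G h₁ h₂)) {p : G} (hp : p • h₁ ⊆ h₂) (hne : p • h₁ ≠ h₁)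
    (h3 : ∀ (g : G) (S : Set V), S = h₁ ∨ S = h₂ →
      ∃ a : G, a • h₁ ⊆ h₁ ∧ (a • h₁ ⊆ g • S ∨ Disjoint (a • h₁) (g • S)))
    {r : G} (hr : h₂ ∪ r • h₂ = univ) : ∃ g : G, IsRankOne (X := X) g := by
  have hP := posSys_iwall hle s1 s2 hp hne
  have hps := iwall_ssubset hle hp hne
  have hidx : (KI G h₁ h₂ : Subgroup G).relIndex ⊤ = 0 := by
    by_contra hi
    rw [Subgroup.relIndex_top_right] at hi
    obtain ⟨n, hn, _, hn2⟩ := Subgroup.exists_pow_mem_of_index_ne_zero hi p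
    have h2 : p ^ n • h₁ = h₁ := hn2.1
    have hpow : ∀ n : ℕ, p ^ (n + 1) • h₁ ⊂ h₁ := by
      intro n
      induction n with
      | zero => simpa using hps
      | succ n ih =>
        rw [pow_succ, mul_smul]
        exact (smul_ssubset hps).trans ih
    have h4 := hpow (n - 1)
    rw [Nat.sub_add_cancel hn, h2] at h4
    exact h4.ne rfl
  obtain ⟨q, hq, hqf⟩ := exists_finite_segment hgc hcoc hirr hP hK hidx
    (fun F => cover_iwall hle s1 s2 hp hne h3 hr F)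
  exact ⟨(q * q)⁻¹, rankOne_of_iwall_translation hcoc hle s1 s2 hq.1 hq.2 hqf⟩

end Pool.Agent.H29.RR
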