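import Pool.Agent.H29.RR.Ray

/-!
# Limit points of subgroups
-/

open Set Filter Topology Metric
open Pool.Agent.H29 Pool.Agent.H74.CC

set_option linter.unusedSectionVars false

namespace Pool.Agent.H29.RR

variable {G X : Type*} [Group G] [MetricSpace X] [IsCAT0 X] [ProperSpace X]
  [MulAction G X] [IsIsometricSMul G X]

variable {H H' H1 H2 : Subgroup G} {ρ σ : ℝ → X}

lemma Lim.mono (hle : H ≤ H') (h : Lim H ρ) : Lim H' ρ := by
  obtain ⟨x, M, hM⟩ := h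
  refine ⟨x, M, fun t ht => ?_⟩
  obtain ⟨g, hg, hd⟩ := hM t ht
  exact ⟨g, hle hg, hd⟩

lemma Lim.asym (h : Lim H ρ) (h' : Asym ρ σ) : Lim H σ := by
  obtain ⟨x, M, hM⟩ := h
  obtain ⟨M', hM'⟩ := h'
  refine ⟨x, M' + M, fun t ht => ?_⟩
  obtain ⟨g, hg, hd⟩ := hM t ht
  refine ⟨g, hg, ?_⟩
  have h1 := dist_triangle (σ t) (ρ t) (g • x)
  rw [dist_comm (σ t) (ρ t)] at h1
  have h2 := hM' t ht
  linarith

lemma Lim.smul (h : Lim H ρ) (g : G) : Lim (cj H g) (fun t => g • ρ t) := by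
  obtain ⟨x, M, hM⟩ := h
  refine ⟨g • x, M, fun t ht => ?_⟩
  obtain ⟨k, hk, hd⟩ := hM t ht
  refine ⟨g * k * g⁻¹, ?_, ?_⟩
  · rw [mem_cj]
    have : g⁻¹ * (g * k * g⁻¹) * g = k := by group
    rwa [this]
  · show dist (g • ρ t) ((g * k * g⁻¹) • g • x) ≤ M
    rw [smul_smul, inv_mul_cancel_right, mul_smul, dist_smul]
    exact hd

/-- the ray may be moved back -/
lemma Lim.of_smul {g : G} (h : Lim H (fun t => g • ρ t)) : Lim (cj H g⁻¹) ρ := by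
  have h1 := h.smul g⁻¹
  simpa only [inv_smul_smul] using h1

theorem Lim.inf [ProperlyDiscontinuousSMul G X] (h1 : Lim H1 ρ) (h2 : Lim H2 ρ) :
    Lim (H1 ⊓ H2) ρ := by
  obtain ⟨x, M, hM⟩ := h1
  obtain ⟨x', M', hM'⟩ := h2
  choose! a ha hda using hM
  choose! b hb hdb using hM'
  let s : ℝ → G := fun t => (a t)⁻¹ * b t
  have hs : ∀ t, 0 ≤ t → dist x (s t • x') ≤ M + M' := by
    intro t ht
    have e1 : dist x (s t • x') = dist (a t • x) (b t • x') := by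
      show dist x (((a t)⁻¹ * b t) • x') = _
      rw [mul_smul, ← dist_smul (a t) x, smul_inv_smul]
    rw [e1]
    have h3 := dist_triangle (a t • x) (ρ t) (b t • x')
    rw [dist_comm (a t • x) (ρ t)] at h3
    have h4 := hda t ht
    have h5 := hdb t ht
    linarith
  have hfin := finite_near (G := G) x x' (M + M')
  have hT : ∀ g : G, ∃ t : ℝ, (∃ t', 0 ≤ t' ∧ s t' = g) → 0 ≤ t ∧ s t = g := by
    intro g
    by_cases hg : ∃ t', 0 ≤ t' ∧ s t' = g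
    · obtain ⟨t', h3, h4⟩ := hg
      exact ⟨t', fun _ => ⟨h3, h4⟩⟩
    · exact ⟨0, fun h => absurd h hg⟩
  choose T hT using hT
  obtain ⟨D, hD⟩ := (hfin.image fun g => dist x ((a (T g))⁻¹ • x)).bddAbove
  refine ⟨x, M + D, fun t ht => ?_⟩
  obtain ⟨h3, h4⟩ := hT (s t) ⟨t, ht, rfl⟩
  have e1 : a t * (a (T (s t)))⁻¹ = b t * (b (T (s t)))⁻¹ := by
    have h5 : (a (T (s t)))⁻¹ * b (T (s t)) = (a t)⁻¹ * b t := h4
    have h6 : (a (T (s t)))⁻¹ = (a t)⁻¹ * b t * (b (T (s t)))⁻¹ := by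
      rw [← h5]
      group
    rw [h6]
    group
  refine ⟨a t * (a (T (s t)))⁻¹, ⟨?_, ?_⟩, ?_⟩
  · exact H1.mul_mem (ha t ht) (H1.inv_mem (ha _ h3))
  · rw [e1]
    exact H2.mul_mem (hb t ht) (H2.inv_mem (hb _ h3))
  · have h5 := dist_triangle (ρ t) (a t • x) ((a t * (a (T (s t)))⁻¹) • x)
    rw [mul_smul, dist_smul] at h5
    have h6 := hda t ht
    have h7 : dist x ((a (T (s t)))⁻¹ • x) ≤ D := hD ⟨s t, hs t ht, rfl⟩
    rw [mul_smul]
    linarith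

lemma Lim.finiteIndex (h : Lim H ρ) (hidx : H'.relIndex H ≠ 0) : Lim H' ρ := by
  obtain ⟨x, M, hM⟩ := h
  have hfin : Finite (H ⧸ H'.subgroupOf H) := by
    have : (H'.subgroupOf H).FiniteIndex := ⟨hidx⟩
    exact Subgroup.finite_quotient_of_finiteIndex
  obtain ⟨D, hD⟩ := (Set.finite_range fun q : H ⧸ H'.subgroupOf H =>
    dist (((q.out : H) : G)⁻¹ • x) x).bddAbove
  refine ⟨x, M + D, fun t ht => ?_⟩
  obtain ⟨g, hg, hd⟩ := hM t ht
  obtain ⟨k, hk⟩ := QuotientGroup.mk_out_eq_mul (H'.subgroupOf H) (⟨g, hg⟩⁻¹ : H)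
  set q : H ⧸ H'.subgroupOf H := QuotientGroup.mk (⟨g, hg⟩⁻¹ : H) with hq
  have h1 : ((q.out : H) : G) = g⁻¹ * (k : H) := by
    rw [hk]
    rfl
  have h2 : g = (((k : H) : G)) * ((q.out : H) : G)⁻¹ := by
    rw [h1]
    group
  have hkH : ((k : H) : G) ∈ H' := k.2
  refine ⟨((k : H) : G), hkH, ?_⟩
  have h3 := dist_triangle (ρ t) (g • x) (((k : H) : G) • x)
  have h4 : dist (g • x) (((k : H) : G) • x) ≤ D := by
    have h5 : g • x = ((k : H) : G) • ((q.out : H) : G)⁻¹ • x := by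
      rw [smul_smul, ← h2]
    rw [h5, dist_smul]
    exact hD ⟨q, rfl⟩
  linarith

lemma Lim.infDist_le (h : Lim H ρ) (hρ : IsRay ρ) {Z : Set X} (hZ : IsNC H Z)
    (hne : Z.Nonempty) : ∀ t, 0 ≤ t → infDist (ρ t) Z ≤ infDist (ρ 0) Z := by
  obtain ⟨x, M, hM⟩ := h
  apply IsRay.bdd_le hρ (gconvexFun_infDist hZ.closed hne hZ.convex) (M := infDist x Z + M)
  intro t ht
  obtain ⟨g, hg, hd⟩ := hM t ht
  have h1 := infDist_le_infDist_add_dist (s := Z) (x := ρ t) (y := g • x)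
  rw [hZ.infDist_smul hg] at h1
  show infDist (ρ t) Z ≤ _
  linarith

lemma Lim.of_infDist {Z : Set X} (hZ : IsNC H Z) (hne : Z.Nonempty) (hc : CocompactOn H Z)
    {M : ℝ} (hM : ∀ t, 0 ≤ t → infDist (ρ t) Z ≤ M) : Lim H ρ := by
  obtain ⟨B, hB, hc⟩ := hc
  obtain ⟨x, hx⟩ := hne
  have hne : Z.Nonempty := ⟨x, hx⟩
  obtain ⟨D, hD⟩ := (isBounded_iff_subset_closedBall x).1 hB.isBounded
  refine ⟨x, M + D, fun t ht => ?_⟩
  obtain ⟨g, hg, hgB⟩ := hc (proj Z (ρ t)) (proj_mem hZ.closed hne (ρ t))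
  refine ⟨g⁻¹, H.inv_mem hg, ?_⟩
  have h1 := dist_triangle (ρ t) (proj Z (ρ t)) (g⁻¹ • x)
  rw [dist_proj hZ.closed hne] at h1
  have h2 : dist (proj Z (ρ t)) (g⁻¹ • x) = dist (g • proj Z (ρ t)) x := by
    rw [← dist_smul g (proj Z (ρ t)) (g⁻¹ • x), smul_inv_smul]
  have h3 : dist (g • proj Z (ρ t)) x ≤ D := hD hgB
  have h4 := hM t ht
  linarith

/-- a ray starting in a closed convex invariant set and having a limit point of the group stays in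
the set -/
lemma Lim.mem (h : Lim H ρ) (hρ : IsRay ρ) {Z : Set X} (hZ : IsNC H Z) (h0 : ρ 0 ∈ Z) :
    ∀ t, 0 ≤ t → ρ t ∈ Z := by
  intro t ht
  have hne : Z.Nonempty := ⟨_, h0⟩
  rw [hZ.closed.mem_iff_infDist_zero hne]
  have h1 := h.infDist_le hρ hZ hne t ht
  rw [infDist_zero_of_mem h0] at h1
  exact le_antisymm h1 infDist_nonneg

theorem Lim.closed {α : Type*} (U : Ultrafilter α) (hH : CCo X H) {ρ : α → ℝ → X}
    (hρ : ∀ᶠ a in (U : Filter α), IsRay (ρ a) ∧ Lim H (ρ a))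
    (ht : ∀ t, 0 ≤ t → Tendsto (fun a => ρ a t) U (𝓝 (σ t))) : Lim H σ := by
  obtain ⟨Z, hZ, hne, hc⟩ := hH
  apply Lim.of_infDist hZ hne hc (M := infDist (σ 0) Z)
  intro t h0
  have h1 : Tendsto (fun a => infDist (ρ a t) Z) U (𝓝 (infDist (σ t) Z)) :=
    ((continuous_infDist_pt Z).tendsto (σ t)).comp (ht t h0)
  have h2 : Tendsto (fun a => infDist (ρ a 0) Z) U (𝓝 (infDist (σ 0) Z)) :=
    ((continuous_infDist_pt Z).tendsto (σ 0)).comp (ht 0 le_rfl)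
  exact le_of_tendsto_of_tendsto h1 h2 (hρ.mono fun a ha => ha.2.infDist_le ha.1 hZ hne t h0)

lemma Lim.infinite (h : Lim H ρ) (hρ : IsRay ρ) : (H : Set G).Infinite := by
  intro hfin
  obtain ⟨x, M, hM⟩ := h
  obtain ⟨D, hD⟩ := (hfin.image fun g => dist (g • x) x).bddAbove
  have key : ∀ t, 0 ≤ t → dist (ρ t) x ≤ M + D := by
    intro t ht
    obtain ⟨g, hg, hd⟩ := hM t ht
    have h1 := dist_triangle (ρ t) (g • x) x
    have h2 : dist (g • x) x ≤ D := hD ⟨g, hg, rfl⟩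
    linarith
  have h0 := key 0 le_rfl
  have hMD : 0 ≤ M + D := dist_nonneg.trans h0
  have ht : (0 : ℝ) ≤ 2 * (M + D) + 1 := by linarith
  have h1 := key _ ht
  have h2 := hρ 0 (2 * (M + D) + 1) le_rfl ht
  rw [zero_sub, abs_neg, abs_of_nonneg ht] at h2
  have h3 := dist_triangle_right (ρ 0) (ρ (2 * (M + D) + 1)) x
  linarith

theorem exists_lim [ProperlyDiscontinuousSMul G X] (h : CCo X H) (hinf : (H : Set G).Infinite)
    (p : X) : ∃ ρ : ℝ → X, IsRay ρ ∧ ρ 0 = p ∧ Lim H ρ := by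
  obtain ⟨Z, hZ, hne, hc⟩ := h
  obtain ⟨ρ, h0, hρ, hle⟩ := ray_of_infinite hinf (I := Unit) (fun _ x => infDist x Z)
    (fun _ => gconvexFun_infDist hZ.closed hne hZ.convex) (fun _ => continuous_infDist_pt Z)
    (fun _ g hg x => hZ.infDist_smul hg x) p
  exact ⟨ρ, hρ, h0, Lim.of_infDist hZ hne hc (M := infDist p Z) fun t ht => hle () t ht⟩

end Pool.Agent.H29.RR
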