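import Pool.Agent.H29.RR.StarThm
import Pool.Agent.H29.RR.Core

/-!
# Rank rigidity for convex cocompact splittings
-/

open Set Filter Topology Metric
open Pool.Agent.H29 Pool.Agent.H74.CC

set_option linter.unusedSectionVars false

namespace Pool.Agent.H29.RR

universe u

variable {G : Type*} {X : Type u} [Group G] [MetricSpace X] [IsCAT0 X] [ProperSpace X]
  [MulAction G X] [IsIsometricSMul G X] [ProperlyDiscontinuousSMul G X]

lemma map_top_conj (g : G) : (⊤ : Subgroup G).map (MulAut.conj g).toMonoidHom = ⊤ := by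
  ext h
  rw [mem_map_conj]
  simp

/-- the core of a convex cocompact subgroup is finite, or the subgroup has finite index -/
theorem core_finite [Nonempty X] (hgc : GeodesicallyComplete X) (hcoc : Cocompact G X)
    (hirr : MetricIrreducible X) {K : Subgroup G} (hK : CCo X K)
    (hidx : K.relIndex ⊤ = 0) : ∃ F : Finset G, ((KF K F : Subgroup G) : Set G).Finite := by
  obtain ⟨F, ⟨g, hg⟩, hcomm⟩ := exists_core (X := X) hcoc hK
  refine ⟨F, ?_⟩
  obtain ⟨Z, hZ, hZne, hZc⟩ := CCo.KF (X := X) hK ⟨g, hg⟩
  rcases commensurated_split hgc hcoc hirr hcomm hZ hZne hZc with h | h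
  · exact h
  · exfalso
    have hle : KF K F ≤ cj K g := fun k hk => mem_KF.mp hk g hg
    have h1 := relIndex_mono_left hle h
    rw [← map_top_conj g, relIndex_conj] at h1
    exact h1 hidx

/-- The abstract form: if the finite intersections of conjugates of `K` are virtually covered by
stars then the intersection of `K` with some conjugate by an element of `P` is finite, or `K` has
finite index. -/
theorem exists_finite_segment [Nonempty X] (hgc : GeodesicallyComplete X) (hcoc : Cocompact G X)
    (hirr : MetricIrreducible X) {K : Subgroup G} {P : Set G} (hP : PosSys K P) (hK : CCo X K)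
    (hidx : K.relIndex ⊤ = 0)
    (hcov : ∀ F : Finset G, ∃ (a : G) (A : Finset G), (∀ b ∈ A, b⁻¹ * a ∈ P) ∧
      (KF K F).relIndex (cj K a ⊓ KF K A) ≠ 0) :
    ∃ p ∈ P, ((K ⊓ cj K p : Subgroup G) : Set G).Finite := by
  classical
  by_contra hcon
  push Not at hcon
  obtain ⟨F, hF⟩ := core_finite hgc hcoc hirr hK hidx
  obtain ⟨a, A, hA, hAF⟩ := hcov F
  have h1 := infinite_star (X := X) hcoc hP hK hcon (A.image (fun b => a⁻¹ * b)) (by
    intro c hc
    obtain ⟨b, hb, rfl⟩ := Finset.mem_image.mp hc
    rw [mul_inv_rev, inv_inv]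
    exact hA b hb)
  have h2 : ((cj K a ⊓ KF K A : Subgroup G) : Set G).Infinite := by
    have h3 := h1.image (f := fun k => a * k * a⁻¹) (fun x _ y _ h => by
      simpa using h)
    apply h3.mono
    rintro _ ⟨k, ⟨hk1, hk2⟩, rfl⟩
    have hk2' : k ∈ KF K (A.image (fun b => a⁻¹ * b)) := hk2
    refine ⟨?_, ?_⟩
    · show a * k * a⁻¹ ∈ cj K a
      rw [mem_cj]
      have : a⁻¹ * (a * k * a⁻¹) * a = k := by group
      rw [this]
      exact hk1
    · show a * k * a⁻¹ ∈ KF K A
      rw [mem_KF] at hk2' ⊢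
      intro b hb
      have h4 := hk2' (a⁻¹ * b) (Finset.mem_image_of_mem _ hb)
      rw [mem_cj] at h4 ⊢
      have : b⁻¹ * (a * k * a⁻¹) * b = (a⁻¹ * b)⁻¹ * k * (a⁻¹ * b) := by group
      rw [this]
      exact h4
  have h3 := infinite_inf_of_relIndex hAF h2
  exact h3 (hF.subset (fun k hk => hk.2))

end Pool.Agent.H29.RR
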