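import Pool.Agent.H29.RR.CCo

/-!
# The rank lemma

Every directed-upwards family of convex cocompact subgroups contains an index beyond which
minimal sets are uniformly close to each other.
-/

open Set Filter Topology Metric
open Pool.Agent.H29 Pool.Agent.H74.CC

set_option linter.unusedSectionVars false

namespace Pool.Agent.H29.RR

variable {G X : Type*} [Group G] [MetricSpace X] [IsCAT0 X] [ProperSpace X]
  [MulAction G X] [IsIsometricSMul G X]

variable (X) in
/-- there are chains of length `k` of indices above `i` with minimal sets far apart -/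
def Dk {ι : Type*} [Preorder ι] (H : ι → Subgroup G) : ℕ → ι → Prop
  | 0, _ => True
  | k + 1, i => ∀ r : ℝ, ∃ j, i ≤ j ∧ Dk H k j ∧ ∃ D A B : Set X, IsMinl (H i) D ∧
      IsMinl (H j) A ∧ IsMinl (H j) B ∧ A ⊆ D ∧ B ⊆ D ∧ ∃ a ∈ A, r < infDist a B

/-- many points on a sphere of radius one far apart -/
lemma packing {ι : Type*} [Preorder ι] (H : ι → Subgroup G) :
    ∀ (k : ℕ) (i : ι), Dk X H k i → ∀ D : Set X, IsMinl (H i) D →
      ∃ x ∈ D, ∃ z : Fin k → X, (∀ m, z m ∈ D ∧ dist x (z m) = 1) ∧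
        ∀ m n, m ≠ n → 1 ≤ dist (z m) (z n) := by
  intro k
  induction k with
  | zero =>
    intro i _ D hD
    obtain ⟨x, hx⟩ := hD.ne
    exact ⟨x, hx, fun m => m.elim0, fun m => m.elim0, fun m => m.elim0⟩
  | succ k ih =>
    intro i hi D hD
    obtain ⟨j, _, hj, D', A, B, hD', hA, hB, hAD, hBD, a, ha, hlt⟩ := hi 1
    obtain ⟨x, hx, z, hz, hsep⟩ := ih j hj A hA
    set x' := proj B x with hx'
    have hx'B : x' ∈ B := proj_mem hB.isNC.closed hB.ne x
    have hL : dist x x' = infDist x B := dist_proj hB.isNC.closed hB.ne x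
    have hL1 : 1 < dist x x' := by rw [hL, hA.dist_const hB hx ha]; exact hlt
    have hLpos : 0 < dist x x' := by linarith
    have ht : 1 / dist x x' ∈ Icc (0 : ℝ) 1 := by
      constructor
      · positivity
      · rw [div_le_one hLpos]; exact hL1.le
    set w := pt x x' (1 / dist x x') with hw
    have hwD : w ∈ D' := hD'.isNC.convex x (hAD hx) x' (hBD hx'B) _ ht
    have hxw : dist x w = 1 := by
      rw [hw, dist_left_pt x x' ht]
      field_simp
    have hwx' : dist w x' = dist x x' - 1 := by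
      rw [hw, dist_pt_right x x' ht]
      field_simp
    have hzw : ∀ m, 1 ≤ dist (z m) w := by
      intro m
      have h1 : dist x x' ≤ dist (z m) x' := by
        rw [hL, hA.dist_const hB hx (hz m).1]
        exact infDist_le_dist_of_mem hx'B
      have h2 := dist_triangle (z m) w x'
      linarith
    have hP : ∀ {p q : X}, p ∈ D' → q ∈ D' → dist (proj D p) (proj D q) = dist p q :=
      fun hp hq => hD'.dist_proj_proj hD hp hq
    have hxD' : x ∈ D' := hAD hx
    have hzD' : ∀ m, z m ∈ D' := fun m => hAD (hz m).1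
    refine ⟨proj D x, proj_mem hD.isNC.closed hD.ne x,
      Fin.cons (proj D w) (fun m => proj D (z m)), ?_, ?_⟩
    · intro m
      refine Fin.cases ?_ (fun m => ?_) m
      · rw [Fin.cons_zero]
        exact ⟨proj_mem hD.isNC.closed hD.ne w, by rw [hP hxD' hwD, hxw]⟩
      · rw [Fin.cons_succ]
        exact ⟨proj_mem hD.isNC.closed hD.ne _, by rw [hP hxD' (hzD' m), (hz m).2]⟩
    · intro m n
      refine Fin.cases ?_ (fun m => ?_) m
      · refine Fin.cases ?_ (fun n => ?_) n
        · intro h; exact absurd rfl h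
        · intro _
          rw [Fin.cons_zero, Fin.cons_succ, hP hwD (hzD' n), dist_comm]
          exact hzw n
      · refine Fin.cases ?_ (fun n => ?_) n
        · intro _
          rw [Fin.cons_zero, Fin.cons_succ, hP (hzD' m) hwD]
          exact hzw m
        · intro h
          rw [Fin.cons_succ, Fin.cons_succ, hP (hzD' m) (hzD' n)]
          exact hsep m n (fun h' => h (by rw [h']))

/-- cocompactness bounds the number of points at distance one from each other in unit balls -/
lemma exists_packing_bound (hcoc : Cocompact G X) : ∃ N : ℕ, ∀ (x : X) (z : Fin N → X),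
    (∀ m, dist x (z m) = 1) → ¬ ∀ m n, m ≠ n → 1 ≤ dist (z m) (z n) := by
  obtain ⟨K, hK, hcov⟩ := hcoc
  have hK1 : IsCompact (cthickening 1 K) := hK.cthickening
  obtain ⟨t, _, htfin, htcov⟩ := hK1.finite_cover_balls (e := 1 / 2) (by norm_num)
  classical
  refine ⟨htfin.toFinset.card + 1, ?_⟩
  intro x z hz hsep
  obtain ⟨g, hg⟩ := hcov x
  have hin : ∀ m, ∃ c ∈ htfin.toFinset, dist (g • z m) c < 1 / 2 := by
    intro m
    have h1 : g • z m ∈ cthickening 1 K := by
      refine mem_cthickening_of_dist_le _ (g • x) _ _ hg ?_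
      rw [dist_smul, dist_comm, hz m]
    obtain ⟨c, hc, hcm⟩ := mem_iUnion₂.mp (htcov h1)
    exact ⟨c, by simpa using hc, by simpa using hcm⟩
  choose c hc hdist using hin
  obtain ⟨m, _, n, _, hmn, heq⟩ := Finset.exists_ne_map_eq_of_card_lt_of_maps_to
    (s := Finset.univ) (t := htfin.toFinset) (f := c) (by simp) (fun m _ => hc m)
  have h1 := hsep m n hmn
  have h2 := dist_triangle_right (g • z m) (g • z n) (c m)
  have h3 := hdist m
  have h4 := hdist n
  rw [← heq] at h4
  rw [dist_smul] at h2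
  linarith

theorem exists_uniform {ι : Type*} [Preorder ι] [Nonempty ι] (H : ι → Subgroup G)
    (hmono : ∀ i j, i ≤ j → H j ≤ H i) (hcc : ∀ i, CCo X (H i)) (hcoc : Cocompact G X) :
    ∃ (i0 : ι) (R : ℝ), ∀ j, i0 ≤ j → ∀ D A B : Set X, IsMinl (H i0) D → IsMinl (H j) A →
      IsMinl (H j) B → A ⊆ D → B ⊆ D → ∀ a ∈ A, infDist a B ≤ R := by
  obtain ⟨N, hN⟩ := exists_packing_bound hcoc
  have hex : ∃ k : ℕ, ∃ i : ι, ¬ Dk X H k i := by
    refine ⟨N, Classical.arbitrary ι, ?_⟩
    intro hD
    obtain ⟨Z, hZ, hZne, hZc⟩ := hcc (Classical.arbitrary ι)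
    obtain ⟨D, _, hDm⟩ := (hcc (Classical.arbitrary ι)).exists_isMinl hZ hZne
    obtain ⟨x, _, z, hz, hsep⟩ := packing H N _ hD D hDm
    exact hN x z (fun m => (hz m).2) hsep
  classical
  obtain ⟨i0, hi0⟩ := Nat.find_spec hex
  have hmin : ∀ k < Nat.find hex, ∀ i, Dk X H k i := by
    intro k hk i
    by_contra hcon
    exact Nat.find_min hex hk ⟨i, hcon⟩
  obtain ⟨k', hk'⟩ : ∃ k', Nat.find hex = k' + 1 := by
    apply Nat.exists_eq_succ_of_ne_zero
    intro h0
    rw [h0] at hi0
    exact hi0 trivial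
  rw [hk'] at hi0
  have hi0' : ¬ ∀ r : ℝ, ∃ j, i0 ≤ j ∧ Dk X H k' j ∧ ∃ D A B : Set X, IsMinl (H i0) D ∧
      IsMinl (H j) A ∧ IsMinl (H j) B ∧ A ⊆ D ∧ B ⊆ D ∧ ∃ a ∈ A, r < infDist a B := hi0
  push Not at hi0'
  obtain ⟨r, hr⟩ := hi0'
  refine ⟨i0, r, ?_⟩
  intro j hj D A B hD hA hB hAD hBD a ha
  exact hr j hj (hmin k' (by omega) j) D A B hD hA hB hAD hBD a ha

end Pool.Agent.H29.RR
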