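import Pool.Agent.H29.RR.Lim
import Pool.Agent.H29.RR.Rank

/-!
# Positive systems
-/

open Set Filter Topology Metric
open Pool.Agent.H29 Pool.Agent.H74.CC

set_option linter.unusedSectionVars false

namespace Pool.Agent.H29.RR

variable {G X : Type*} [Group G] [MetricSpace X] [IsCAT0 X] [ProperSpace X]
  [MulAction G X] [IsIsometricSMul G X]

section Alg

variable {K : Subgroup G} {P : Set G}

lemma Le.refl (g : G) : Le P g g := Or.inl rfl

lemma PosSys.lt_trans (hP : PosSys K P) {f g h : G} (h1 : f⁻¹ * g ∈ P) (h2 : g⁻¹ * h ∈ P) :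
    f⁻¹ * h ∈ P := by
  have h3 := hP.mul _ h1 _ h2
  have e : f⁻¹ * g * (g⁻¹ * h) = f⁻¹ * h := by group
  rwa [e] at h3

lemma PosSys.lt_le (hP : PosSys K P) {f g h : G} (h1 : f⁻¹ * g ∈ P) (h2 : Le P g h) :
    f⁻¹ * h ∈ P := by
  rcases h2 with rfl | h2
  · exact h1
  · exact hP.lt_trans h1 h2

lemma PosSys.le_lt (hP : PosSys K P) {f g h : G} (h1 : Le P f g) (h2 : g⁻¹ * h ∈ P) :
    f⁻¹ * h ∈ P := by
  rcases h1 with rfl | h1
  · exact h2
  · exact hP.lt_trans h1 h2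

lemma PosSys.le_trans (hP : PosSys K P) {f g h : G} (h1 : Le P f g) (h2 : Le P g h) :
    Le P f h := by
  rcases h1 with rfl | h1
  · exact h2
  · exact Or.inr (hP.lt_le h1 h2)

lemma Le.mul_left {g h : G} (a : G) (hle : Le P g h) : Le P (a * g) (a * h) := by
  rcases hle with rfl | h1
  · exact Or.inl rfl
  · refine Or.inr ?_
    have e : (a * g)⁻¹ * (a * h) = g⁻¹ * h := by group
    rwa [e]

lemma Fx_smul (a g h : G) : Fx K P (a * g) (a * h) = cj (Fx K P g h) a := by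
  ext x
  rw [mem_cj, mem_Fx, mem_Fx]
  constructor
  · intro hx f h1 h2
    have h3 := hx (a * f) (h1.mul_left a) (h2.mul_left a)
    rw [mem_cj] at h3 ⊢
    have e : (a * f)⁻¹ * x * (a * f) = f⁻¹ * (a⁻¹ * x * a) * f := by group
    rwa [e] at h3
  · intro hx f h1 h2
    have h1' := h1.mul_left a⁻¹
    have h2' := h2.mul_left a⁻¹
    rw [inv_mul_cancel_left] at h1' h2'
    have h3 := hx (a⁻¹ * f) h1' h2'
    rw [mem_cj] at h3 ⊢
    have e : (a⁻¹ * f)⁻¹ * (a⁻¹ * x * a) * (a⁻¹ * f) = f⁻¹ * x * f := by group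
    rwa [e] at h3

lemma PosSys.Fx_mono (hP : PosSys K P) {g g' h h' : G} (h1 : Le P g' g) (h2 : Le P h h') :
    Fx K P g' h' ≤ Fx K P g h := by
  intro x hx
  rw [mem_Fx] at hx ⊢
  intro f hf1 hf2
  exact hx f (hP.le_trans h1 hf1) (hP.le_trans hf2 h2)

lemma Fx_le_left {g h : G} (hle : Le P g h) : Fx K P g h ≤ cj K g := by
  intro x hx
  rw [mem_Fx] at hx
  exact hx g (Le.refl g) hle

lemma Fx_le_right {g h : G} (hle : Le P g h) : Fx K P g h ≤ cj K h := by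
  intro x hx
  rw [mem_Fx] at hx
  exact hx h hle (Le.refl h)

lemma cj_one : cj K 1 = K := by
  ext x
  rw [mem_cj]
  simp

lemma cj_cj (a b : G) : cj (cj K b) a = cj K (a * b) := by
  ext x
  rw [mem_cj, mem_cj, mem_cj]
  have e : b⁻¹ * (a⁻¹ * x * a) * b = (a * b)⁻¹ * x * (a * b) := by group
  rw [e]

lemma cj_inf (H H' : Subgroup G) (a : G) : cj (H ⊓ H') a = cj H a ⊓ cj H' a := by
  ext x
  rw [mem_cj, Subgroup.mem_inf, Subgroup.mem_inf, mem_cj, mem_cj]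

lemma PosSys.relIndex_Fx (hP : PosSys K P) {g h : G} (hle : Le P g h) :
    (Fx K P g h).relIndex (cj K g ⊓ cj K h) ≠ 0 := by
  have key : ∀ g h : G, g⁻¹ * h ∈ P → (Fx K P g h).relIndex (cj K g ⊓ cj K h) ≠ 0 := by
    intro g h hp
    have h1 : (cj (Fx K P 1 (g⁻¹ * h)) g).relIndex (cj (K ⊓ cj K (g⁻¹ * h)) g) ≠ 0 := by
      rw [relIndex_conj g]
      exact hP.virt _ hp
    have e1 : cj (Fx K P 1 (g⁻¹ * h)) g = Fx K P g h := by
      rw [← Fx_smul, mul_one, mul_inv_cancel_left]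
    have e2 : cj (K ⊓ cj K (g⁻¹ * h)) g = cj K g ⊓ cj K h := by
      rw [cj_inf, cj_cj, mul_inv_cancel_left]
    rwa [e1, e2] at h1
  rcases hle with rfl | hp
  · by_cases h1 : (1 : G) ∈ P
    · apply key
      rwa [inv_mul_cancel]
    · have h2 : cj K g ⊓ cj K g ≤ Fx K P g g := by
        rw [inf_idem]
        intro x hx
        rw [mem_Fx]
        intro f hf1 hf2
        rcases hf1 with rfl | hf1
        · exact hx
        · exfalso
          apply h1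
          have h3 := hP.lt_le hf1 hf2
          rwa [inv_mul_cancel] at h3
      rw [Subgroup.relIndex_eq_one.2 h2]
      exact one_ne_zero
  · exact key g h hp

/-- the reversed system -/
lemma PosSys.rev (hP : PosSys K P) : PosSys K {g | g⁻¹ ∈ P} := by
  have hle : ∀ g h : G, Le {g | g⁻¹ ∈ P} g h ↔ Le P h g := by
    intro g h
    unfold Le
    have e : (g⁻¹ * h ∈ {g | g⁻¹ ∈ P}) ↔ h⁻¹ * g ∈ P := by
      show (g⁻¹ * h)⁻¹ ∈ P ↔ h⁻¹ * g ∈ P
      rw [mul_inv_rev, inv_inv]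
    rw [e]
    exact or_congr ⟨fun h => h.symm, fun h => h.symm⟩ Iff.rfl
  have hFx : ∀ g h : G, Fx K {g | g⁻¹ ∈ P} g h = Fx K P h g := by
    intro g h
    ext x
    rw [mem_Fx, mem_Fx]
    constructor
    · intro hx f h1 h2
      exact hx f ((hle _ _).2 h2) ((hle _ _).2 h1)
    · intro hx f h1 h2
      exact hx f ((hle _ _).1 h2) ((hle _ _).1 h1)
  refine ⟨?_, ?_, ?_, ?_, ?_⟩
  · obtain ⟨p, hp⟩ := hP.ne
    refine ⟨p⁻¹, ?_⟩
    show p⁻¹⁻¹ ∈ P
    rwa [inv_inv]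
  · intro p hp q hq
    show (p * q)⁻¹ ∈ P
    rw [mul_inv_rev]
    exact hP.mul _ hq _ hp
  · intro k hk p hp
    show (k * p)⁻¹ ∈ P
    rw [mul_inv_rev]
    exact hP.right _ (K.inv_mem hk) _ hp
  · intro k hk p hp
    show (p * k)⁻¹ ∈ P
    rw [mul_inv_rev]
    exact hP.left _ (K.inv_mem hk) _ hp
  · intro p hp
    have hp' : p⁻¹ ∈ P := hp
    rw [hFx]
    have h1 := hP.relIndex_Fx (g := p) (h := 1) (Or.inr (by rwa [mul_one]))
    rwa [cj_one, inf_comm] at h1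

/-- powers -/
lemma PosSys.pow (hP : PosSys K P) {u : G} (hu : u ∈ P) (n : ℕ) : u ^ (n + 1) ∈ P := by
  induction n with
  | zero => rwa [zero_add, pow_one]
  | succ n ih =>
    rw [pow_succ]
    exact hP.mul _ ih _ hu

end Alg

variable [ProperlyDiscontinuousSMul G X] {K : Subgroup G} {P : Set G}

lemma PosSys.CCo_Fx (hP : PosSys K P) (hK : CCo X K) {g h : G} (hle : Le P g h) :
    CCo X (Fx K P g h) :=
  ((hK.conj g).inf (hK.conj h)).finiteIndex (le_inf (Fx_le_left hle) (Fx_le_right hle))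
    (hP.relIndex_Fx hle)

lemma PosSys.lim_Fx (hP : PosSys K P) {g h : G} (hle : Le P g h) {ρ : ℝ → X}
    (h1 : Lim (cj K g) ρ) (h2 : Lim (cj K h) ρ) : Lim (Fx K P g h) ρ :=
  (h1.inf h2).finiteIndex (hP.relIndex_Fx hle)

lemma PosSys.lim_btw (hP : PosSys K P) {g f h : G} (hgf : Le P g f) (hfh : Le P f h)
    {ρ : ℝ → X} (h1 : Lim (cj K g) ρ) (h2 : Lim (cj K h) ρ) : Lim (cj K f) ρ := by
  apply (hP.lim_Fx (hP.le_trans hgf hfh) h1 h2).mono
  intro x hx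
  rw [mem_Fx] at hx
  exact hx f hgf hfh

/-- Some segment of a positive system has uniformly close minimal sets. -/
theorem exists_unif (hcoc : Cocompact G X) (hP : PosSys K P) (hK : CCo X K) :
    ∃ (p0 : G) (Y : Set X) (R : ℝ), Unif K P p0 Y R := by
  letI : Preorder {q : G × G // q.1⁻¹ * q.2 ∈ P} :=
    { le := fun q r => Le P r.1.1 q.1.1 ∧ Le P q.1.2 r.1.2
      le_refl := fun q => ⟨Le.refl _, Le.refl _⟩
      le_trans := fun q r s h1 h2 => ⟨hP.le_trans h2.1 h1.1, hP.le_trans h1.2 h2.2⟩ }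
  haveI : Nonempty {q : G × G // q.1⁻¹ * q.2 ∈ P} := by
    obtain ⟨p, hp⟩ := hP.ne
    exact ⟨⟨(1, p), by rwa [inv_one, one_mul]⟩⟩
  obtain ⟨i0, R, hR⟩ := exists_uniform (X := X)
    (fun q : {q : G × G // q.1⁻¹ * q.2 ∈ P} => Fx K P q.1.1 q.1.2)
    (fun i j (hij : Le P j.1.1 i.1.1 ∧ Le P i.1.2 j.1.2) => hP.Fx_mono hij.1 hij.2) (fun i => hP.CCo_Fx hK (Or.inr i.2)) hcoc
  obtain ⟨⟨g0, h0⟩, hp0⟩ := i0
  have hp0' : g0⁻¹ * h0 ∈ P := hp0
  have hX : (univ : Set X).Nonempty := by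
    obtain ⟨Z, _, hne, _⟩ := hK
    exact hne.mono (subset_univ Z)
  have hle1 : Le P 1 (g0⁻¹ * h0) := Or.inr (by rwa [inv_one, one_mul])
  obtain ⟨Y, _, hY⟩ := (hP.CCo_Fx hK hle1).exists_isMinl (isNC_univ _) hX
  refine ⟨g0⁻¹ * h0, Y, R, hP, hK, hp0', hY, ?_⟩
  intro g h hg hh A B hA hB hAY hBY a ha
  have hgh : (g0 * g)⁻¹ * (g0 * h) ∈ P := by
    have e : (g0 * g)⁻¹ * (g0 * h) = g⁻¹ * h := by group
    rw [e]
    apply hP.le_lt hg
    exact hP.lt_le (by rwa [inv_one, one_mul]) hh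
  have hj : (⟨(g0, h0), hp0⟩ : {q : G × G // q.1⁻¹ * q.2 ∈ P}) ≤ ⟨(g0 * g, g0 * h), hgh⟩ := by
    refine ⟨?_, ?_⟩
    · have h1 := hg.mul_left g0
      rwa [mul_one] at h1
    · have h1 := hh.mul_left g0
      rwa [mul_inv_cancel_left] at h1
  have e0 : cj (Fx K P 1 (g0⁻¹ * h0)) g0 = Fx K P g0 h0 := by
    rw [← Fx_smul, mul_one, mul_inv_cancel_left]
  have hD : IsMinl (Fx K P g0 h0) ((fun x => g0 • x) '' Y) := by
    have h1 : IsMinl (cj (Fx K P 1 (g0⁻¹ * h0)) g0) ((fun x => g0 • x) '' Y) := isMinl_smul hY g0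
    rwa [e0] at h1
  have hA' : IsMinl (Fx K P (g0 * g) (g0 * h)) ((fun x => g0 • x) '' A) := by
    rw [Fx_smul]
    exact isMinl_smul hA g0
  have hB' : IsMinl (Fx K P (g0 * g) (g0 * h)) ((fun x => g0 • x) '' B) := by
    rw [Fx_smul]
    exact isMinl_smul hB g0
  have h1 := hR _ hj _ _ _ hD hA' hB' (image_mono hAY) (image_mono hBY) (g0 • a) ⟨a, ha, rfl⟩
  rwa [infDist_smul'] at h1

/-- the uniform bound, translated -/
lemma Unif.infDist_le {p0 : G} {Y : Set X} {R : ℝ} (h : Unif K P p0 Y R) {g f k : G}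
    (h1 : Le P g f) (h2 : Le P (f * p0) k) {A B : Set X} (hA : IsMinl (Fx K P g k) A)
    (hB : IsMinl (Fx K P g k) B) (hAY : A ⊆ (fun x => f • x) '' Y)
    (hBY : B ⊆ (fun x => f • x) '' Y) : ∀ a ∈ A, infDist a B ≤ R := by
  intro a ha
  have h1' := h1.mul_left f⁻¹
  rw [inv_mul_cancel] at h1'
  have h2' := h2.mul_left f⁻¹
  rw [inv_mul_cancel_left] at h2'
  have hA' : IsMinl (Fx K P (f⁻¹ * g) (f⁻¹ * k)) ((fun x => f⁻¹ • x) '' A) := by
    rw [Fx_smul]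
    exact isMinl_smul hA f⁻¹
  have hB' : IsMinl (Fx K P (f⁻¹ * g) (f⁻¹ * k)) ((fun x => f⁻¹ • x) '' B) := by
    rw [Fx_smul]
    exact isMinl_smul hB f⁻¹
  have hsub : ∀ C : Set X, C ⊆ (fun x => f • x) '' Y → (fun x => f⁻¹ • x) '' C ⊆ Y := by
    rintro C hC _ ⟨y, hy, rfl⟩
    obtain ⟨z, hz, rfl⟩ := hC hy
    show f⁻¹ • f • z ∈ Y
    rwa [inv_smul_smul]
  have h3 := h.unif _ _ h1' h2' _ _ hA' hB' (hsub A hAY) (hsub B hBY) (f⁻¹ • a) ⟨a, ha, rfl⟩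
  rwa [infDist_smul'] at h3

end Pool.Agent.H29.RR
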