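import Pool.Agent.H29.RR.CCo

/-!
# Asymptotic rays
-/

open Set Filter Topology Metric
open Pool.Agent.H29 Pool.Agent.H74.CC

set_option linter.unusedSectionVars false

namespace Pool.Agent.H29.RR

section NoAction

variable {X : Type*} [MetricSpace X]

lemma Asym.refl (ρ : ℝ → X) : Asym ρ ρ := ⟨0, fun t _ => (dist_self _).le⟩

lemma Asym.symm {ρ σ : ℝ → X} (h : Asym ρ σ) : Asym σ ρ := by
  obtain ⟨M, hM⟩ := h
  exact ⟨M, fun t ht => by rw [dist_comm]; exact hM t ht⟩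

lemma Asym.trans {ρ σ τ : ℝ → X} (h : Asym ρ σ) (h' : Asym σ τ) : Asym ρ τ := by
  obtain ⟨M, hM⟩ := h
  obtain ⟨M', hM'⟩ := h'
  exact ⟨M + M', fun t ht => (dist_triangle _ _ _).trans (add_le_add (hM t ht) (hM' t ht))⟩

lemma Asym.of_dist {ρ σ ρ' σ' : ℝ → X} (h : Asym ρ σ) (h1 : Asym ρ ρ') (h2 : Asym σ σ') :
    Asym ρ' σ' := (h1.symm.trans h).trans h2

variable [IsCAT0 X]

lemma ray_pt {ρ : ℝ → X} (hρ : IsRay ρ) {T l : ℝ} (hT : 0 ≤ T) (hl : l ∈ Icc (0 : ℝ) 1) :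
    ρ (l * T) = pt (ρ 0) (ρ T) l := by
  have h1 : 0 ≤ l * T := mul_nonneg hl.1 hT
  apply eq_pt hl
  · rw [hρ _ _ le_rfl h1, hρ _ _ le_rfl hT, zero_sub, zero_sub, abs_neg, abs_neg,
      abs_of_nonneg h1, abs_of_nonneg hT]
  · rw [hρ _ _ h1 hT, hρ _ _ le_rfl hT, zero_sub, abs_neg, abs_of_nonneg hT]
    have : l * T - T = -((1 - l) * T) := by ring
    rw [this, abs_neg, abs_of_nonneg (mul_nonneg (by linarith [hl.2]) hT)]

/-- a convex function bounded along a ray does not increase along the ray -/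
lemma _root_.Pool.Agent.H29.IsRay.bdd_le {ρ : ℝ → X} (hρ : IsRay ρ) {f : X → ℝ} (hf : GConvexFun f) {M : ℝ}
    (hM : ∀ t, 0 ≤ t → f (ρ t) ≤ M) : ∀ t, 0 ≤ t → f (ρ t) ≤ f (ρ 0) := by
  intro t ht
  by_contra hcon
  push Not at hcon
  have htpos : 0 < t := by
    rcases eq_or_lt_of_le ht with h | h
    · rw [← h] at hcon
      exact absurd hcon (lt_irrefl _)
    · exact h
  set ε := f (ρ t) - f (ρ 0) with hε
  have hεpos : 0 < ε := by linarith
  obtain ⟨n, hn⟩ := exists_nat_gt ((M - f (ρ 0)) / ε)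
  rw [div_lt_iff₀ hεpos] at hn
  have hn1 : (1 : ℝ) ≤ (n : ℝ) + 1 := by linarith [(Nat.cast_nonneg n : (0 : ℝ) ≤ n)]
  have hnpos : (0 : ℝ) < (n : ℝ) + 1 := by linarith
  have hT : 0 ≤ ((n : ℝ) + 1) * t := by positivity
  have hl : 1 / ((n : ℝ) + 1) ∈ Icc (0 : ℝ) 1 := by
    constructor
    · positivity
    · rw [div_le_one hnpos]
      exact hn1
  have h1 := ray_pt hρ hT hl
  have e : 1 / ((n : ℝ) + 1) * (((n : ℝ) + 1) * t) = t := by field_simp
  rw [e] at h1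
  have h2 := hf (ρ 0) (ρ (((n : ℝ) + 1) * t)) _ hl
  rw [← h1] at h2
  have h3 := hM _ hT
  have h4 : f (ρ t) ≤ (1 - 1 / ((n : ℝ) + 1)) * f (ρ 0) + 1 / ((n : ℝ) + 1) * M :=
    h2.trans (by linarith [mul_le_mul_of_nonneg_left h3 hl.1])
  have h5 : ε * ((n : ℝ) + 1) ≤ M - f (ρ 0) := by
    have h6 : ε ≤ 1 / ((n : ℝ) + 1) * (M - f (ρ 0)) := by
      rw [hε]; linarith
    calc ε * ((n : ℝ) + 1) ≤ 1 / ((n : ℝ) + 1) * (M - f (ρ 0)) * ((n : ℝ) + 1) :=
          mul_le_mul_of_nonneg_right h6 hnpos.le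
      _ = M - f (ρ 0) := by field_simp
  nlinarith

lemma Asym.dist_le {ρ σ : ℝ → X} (h : Asym ρ σ) (hρ : IsRay ρ) (hσ : IsRay σ) :
    ∀ t, 0 ≤ t → dist (ρ t) (σ t) ≤ dist (ρ 0) (σ 0) := by
  obtain ⟨M, hM⟩ := h
  intro t ht
  rcases eq_or_lt_of_le ht with h0 | htpos
  · rw [← h0]
  apply le_of_forall_pos_le_add
  intro ε hε
  -- a large time
  obtain ⟨n, hn⟩ := exists_nat_gt (M / ε)
  rw [div_lt_iff₀ hε] at hn
  have hnpos : (0 : ℝ) < (n : ℝ) + 1 := by positivity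
  have hT : 0 ≤ ((n : ℝ) + 1) * t := by positivity
  have hl : 1 / ((n : ℝ) + 1) ∈ Icc (0 : ℝ) 1 := by
    constructor
    · positivity
    · rw [div_le_one hnpos]
      linarith [(Nat.cast_nonneg n : (0 : ℝ) ≤ n)]
  have e : 1 / ((n : ℝ) + 1) * (((n : ℝ) + 1) * t) = t := by field_simp
  have h1 := ray_pt hρ hT hl
  have h2 := ray_pt hσ hT hl
  rw [e] at h1 h2
  have h3 := dist_pt_pt_le (ρ 0) (ρ (((n : ℝ) + 1) * t)) (σ 0) (σ (((n : ℝ) + 1) * t)) hl
  rw [← h1, ← h2] at h3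
  have h4 := hM _ hT
  have h5 : 1 / ((n : ℝ) + 1) * dist (ρ (((n : ℝ) + 1) * t)) (σ (((n : ℝ) + 1) * t)) ≤ ε := by
    calc _ ≤ 1 / ((n : ℝ) + 1) * M := mul_le_mul_of_nonneg_left h4 hl.1
      _ ≤ ε := by
        rw [one_div_mul_eq_div, div_le_iff₀ hnpos]
        nlinarith
  have h6 : (1 - 1 / ((n : ℝ) + 1)) * dist (ρ 0) (σ 0) ≤ dist (ρ 0) (σ 0) := by
    have := mul_nonneg hl.1 (dist_nonneg (x := ρ 0) (y := σ 0))
    linarith
  linarith

/-- rays from one point which stay close converge -/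
theorem tendsto_ray {α : Type*} {l : Filter α} {ρ : α → ℝ → X} {σ : ℝ → X}
    (hρ : ∀ᶠ a in l, IsRay (ρ a) ∧ ρ a 0 = σ 0) (hσ : IsRay σ) (M : ℝ)
    (hM : ∀ s, 0 ≤ s → ∀ᶠ a in l, dist (ρ a s) (σ s) ≤ M) :
    ∀ t, 0 ≤ t → Tendsto (fun a => ρ a t) l (𝓝 (σ t)) := by
  intro t ht
  rw [Metric.tendsto_nhds]
  intro ε hε
  obtain ⟨n, hn⟩ := exists_nat_gt (M / ε)
  rw [div_lt_iff₀ hε] at hn
  have hnpos : (0 : ℝ) < (n : ℝ) + 1 := by positivity
  have hT : 0 ≤ ((n : ℝ) + 1) * t := by positivity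
  have hl : 1 / ((n : ℝ) + 1) ∈ Icc (0 : ℝ) 1 := by
    constructor
    · positivity
    · rw [div_le_one hnpos]
      linarith [(Nat.cast_nonneg n : (0 : ℝ) ≤ n)]
  have e : 1 / ((n : ℝ) + 1) * (((n : ℝ) + 1) * t) = t := by field_simp
  filter_upwards [hρ, hM _ hT] with a ha ha2
  have h1 := ray_pt ha.1 hT hl
  have h2 := ray_pt hσ hT hl
  rw [e] at h1 h2
  rw [h1, h2, ha.2]
  refine lt_of_le_of_lt (dist_pt_pt_left_le _ _ _ hl) ?_
  calc 1 / ((n : ℝ) + 1) * dist (ρ a (((n : ℝ) + 1) * t)) (σ (((n : ℝ) + 1) * t))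
      ≤ 1 / ((n : ℝ) + 1) * M := mul_le_mul_of_nonneg_left ha2 hl.1
    _ < ε := by
      rw [one_div_mul_eq_div, div_lt_iff₀ hnpos]
      nlinarith

variable [ProperSpace X]

theorem exists_ray_from {ρ : ℝ → X} (hρ : IsRay ρ) (p : X) :
    ∃ σ : ℝ → X, IsRay σ ∧ σ 0 = p ∧ Asym ρ σ := by
  set U : Ultrafilter ℕ := Filter.hyperfilter ℕ with hU
  have hUle : (U : Filter ℕ) ≤ atTop := by
    rw [← Nat.cofinite_eq_atTop]
    exact Filter.hyperfilter_le_cofinite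
  set s : ℕ → ℝ → X := fun n t => pt p (ρ n) (max t 0 / n) with hs
  have hI : ∀ t : ℝ, ∀ᶠ n : ℕ in atTop, 0 < (n : ℝ) ∧ max t 0 / n ∈ Icc (0 : ℝ) 1 := by
    intro t
    have h1 : ∀ᶠ n : ℕ in atTop, max t 0 + 1 ≤ (n : ℝ) :=
      tendsto_natCast_atTop_atTop.eventually_ge_atTop _
    filter_upwards [h1] with n hn
    have h2 : 0 ≤ max t 0 := le_max_right _ _
    have h3 : (0 : ℝ) < n := by linarith
    refine ⟨h3, div_nonneg h2 h3.le, ?_⟩
    rw [div_le_one h3]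
    linarith
  -- distance to the given ray
  have hdist : ∀ t : ℝ, 0 ≤ t → ∀ᶠ n : ℕ in atTop, dist (s n t) (ρ t) ≤ dist p (ρ 0) := by
    intro t ht
    filter_upwards [hI t] with n hn
    rw [max_eq_left ht] at hn
    have h1 := ray_pt hρ hn.1.le hn.2
    rw [div_mul_cancel₀ _ hn.1.ne'] at h1
    simp only [hs, max_eq_left ht]
    rw [h1]
    have h2 := dist_pt_pt_le p (ρ n) (ρ 0) (ρ n) hn.2
    rw [dist_self, mul_zero, add_zero] at h2
    refine h2.trans ?_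
    have := mul_nonneg hn.2.1 (dist_nonneg (x := p) (y := ρ 0))
    linarith
  obtain ⟨σ, hσ⟩ := exists_limit_map U s p (by
    intro t
    refine ⟨dist p (ρ (max t 0)) + dist p (ρ 0), hUle ?_⟩
    filter_upwards [hdist (max t 0) (le_max_right _ _)] with n hn
    have e : s n t = s n (max t 0) := by
      simp only [hs]
      rw [max_eq_left (le_max_right t 0)]
    rw [e]
    calc dist (s n (max t 0)) p ≤ dist (s n (max t 0)) (ρ (max t 0)) + dist (ρ (max t 0)) p :=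
          dist_triangle _ _ _
      _ ≤ dist p (ρ (max t 0)) + dist p (ρ 0) := by rw [dist_comm (ρ (max t 0)) p]; linarith)
  have hlim : Tendsto (fun n : ℕ => dist p (ρ n) / n) atTop (𝓝 1) := by
    have h1 : ∀ᶠ n : ℕ in atTop, 1 - dist p (ρ 0) / n ≤ dist p (ρ n) / n := by
      filter_upwards [eventually_gt_atTop 0] with n hn
      have hn' : (0 : ℝ) < n := by exact_mod_cast hn
      rw [le_div_iff₀ hn']
      have h2 := dist_triangle (ρ 0) p (ρ n)
      rw [hρ 0 n le_rfl hn'.le, zero_sub, abs_neg, abs_of_pos hn', dist_comm (ρ 0) p] at h2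
      have : (1 - dist p (ρ 0) / n) * n = n - dist p (ρ 0) := by field_simp
      linarith
    have h2 : ∀ᶠ n : ℕ in atTop, dist p (ρ n) / n ≤ 1 + dist p (ρ 0) / n := by
      filter_upwards [eventually_gt_atTop 0] with n hn
      have hn' : (0 : ℝ) < n := by exact_mod_cast hn
      rw [div_le_iff₀ hn']
      have h2 := dist_triangle p (ρ 0) (ρ n)
      rw [hρ 0 n le_rfl hn'.le, zero_sub, abs_neg, abs_of_pos hn'] at h2
      have : (1 + dist p (ρ 0) / n) * n = n + dist p (ρ 0) := by field_simp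
      linarith
    have h3 : Tendsto (fun n : ℕ => dist p (ρ 0) / (n : ℝ)) atTop (𝓝 0) :=
      tendsto_natCast_atTop_atTop.const_div_atTop _
    have h4 : Tendsto (fun n : ℕ => 1 - dist p (ρ 0) / (n : ℝ)) atTop (𝓝 (1 - 0)) :=
      tendsto_const_nhds.sub h3
    have h5 : Tendsto (fun n : ℕ => 1 + dist p (ρ 0) / (n : ℝ)) atTop (𝓝 (1 + 0)) :=
      tendsto_const_nhds.add h3
    rw [sub_zero] at h4
    rw [add_zero] at h5
    exact tendsto_of_tendsto_of_tendsto_of_le_of_le' h4 h5 h1 h2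
  refine ⟨σ, ?_, ?_, ?_⟩
  · intro a b ha hb
    have h1 : Tendsto (fun n => dist (s n a) (s n b)) U (𝓝 (dist (σ a) (σ b))) :=
      (hσ a).dist (hσ b)
    have h2 : Tendsto (fun n : ℕ => |a - b| * (dist p (ρ n) / n)) U (𝓝 (|a - b| * 1)) :=
      (tendsto_const_nhds.mul hlim).mono_left hUle
    rw [mul_one] at h2
    apply tendsto_nhds_unique h1
    apply h2.congr'
    apply hUle
    filter_upwards [hI a, hI b] with n hna hnb
    rw [max_eq_left ha] at hna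
    rw [max_eq_left hb] at hnb
    simp only [hs, max_eq_left ha, max_eq_left hb]
    rw [dist_pt_pt _ _ hna.2 hnb.2, ← sub_div, abs_div, abs_of_pos hna.1]
    ring
  · have h1 := hσ 0
    have h2 : (fun n => s n 0) = fun _ => p := by
      funext n
      simp [hs]
    rw [h2] at h1
    exact tendsto_nhds_unique h1 tendsto_const_nhds
  · refine ⟨dist p (ρ 0), fun t ht => ?_⟩
    have h1 : Tendsto (fun n => dist (ρ t) (s n t)) U (𝓝 (dist (ρ t) (σ t))) :=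
      tendsto_const_nhds.dist (hσ t)
    apply le_of_tendsto h1
    apply hUle
    filter_upwards [hdist t ht] with n hn
    rw [dist_comm]
    exact hn

theorem exists_ray_limit {α : Type*} (U : Ultrafilter α) {ρ : α → ℝ → X} {o : X}
    (hρ : ∀ᶠ a in (U : Filter α), IsRay (ρ a) ∧ ρ a 0 = o) :
    ∃ σ : ℝ → X, IsRay σ ∧ σ 0 = o ∧ ∀ t, 0 ≤ t → Tendsto (fun a => ρ a t) U (𝓝 (σ t)) := by
  obtain ⟨σ, hσ⟩ := exists_limit_map U (fun a t => ρ a (max t 0)) o (by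
    intro t
    refine ⟨max t 0, ?_⟩
    filter_upwards [hρ] with a ha
    rw [← ha.2, ha.1 _ _ (le_max_right _ _) le_rfl, sub_zero, abs_of_nonneg (le_max_right _ _)])
  have hσ' : ∀ t, 0 ≤ t → Tendsto (fun a => ρ a t) U (𝓝 (σ t)) := by
    intro t ht
    have := hσ t
    simpa only [max_eq_left ht] using this
  refine ⟨σ, ?_, ?_, hσ'⟩
  · intro s t hs ht
    have h1 : Tendsto (fun a => dist (ρ a s) (ρ a t)) U (𝓝 (dist (σ s) (σ t))) :=
      (hσ' s hs).dist (hσ' t ht)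
    apply tendsto_nhds_unique h1
    apply tendsto_const_nhds.congr'
    filter_upwards [hρ] with a ha
    exact (ha.1 s t hs ht).symm
  · apply tendsto_nhds_unique (hσ' 0 le_rfl)
    apply tendsto_const_nhds.congr'
    filter_upwards [hρ] with a ha
    exact ha.2.symm

end NoAction

variable {G X : Type*} [Group G] [MetricSpace X] [MulAction G X] [IsIsometricSMul G X]

lemma _root_.Pool.Agent.H29.IsRay.smul {ρ : ℝ → X} (hρ : IsRay ρ) (g : G) : IsRay (fun t => g • ρ t) := by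
  intro s t hs ht
  rw [dist_smul]
  exact hρ s t hs ht

lemma Asym.smul {ρ σ : ℝ → X} (h : Asym ρ σ) (g : G) :
    Asym (fun t => g • ρ t) (fun t => g • σ t) := by
  obtain ⟨M, hM⟩ := h
  exact ⟨M, fun t ht => by rw [dist_smul]; exact hM t ht⟩

end Pool.Agent.H29.RR
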