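import Pool.Agent.H29.RR.Exact

/-!
# From segments to stars
-/

open Set Filter Topology Metric
open Pool.Agent.H29 Pool.Agent.H74.CC

set_option linter.unusedSectionVars false

namespace Pool.Agent.H29.RR

variable {G X : Type*} [Group G] [MetricSpace X] [IsCAT0 X] [ProperSpace X]
  [MulAction G X] [IsIsometricSMul G X] [ProperlyDiscontinuousSMul G X]

lemma st_cj_one (K : Subgroup G) : cj K 1 = K := by
  ext h
  rw [mem_cj]
  simp

lemma st_cj_cj (K : Subgroup G) (a b : G) : cj (cj K a) b = cj K (b * a) := by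
  ext h
  rw [mem_cj, mem_cj, mem_cj]
  simp [mul_assoc]

lemma st_cj_inf (H H' : Subgroup G) (g : G) : cj (H ⊓ H') g = cj H g ⊓ cj H' g := by
  ext h
  simp only [mem_cj, Subgroup.mem_inf]

lemma st_cj_infinite {H : Subgroup G} (hH : (H : Set G).Infinite) (g : G) :
    ((cj H g : Subgroup G) : Set G).Infinite := by
  rw [Subgroup.coe_map]
  exact hH.image (MulEquiv.injective (MulAut.conj g)).injOn

variable (X) in
/-- left exact lines -/
structure LLine (K : Subgroup G) (P : Set G) (f : ℤ → G) : Prop where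
  lt : ∀ i j : ℤ, i < j → (f i)⁻¹ * f j ∈ P
  exact : ∀ ρ : ℝ → X, IsRay ρ → (∀ i : ℤ, i ≤ 0 → Lim (cj K (f i)) ρ) →
    ∀ i : ℤ, Lim (cj K (f i)) ρ
  neg : (f 0)⁻¹ ∈ P
  pos : f 1 ∈ P

lemma st_le_of_lt {P : Set G} {f : ℤ → G} (h : ∀ i j : ℤ, i < j → (f i)⁻¹ * f j ∈ P) {i j : ℤ}
    (hij : i ≤ j) : Le P (f i) (f j) := by
  rcases hij.eq_or_lt with rfl | hlt
  · exact Or.inl rfl
  · exact Or.inr (h i j hlt)

lemma st_le_one {P : Set G} {a : G} (h : a⁻¹ ∈ P) : Le P a 1 := by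
  refine Or.inr ?_
  rwa [mul_one]

lemma st_one_le {P : Set G} {a : G} (h : a ∈ P) : Le P 1 a := by
  refine Or.inr ?_
  rwa [inv_one, one_mul]

lemma exists_lline (hcoc : Cocompact G X) {K : Subgroup G} {P : Set G} (hP : PosSys K P)
    (hK : CCo X K) {a : G} (ha : a⁻¹ ∈ P) :
    ∃ f : ℤ → G, LLine X K P f ∧ (f 0)⁻¹ * a ∈ P := by
  have ha' : (1 : G)⁻¹ * a ∈ {g : G | g⁻¹ ∈ P} := by
    simpa using ha
  obtain ⟨f, hf, h0, h1⟩ := exists_eline hcoc hP.rev hK ha'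
  have h0' : f 0 ∈ P := by
    have : ((f 0)⁻¹ * 1)⁻¹ ∈ P := h0
    simpa using this
  have h1' : (f 1)⁻¹ * a ∈ P := by
    have : (a⁻¹ * f 1)⁻¹ ∈ P := h1
    simpa using this
  refine ⟨fun i => f (1 - i), ⟨?_, ?_, ?_, ?_⟩, ?_⟩
  · intro i j hij
    have : ((f (1 - j))⁻¹ * f (1 - i))⁻¹ ∈ P := hf.lt (1 - j) (1 - i) (by omega)
    simpa using this
  · intro ρ hρ h i
    refine hf.exact ρ hρ ?_ (1 - i)
    intro j hj
    have := h (1 - j) (by omega)
    simpa using this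
  · have := hP.lt_trans (f := f 1) (g := a) (h := 1) h1' (by rwa [mul_one])
    simpa using this
  · simpa using h0'
  · simpa using h1'

/-- The main induction. -/
theorem exists_ray_lines (hcoc : Cocompact G X) {K : Subgroup G} {P : Set G}
    (hP : PosSys K P) (hK : CCo X K)
    (hinf : ∀ p ∈ P, ((K ⊓ cj K p : Subgroup G) : Set G).Infinite) (o : X)
    (L : List (ℤ → G)) :
    (∀ h ∈ L, LLine X K P h) → ∀ ℓ : ℤ → G, ELine X K P ℓ → (ℓ 0)⁻¹ ∈ P → ℓ 1 ∈ P →
      ∃ ρ : ℝ → X, IsRay ρ ∧ ρ 0 = o ∧ Lim K ρ ∧ (∀ i, Lim (cj K (ℓ i)) ρ) ∧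
        ∀ h ∈ L, ∀ i, Lim (cj K (h i)) ρ := by
  induction L with
  | nil =>
    intro _ ℓ hℓ hneg hpos
    have hex : ∀ N : ℕ, ∃ ρ : ℝ → X, IsRay ρ ∧ ρ 0 = o ∧
        Lim (cj K (ℓ (-(N : ℤ) - 1)) ⊓ cj K (ℓ (N + 1))) ρ := by
      intro N
      apply exists_lim ((hK.conj _).inf (hK.conj _))
      have h := st_cj_infinite (hinf _ (hℓ.lt (-(N : ℤ) - 1) (N + 1) (by omega)))
        (ℓ (-(N : ℤ) - 1))
      rwa [st_cj_inf, st_cj_cj, mul_inv_cancel_left] at h
    choose η hη1 hη2 hη3 using hex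
    obtain ⟨σ, hσ, hσ0, hσt⟩ := exists_ray_limit (hyperfilter ℕ : Ultrafilter ℕ) (ρ := η) (o := o)
      (Eventually.of_forall fun N => ⟨hη1 N, hη2 N⟩)
    have key : ∀ i : ℤ, Lim (cj K (ℓ i)) σ := by
      intro i
      refine Lim.closed (hyperfilter ℕ : Ultrafilter ℕ) (hK.conj _) (ρ := η) ?_ hσt
      have hev : ∀ᶠ N : ℕ in (hyperfilter ℕ : Filter ℕ), i.natAbs ≤ N :=
        (eventually_ge_atTop i.natAbs).filter_mono (by
          rw [← Nat.cofinite_eq_atTop]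
          exact hyperfilter_le_cofinite)
      filter_upwards [hev] with N hN
      refine ⟨hη1 N, ?_⟩
      refine hP.lim_btw (g := ℓ (-(N : ℤ) - 1)) (h := ℓ (N + 1)) (st_le_of_lt hℓ.lt (by omega))
        (st_le_of_lt hℓ.lt (by omega)) ((hη3 N).mono inf_le_left) ((hη3 N).mono inf_le_right)
    refine ⟨σ, hσ, hσ0, ?_, key, by simp⟩
    have h1 := hP.lim_btw (f := 1) (st_le_one hneg) (st_one_le hpos) (key 0) (key 1)
    rwa [st_cj_one] at h1
  | cons h L ih =>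
    intro hL ℓ hℓ hneg hpos
    have hh : LLine X K P h := hL h (by simp)
    have hL' : ∀ g ∈ L, LLine X K P g := fun g hg => hL g (by simp [hg])
    -- the lines `h` and `ℓ` pass through `1`
    have hlow : ∀ i : ℤ, i ≤ 0 → (h i)⁻¹ ∈ P := by
      intro i hi
      have := hP.le_lt (f := h i) (g := h 0) (h := 1) (st_le_of_lt hh.lt hi)
        (by rw [mul_one]; exact hh.neg)
      simpa using this
    have hup : ∀ i : ℤ, 1 ≤ i → ℓ i ∈ P := by
      intro i hi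
      have := hP.lt_le (f := 1) (g := ℓ 1) (h := ℓ i) (by simpa using hpos)
        (st_le_of_lt hℓ.lt hi)
      simpa using this
    have hex : ∀ N : ℕ, ∃ ρ : ℝ → X, IsRay ρ ∧ ρ 0 = o ∧ Lim K ρ ∧
        (∀ g ∈ L, ∀ i, Lim (cj K (g i)) ρ) ∧ Lim (cj K (h (-(N : ℤ)))) ρ ∧
        Lim (cj K (ℓ (N + 1))) ρ := by
      intro N
      have h1 := hlow (-(N : ℤ)) (by omega)
      have h2 := hup (N + 1) (by omega)
      have h12 : (h (-(N : ℤ)))⁻¹ * ℓ (N + 1) ∈ P := hP.mul _ h1 _ h2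
      obtain ⟨f, hf, hf0, hf1⟩ := exists_eline hcoc hP hK h12
      have hf0' : (f 0)⁻¹ ∈ P := by
        have := hP.lt_trans (f := f 0) (g := h (-(N : ℤ))) (h := 1) hf0 (by rwa [mul_one])
        simpa using this
      have hf1' : f 1 ∈ P := by
        have := hP.lt_trans (f := 1) (g := ℓ (N + 1)) (h := f 1) (by simpa using h2) hf1
        simpa using this
      obtain ⟨ρ, hρ, hρ0, hρ1, hρ2, hρ3⟩ := ih hL' f hf hf0' hf1'
      refine ⟨ρ, hρ, hρ0, hρ1, hρ3, ?_, ?_⟩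
      · exact hP.lim_btw (g := f 0) (h := f 1) (Or.inr hf0)
          (hP.le_trans (Or.inr h12) (Or.inr hf1)) (hρ2 0) (hρ2 1)
      · exact hP.lim_btw (g := f 0) (h := f 1) (hP.le_trans (Or.inr hf0) (Or.inr h12))
          (Or.inr hf1) (hρ2 0) (hρ2 1)
    choose η hη1 hη2 hη3 hη4 hη5 hη6 using hex
    obtain ⟨σ, hσ, hσ0, hσt⟩ := exists_ray_limit (hyperfilter ℕ : Ultrafilter ℕ) (ρ := η) (o := o)
      (Eventually.of_forall fun N => ⟨hη1 N, hη2 N⟩)
    have hev : ∀ m : ℕ, ∀ᶠ N : ℕ in (hyperfilter ℕ : Filter ℕ), m ≤ N := fun m =>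
      (eventually_ge_atTop m).filter_mono (by
        rw [← Nat.cofinite_eq_atTop]
        exact hyperfilter_le_cofinite)
    have k1 : Lim K σ :=
      Lim.closed (hyperfilter ℕ : Ultrafilter ℕ) hK (ρ := η)
        (Eventually.of_forall fun N => ⟨hη1 N, hη3 N⟩) hσt
    have hη3' : ∀ N, Lim (cj K 1) (η N) := by
      intro N
      rw [st_cj_one]
      exact hη3 N
    have k2 : ∀ i : ℤ, Lim (cj K (h i)) σ := by
      refine hh.exact σ hσ ?_
      intro i hi
      refine Lim.closed (hyperfilter ℕ : Ultrafilter ℕ) (hK.conj _) (ρ := η) ?_ hσt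
      filter_upwards [hev i.natAbs] with N hN
      refine ⟨hη1 N, ?_⟩
      exact hP.lim_btw (g := h (-(N : ℤ))) (h := 1) (st_le_of_lt hh.lt (by omega))
        (st_le_one (hlow i hi)) (hη5 N) (hη3' N)
    have k3 : ∀ i : ℤ, Lim (cj K (ℓ i)) σ := by
      refine hℓ.exact σ hσ ?_
      intro i hi
      refine Lim.closed (hyperfilter ℕ : Ultrafilter ℕ) (hK.conj _) (ρ := η) ?_ hσt
      filter_upwards [hev i.natAbs] with N hN
      refine ⟨hη1 N, ?_⟩
      exact hP.lim_btw (g := 1) (h := ℓ (N + 1)) (st_one_le (hup i hi))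
        (st_le_of_lt hℓ.lt (by omega)) (hη3' N) (hη6 N)
    refine ⟨σ, hσ, hσ0, k1, k3, ?_⟩
    intro g hg i
    rcases List.mem_cons.1 hg with rfl | hg'
    · exact k2 i
    · exact Lim.closed (hyperfilter ℕ : Ultrafilter ℕ) (hK.conj _) (ρ := η)
        (Eventually.of_forall fun N => ⟨hη1 N, hη4 N g hg' i⟩) hσt

lemma st_lim_KF {K : Subgroup G} {ρ : ℝ → X} (hK : Lim K ρ) (F : Finset G)
    (h : ∀ a ∈ F, Lim (cj K a) ρ) : Lim (K ⊓ KF K F) ρ := by
  classical
  induction F using Finset.induction_on with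
  | empty =>
    have : K ⊓ KF K ∅ = K := by
      ext g
      rw [Subgroup.mem_inf, mem_KF]
      simp
    rw [this]
    exact hK
  | insert a s ha ih =>
    have : K ⊓ KF K (insert a s) = (K ⊓ KF K s) ⊓ cj K a := by
      ext g
      rw [Subgroup.mem_inf, Subgroup.mem_inf, Subgroup.mem_inf, mem_KF, mem_KF]
      simp only [Finset.mem_insert, forall_eq_or_imp]
      tauto
    rw [this]
    exact (ih fun b hb => h b (Finset.mem_insert_of_mem hb)).inf
      (h a (Finset.mem_insert_self _ _))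

/-- If the intersection of `K` with each of its conjugates by elements of `P` is infinite, then so
are the finite intersections of `K` with conjugates by elements of `P⁻¹`. -/
theorem infinite_star [Nonempty X] (hcoc : Cocompact G X) {K : Subgroup G} {P : Set G}
    (hP : PosSys K P) (hK : CCo X K)
    (hinf : ∀ p ∈ P, ((K ⊓ cj K p : Subgroup G) : Set G).Infinite)
    (F : Finset G) (hF : ∀ a ∈ F, a⁻¹ ∈ P) : ((K ⊓ KF K F : Subgroup G) : Set G).Infinite := by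
  obtain ⟨o⟩ := ‹Nonempty X›
  obtain ⟨p, hp⟩ := hP.ne
  -- a right exact line through `1`
  have hpp : (p⁻¹)⁻¹ * p ∈ P := by
    rw [inv_inv]
    exact hP.mul p hp p hp
  obtain ⟨ℓ, hℓ, hℓ0, hℓ1⟩ := exists_eline hcoc hP hK hpp
  have hneg : (ℓ 0)⁻¹ ∈ P := by
    have := hP.lt_trans (f := ℓ 0) (g := p⁻¹) (h := 1) hℓ0 (by simpa using hp)
    simpa using this
  have hpos : ℓ 1 ∈ P := by
    have := hP.lt_trans (f := 1) (g := p) (h := ℓ 1) (by simpa using hp) hℓ1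
    simpa using this
  -- left exact lines
  have hex : ∀ a : G, ∃ f : ℤ → G, a ∈ F → LLine X K P f ∧ (f 0)⁻¹ * a ∈ P := by
    intro a
    by_cases ha : a ∈ F
    · obtain ⟨f, hf⟩ := exists_lline hcoc hP hK (hF a ha)
      exact ⟨f, fun _ => hf⟩
    · exact ⟨fun _ => 1, fun h => absurd h ha⟩
  choose f hf using hex
  obtain ⟨ρ, hρ, -, hρ1, -, hρ2⟩ := exists_ray_lines hcoc hP hK hinf o (F.toList.map f)
    (by
      intro h hh
      obtain ⟨a, ha, rfl⟩ := List.mem_map.1 hh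
      exact (hf a (Finset.mem_toList.1 ha)).1) ℓ hℓ hneg hpos
  refine (st_lim_KF hρ1 F ?_).infinite hρ
  intro a ha
  have h1 : Lim (cj K (f a 0)) ρ :=
    hρ2 (f a) (List.mem_map.2 ⟨a, Finset.mem_toList.2 ha, rfl⟩) 0
  exact hP.lim_btw (g := f a 0) (h := 1) (Or.inr (hf a ha).2) (st_le_one (hF a ha)) h1
    (by rw [st_cj_one]; exact hρ1)

end Pool.Agent.H29.RR
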