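import Pool.Agent.H29.RR.TreeThm

/-!
# Rank rigidity for convex cocompact splittings: actions on tree-like spaces

The first two statements are the versions for tree-like metrics of statements of
`Pool.Agent.H74.CD4` and `Pool.Agent.H74.CD5`.
-/

open Set Filter Topology Metric
open Pool.Agent.H29 Pool.Agent.H74.CC

set_option linter.unusedSectionVars false

namespace Pool.Agent.H29.RR.TL

section FixedEnd

variable {G V : Type*} [Group G] [MulAction G V] {d : V → V → ℕ} {τ : G} {x y : V}

/-- Without flips the group fixes an end, and the stabiliser of the segment is contained in the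
stabilisers of its translates towards this end. -/
theorem le_of_no_flip (hd : TreeLike d) (hiso : ∀ (g : G) v w, d (g • v) (g • w) = d v w)
    (h : TAx d τ x y) (hno : ∀ r : G, ¬ Flip d x y r) (g : G) :
    ∃ n0 : ℕ, ∀ n, n0 ≤ n → (stab2 x y : Subgroup G) ≤
      (stab2 x y : Subgroup G).map (MulAut.conj (g * (τ⁻¹) ^ n)).toMonoidHom := by
  set σ : G := τ⁻¹ with hσ
  have h' : TAx d σ y x := h.rev hd hiso
  set s : ℕ → V := fun n => σ ^ n • y with hs
  have hs0 : s 0 = y := by simp [hs]
  have hss : ∀ n m, n ≤ m → Bt d y (s n) (s m) := by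
    intro n m hnm
    induction m, hnm using Nat.le_induction with
    | base =>
      unfold Bt
      rw [hd.self]
      omega
    | succ m hm ih =>
      have h1 := h'.zpow hiso (m : ℤ)
      have h2 := (h'.dist_pow hd hiso m).1
      have h3 := h1.a1
      rw [zpow_natCast] at h3
      have e : σ • σ ^ m • y = s (m + 1) := by
        show σ • σ ^ m • y = σ ^ (m + 1) • y
        rw [smul_smul, ← pow_succ']
      rw [e] at h3
      have h4 : Bt d y (s m) (s (m + 1)) := by
        have hne : σ ^ m • y ≠ σ ^ m • x := fun he => h'.ne (MulAction.injective _ he)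
        exact (ord_of_bt hd h2 h3 hne).bt3 hd
      exact ih.trans_left hd h4
  have hsn : ∀ n, n ≤ d y (s n) := fun n => (h'.dist_pow hd hiso n).2
  -- the points `σ ^ n x` lie between `s n` and `s (n + 1)`
  have hxs : ∀ n, Bt d (s n) (σ ^ n • x) (s (n + 1)) := by
    intro n
    have h1 := (h'.zpow hiso (n : ℤ)).a1
    rw [zpow_natCast] at h1
    have e : σ • σ ^ n • y = s (n + 1) := by
      show σ • σ ^ n • y = σ ^ (n + 1) • y
      rw [smul_smul, ← pow_succ']
    rwa [e] at h1
  -- the translated points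
  have hC : ∀ (g : G) (n : ℕ), ∃ M, ∀ m, M ≤ m → Bt d y (s n) (g • s m) := by
    intro g n
    obtain ⟨M, hM⟩ := tax_exists_neg hd hiso h' (g⁻¹ • σ ^ n • x)
    refine ⟨M, fun m hm => ?_⟩
    have h1 := (hM m hm).smul hiso g
    rw [smul_inv_smul] at h1
    have h2 : ¬ Bt d (σ ^ n • x) (s n) (g • s m) := by
      intro hb
      apply hno (τ ^ n * (g * σ ^ m))
      have h3 : Pool.Agent.H74.CC.Ord d (σ ^ n • x) (σ ^ n • y) (g • σ ^ m • y) (g • σ ^ m • x) :=
        ord_of_bt' hb h1
      have h4 := h3.smul hiso (τ ^ n)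
      have e : ∀ v : V, τ ^ n • σ ^ n • v = v := by
        intro v
        rw [hσ, inv_pow, smul_inv_smul]
      rw [e, e] at h4
      show Pool.Agent.H74.CC.Ord d x y ((τ ^ n * (g * σ ^ m)) • y) ((τ ^ n * (g * σ ^ m)) • x)
      rw [mul_smul, mul_smul, mul_smul, mul_smul]
      exact h4
    have h5 : Bt d y (s n) (σ ^ n • x) := (h'.dist_pow hd hiso n).1
    have f := hd.four y (σ ^ n • x) (s n) (g • s m)
    have s1 := hd.symm (σ ^ n • x) (s n)
    have t := hd.tri (σ ^ n • x) (s n) (g • s m)
    have t2 := hd.tri y (s n) (g • s m)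
    unfold Bt at *
    omega
  -- the points `s n` lie between `g y` and far away points `g s m`
  have hE : ∀ g : G, ∀ n, d y (g • y) < n → ∃ M, ∀ m, M ≤ m → Bt d (g • y) (s n) (g • s m) := by
    intro g n hn
    obtain ⟨M, hM⟩ := hC g n
    refine ⟨M, fun m hm => ?_⟩
    have h1 := hM m hm
    have h2 := hsn n
    have f := hd.four y (g • s m) (g • y) (s n)
    have s1 := hd.symm (g • s m) (s n)
    have s2 := hd.symm (g • s m) (g • y)
    have t := hd.tri (g • y) (s n) (g • s m)
    unfold Bt at *
    omega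
  -- the stabiliser fixes all points `s n`
  have hfix : ∀ k ∈ (stab2 x y : Subgroup G), ∀ n, k • s n = s n := by
    intro k hk n
    have hky : k • y = y := hk.2
    have hpos : d y (k • y) < n + 1 := by rw [hky, hd.self]; omega
    obtain ⟨M, hM⟩ := hE k (n + 1) hpos
    set m := max M (n + 1) with hm
    have h1 := hM m (le_max_left _ _)
    rw [hky] at h1
    have h2 : Bt d y (k • s (n + 1)) (k • s m) := by
      have := (hss (n + 1) m (le_max_right _ _)).smul hiso k
      rwa [hky] at this
    have h3 : s (n + 1) = k • s (n + 1) := by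
      apply Bt.unique hd h1 h2
      have := hiso k y (s (n + 1))
      rw [hky] at this
      exact this.symm
    exact Bt.fix hd hiso (hss n (n + 1) (Nat.le_succ n)) hky h3.symm
  have hfixx : ∀ k ∈ (stab2 x y : Subgroup G), ∀ n, k • σ ^ n • x = σ ^ n • x := fun k hk n =>
    Bt.fix hd hiso (hxs n) (hfix k hk n) (hfix k hk (n + 1))
  -- far translates lie on the ray
  set n1 := d y (g • y) + 1 with hn1
  refine ⟨d (g • y) (s n1), fun n hn k hk => ?_⟩
  have key : ∀ v : V, ∀ n', d (g • y) (s n1) ≤ d y v → Bt d y v (s n') → k • g • v = g • v := by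
    intro v n' hv hvn
    -- `g v` lies between `s n1` and a point `s N`
    have h1 : Bt d (g • y) (g • v) (g • s n') := hvn.smul hiso g
    set N := max n1 (d (g • y) (g • s n') + d y (g • y) + 1) with hN
    obtain ⟨M, hM⟩ := hE g N (by
      have := le_max_left n1 (d (g • y) (g • s n') + d y (g • y) + 1)
      omega)
    obtain ⟨M', hM'⟩ := hE g n1 (by omega)
    set m := max (max M M') n' with hm
    have h2 := hM m ((le_max_left _ _).trans (le_max_left _ _))
    have h3 := hM' m ((le_max_right _ _).trans (le_max_left _ _))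
    have h4 := (hss n' m (le_max_right _ _)).smul hiso g
    have h5 : Bt d (g • y) (g • v) (g • s m) := (hvn.smul hiso g).trans_left hd h4
    have h6 := hsn N
    have h7 := le_max_right n1 (d (g • y) (g • s n') + d y (g • y) + 1)
    have t1 := hd.tri y (g • y) (s N)
    have e1 := hiso g y v
    -- order along the segment from `g y` to `g s m`
    have hseg : ∀ a b p : V, Bt d (g • y) a p → Bt d (g • y) b p → d (g • y) a ≤ d (g • y) b →
        Bt d (g • y) a b := by
      intro a b p h1 h2 h3
      have f := hd.four (g • y) p a b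
      have s1 := hd.symm p a
      have s2 := hd.symm p b
      have t := hd.tri (g • y) a b
      unfold Bt at *
      omega
    have h8 : Bt d (g • y) (s n1) (g • v) := hseg _ _ _ h3 h5 (by omega)
    have h9 : Bt d (g • y) (g • v) (s N) := hseg _ _ _ h5 h2 (by
      have h10 : d (g • y) (g • v) ≤ d (g • y) (g • s n') := by
        unfold Bt at h1
        omega
      omega)
    have h10 : Bt d (s n1) (g • v) (s N) := by
      have t2 := hd.tri (s n1) (g • v) (s N)
      have h11 : Bt d (g • y) (s n1) (s N) := h8.trans_left hd h9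
      unfold Bt at *
      omega
    exact Bt.fix hd hiso h10 (hfix k hk n1) (hfix k hk N)
  rw [map_stab]
  refine ⟨?_, ?_⟩
  · show k • (g * σ ^ n) • x = (g * σ ^ n) • x
    rw [mul_smul]
    have h1 : Bt d y (σ ^ n • x) (s (n + 1)) := by
      have h2 := (h'.dist_pow hd hiso n).1
      have hne : σ ^ n • y ≠ σ ^ n • x := fun he => h'.ne (MulAction.injective _ he)
      exact (ord_of_bt hd h2 (hxs n) hne).bt4 hd
    apply key _ (n + 1) _ h1
    have h2 := (h'.dist_pow hd hiso n).1
    have h3 := hsn n
    have h3' : n ≤ d y (σ ^ n • y) := h3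
    unfold Bt at h2
    omega
  · show k • (g * σ ^ n) • y = (g * σ ^ n) • y
    rw [mul_smul]
    apply key _ n _ (by
      unfold Bt
      rw [hd.self]
      rfl)
    have h3 := hsn n
    have h3' : n ≤ d y (σ ^ n • y) := h3
    omega

end FixedEnd

universe u

variable {G : Type*} {X : Type u} {V : Type*} [Group G] [MetricSpace X] [IsCAT0 X] [ProperSpace X]
  [MulAction G X] [IsIsometricSMul G X] [ProperlyDiscontinuousSMul G X] [MulAction G V]
  {d : V → V → ℕ}

lemma all_of_no_flip (hd : TreeLike d) (hiso : ∀ (g : G) v w, d (g • v) (g • w) = d v w)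
    {τ : G} {x y : V} (h : TAx d τ x y) (hno : ∀ r : G, ¬ Flip d x y r)
    {Y : Set X} (hY : IsNC (stab2 x y : Subgroup G) Y) (hYne : Y.Nonempty)
    (hYc : CocompactOn (stab2 x y : Subgroup G) Y) (g : G) : Cm (stab2 x y : Subgroup G) g := by
  set K : Subgroup G := stab2 x y with hK
  have key : ∀ w : G, K ≤ K.map (MulAut.conj w).toMonoidHom → Cm K w := by
    intro w hw
    have e1 : ∀ a : G, (K.map (MulAut.conj a⁻¹).toMonoidHom).map (MulAut.conj a).toMonoidHom = K := by
      intro a
      rw [map_conj_conj, mul_inv_cancel]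
      ext k
      rw [mem_map_conj]
      simp
    have h1 : K.map (MulAut.conj w⁻¹).toMonoidHom ≤ K := by
      have h2 := Subgroup.map_mono (f := (MulAut.conj w⁻¹).toMonoidHom) hw
      have e2 := e1 w⁻¹
      rw [inv_inv] at e2
      rwa [e2] at h2
    have h2 := cohopf hY hYne hYc h1
    have h3 := Subgroup.map_mono (f := (MulAut.conj w).toMonoidHom) h2
    rw [e1] at h3
    have h4 : K.map (MulAut.conj w).toMonoidHom = K := le_antisymm h3 hw
    unfold Cm
    rw [h4]
    exact comm2_refl K
  obtain ⟨n1, hn1⟩ := le_of_no_flip hd hiso h hno g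
  obtain ⟨n2, hn2⟩ := le_of_no_flip hd hiso h hno 1
  set n := max n1 n2 with hn
  have h1 := key _ (hn1 n (le_max_left _ _))
  have h2 := key _ (hn2 n (le_max_right _ _))
  rw [one_mul] at h2
  exact h2.of_mul_right h1

/-- Rank rigidity for groups acting on tree-like spaces with convex cocompact segment
stabilisers. -/
theorem rankOne_of_treeLike [Nonempty X] (hgc : GeodesicallyComplete X)
    (hcoc : Cocompact G X)
    (hirr : MetricIrreducible X) (hd : TreeLike d)
    (hiso : ∀ (g : G) v w, d (g • v) (g • w) = d v w)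
    (hfin : ∀ (σ : G) (z w : V), TAx d σ z w →
      {g : G | g • z = z ∧ g • w = w}.Finite → IsRankOne (X := X) σ) {τ : G} {x y : V}
    (h : TAx d τ x y) (hK : CCo X (stab2 x y : Subgroup G)) :
    ∃ g : G, IsRankOne (X := X) g := by
  by_cases hflip : ∃ r : G, Flip d x y r
  · obtain ⟨r, hr⟩ := hflip
    have hP := posSys_tree hd hiso h
    have hidx : (stab2 x y : Subgroup G).relIndex ⊤ = 0 := by
      by_contra hi
      rw [Subgroup.relIndex_top_right] at hi
      obtain ⟨n, hn, _, hn2⟩ := Subgroup.exists_pow_mem_of_index_ne_zero hi τ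
      have h1 : τ ^ n • x = x := hn2.1
      have h2 := (h.dist_pow hd hiso n).2
      rw [h1, hd.self] at h2
      omega
    obtain ⟨p, hp, hpf⟩ := exists_finite_segment hgc hcoc hirr hP hK hidx (by
      intro F
      obtain ⟨a, A, hA, hle⟩ := cover_tree hd hiso h hr F
      refine ⟨a, A, hA, ?_⟩
      rw [Subgroup.relIndex_eq_one.mpr hle]
      exact one_ne_zero)
    have e1 : Pool.Agent.H74.CC.Ord d x y (p • x) (p • y) := hp
    have e2 := Pool.Agent.H74.CC.Ord.smul hiso (tax_pos hd h) p
    have e3 := Pool.Agent.H74.CC.Ord.smul hiso (Pool.Agent.H74.CC.Ord.smul hiso e1 τ) p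
    have hne1 : p • x ≠ p • y := fun he => h.ne (MulAction.injective _ he)
    have hne2 : p • τ • x ≠ p • τ • y := fun he =>
      h.ne (MulAction.injective _ (MulAction.injective _ he))
    have hax : TAx d (p * τ) x (p • y) := by
      refine ⟨?_, ?_, ?_, ?_⟩
      · intro he
        have h1 := e1
        unfold Pool.Agent.H74.CC.Ord at h1
        rw [← he, hd.self] at h1
        have := hd.pos h.ne
        omega
      · rw [mul_smul]
        exact fun he => h.ne' (MulAction.injective _ he)
      · rw [mul_smul]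
        exact (ord_of_bt hd (e1.bt4 hd) (e2.bt1 hd) hne1).bt4 hd
      · rw [mul_smul, mul_smul]
        exact (ord_of_bt hd (e2.bt2 hd) (e3.bt3 hd) hne2).bt3 hd
    refine ⟨_, hfin _ _ _ hax (hpf.subset ?_)⟩
    rintro g ⟨hg1, hg2⟩
    have hgy : g • y = y := Bt.fix hd hiso (e1.bt3 hd) hg1 hg2
    have hgx : g • p • x = p • x := Bt.fix hd hiso (e1.bt4 hd) hg1 hg2
    refine ⟨⟨hg1, hgy⟩, ?_⟩
    show g ∈ cj (stab2 x y) p
    rw [mem_cj]
    refine ⟨?_, ?_⟩
    · show (p⁻¹ * g * p) • x = x
      rw [mul_smul, mul_smul, hgx, inv_smul_smul]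
    · show (p⁻¹ * g * p) • y = y
      rw [mul_smul, mul_smul, hg2, inv_smul_smul]
  · push Not at hflip
    obtain ⟨Z, hZ, hZne, hZc⟩ := hK
    exact ⟨τ, hfin _ _ _ h (finite_of_all hgc hcoc hirr hd hiso h
      (all_of_no_flip hd hiso h hflip hZ hZne hZc) hZ hZne hZc)⟩

end Pool.Agent.H29.RR.TL
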