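import Pool.Agent.H29.RR.TreeThm

/-!
# Rank rigidity for convex cocompact splittings: actions on trees
-/

open Set Filter Topology Metric
open Pool.Agent.H29 Pool.Agent.H74.CC

set_option linter.unusedSectionVars false

namespace Pool.Agent.H29.RR

universe u

variable {G : Type*} {X : Type u} {V : Type*} [Group G] [MetricSpace X] [IsCAT0 X] [ProperSpace X]
  [MulAction G X] [IsIsometricSMul G X] [ProperlyDiscontinuousSMul G X] [MulAction G V]
  {T : SimpleGraph V}

theorem rankOne_of_tree_convexCocompact [Nonempty X] (hgc : GeodesicallyComplete X)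
    (hcoc : Cocompact G X)
    (hirr : MetricIrreducible X) (hT : T.IsTree)
    (hadj : ∀ (g : G) v w, T.Adj v w → T.Adj (g • v) (g • w)) {τ : G} {x y : V}
    (h : TAx T.dist τ x y) (hK : CCo X (stab2 x y : Subgroup G)) :
    ∃ g : G, IsRankOne (X := X) g := by
  have hd := treeLike_dist hT
  have hiso : ∀ (g : G) v w, T.dist (g • v) (g • w) = T.dist v w := dist_smul_tree hT hadj
  have hfin : ∀ (σ : G) (z w : V), TAx T.dist σ z w →
      {g : G | g • z = z ∧ g • w = w}.Finite → IsRankOne (X := X) σ := by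
    intro σ z w h hf
    exact TAxis.rankOne (T := T) hcoc hT hadj ⟨h.ne, h.ne', h.a1, h.a2⟩ hf
  by_cases hflip : ∃ r : G, Flip T.dist x y r
  · obtain ⟨r, hr⟩ := hflip
    have hP := posSys_tree hd hiso h
    have hidx : (stab2 x y : Subgroup G).relIndex ⊤ = 0 := by
      by_contra hi
      rw [Subgroup.relIndex_top_right] at hi
      obtain ⟨n, hn, _, hn2⟩ := Subgroup.exists_pow_mem_of_index_ne_zero hi τ
      have h1 : τ ^ n • x = x := hn2.1
      have h2 := (h.dist_pow hd hiso n).2
      rw [h1, hd.self] at h2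
      omega
    obtain ⟨p, hp, hpf⟩ := exists_finite_segment hgc hcoc hirr hP hK hidx (by
      intro F
      obtain ⟨a, A, hA, hle⟩ := cover_tree hd hiso h hr F
      refine ⟨a, A, hA, ?_⟩
      rw [Subgroup.relIndex_eq_one.mpr hle]
      exact one_ne_zero)
    have e1 : Pool.Agent.H74.CC.Ord T.dist x y (p • x) (p • y) := hp
    have e2 := Pool.Agent.H74.CC.Ord.smul hiso (tax_pos hd h) p
    have e3 := Pool.Agent.H74.CC.Ord.smul hiso (Pool.Agent.H74.CC.Ord.smul hiso e1 τ) p
    have hne1 : p • x ≠ p • y := fun he => h.ne (MulAction.injective _ he)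
    have hne2 : p • τ • x ≠ p • τ • y := fun he =>
      h.ne (MulAction.injective _ (MulAction.injective _ he))
    have hax : TAx T.dist (p * τ) x (p • y) := by
      refine ⟨?_, ?_, ?_, ?_⟩
      · intro he
        have h1 := e1
        unfold Pool.Agent.H74.CC.Ord at h1
        rw [← he, hd.self] at h1
        have := hd.pos h.ne
        omega
      · rw [mul_smul]
        exact fun he => h.ne' (MulAction.injective _ he)
      · rw [mul_smul]
        exact (ord_of_bt hd (e1.bt4 hd) (e2.bt1 hd) hne1).bt4 hd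
      · rw [mul_smul, mul_smul]
        exact (ord_of_bt hd (e2.bt2 hd) (e3.bt3 hd) hne2).bt3 hd
    refine ⟨_, hfin _ _ _ hax (hpf.subset ?_)⟩
    rintro g ⟨hg1, hg2⟩
    have hgy : g • y = y := Bt.fix hd hiso (e1.bt3 hd) hg1 hg2
    have hgx : g • p • x = p • x := Bt.fix hd hiso (e1.bt4 hd) hg1 hg2
    refine ⟨⟨hg1, hgy⟩, ?_⟩
    show g ∈ cj (stab2 x y) p
    rw [mem_cj]
    refine ⟨?_, ?_⟩
    · show (p⁻¹ * g * p) • x = x
      rw [mul_smul, mul_smul, hgx, inv_smul_smul]
    · show (p⁻¹ * g * p) • y = y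
      rw [mul_smul, mul_smul, hg2, inv_smul_smul]
  · push Not at hflip
    obtain ⟨Z, hZ, hZne, hZc⟩ := hK
    exact ⟨τ, hfin _ _ _ h (finite_of_all hgc hcoc hirr hd hiso h
      (all_of_no_flip hT hadj h hflip hZ hZne hZc) hZ hZne hZc)⟩

end Pool.Agent.H29.RR
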