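import Pool.Agent.H29.RR.Main

/-!
# Rank rigidity for convex cocompact splittings: actions on trees
-/

open Set Filter Topology Metric
open Pool.Agent.H29 Pool.Agent.H74.CC

set_option linter.unusedSectionVars false

namespace Pool.Agent.H29.RR

universe u

section Tree

variable {G V : Type*} [Group G] [MulAction G V] {d : V → V → ℕ} {τ : G} {x y : V}

private lemma tree_mem_cj {g a : G} :
    a ∈ cj (stab2 x y : Subgroup G) g ↔ a • g • x = g • x ∧ a • g • y = g • y := by
  rw [show cj (stab2 x y : Subgroup G) g = _ from map_stab g x y, Subgroup.mem_inf,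
    MulAction.mem_stabilizer_iff, MulAction.mem_stabilizer_iff]

private lemma tree_mem {a : G} :
    a ∈ (stab2 x y : Subgroup G) ↔ a • x = x ∧ a • y = y := by
  rw [Subgroup.mem_inf, MulAction.mem_stabilizer_iff, MulAction.mem_stabilizer_iff]

/-- the positive system of an oriented segment of a tree -/
lemma posSys_tree (hd : TreeLike d) (hiso : ∀ (g : G) v w, d (g • v) (g • w) = d v w)
    (h : TAx d τ x y) : PosSys (stab2 x y : Subgroup G) {g : G | Pos d x y g} := by
  have hne : ∀ p : G, p • x ≠ p • y := fun p he => h.ne (MulAction.injective _ he)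
  refine ⟨⟨τ, tax_pos hd h⟩, ?_, ?_, ?_, ?_⟩
  · intro p hp q hq
    have h1 := Ord.smul hiso (show Ord d x y (q • x) (q • y) from hq) p
    rw [← mul_smul, ← mul_smul] at h1
    exact Ord.trans hd hp h1 (hne p)
  · intro k hk p hp
    have hk' := tree_mem.1 hk
    have h1 := Ord.smul hiso (show Ord d x y (p • x) (p • y) from hp) k
    rw [hk'.1, hk'.2, ← mul_smul, ← mul_smul] at h1
    exact h1
  · intro k hk p hp
    have hk' := tree_mem.1 hk
    show Ord d x y ((p * k) • x) ((p * k) • y)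
    rw [mul_smul, mul_smul, hk'.1, hk'.2]
    exact hp
  · intro p hp
    have hle : (stab2 x y : Subgroup G) ⊓ cj (stab2 x y : Subgroup G) p ≤
        Fx (stab2 x y : Subgroup G) {g : G | Pos d x y g} 1 p := by
      rintro a ⟨ha1, ha2⟩
      have ha1' := tree_mem.1 ha1
      have ha2' := tree_mem_cj.1 ha2
      rw [mem_Fx]
      intro f hf1 hf2
      rw [tree_mem_cj]
      rcases hf1 with rfl | hf1
      · rw [one_smul, one_smul]; exact ha1'
      rcases hf2 with rfl | hf2
      · exact ha2'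
      rw [inv_one, one_mul] at hf1
      have h1 : Ord d x y (f • x) (f • y) := hf1
      have h2 : Ord d (f • x) (f • y) (p • x) (p • y) := by
        have h3 := Ord.smul hiso (show Ord d x y ((f⁻¹ * p) • x) ((f⁻¹ * p) • y) from hf2) f
        rwa [← mul_smul, ← mul_smul, mul_inv_cancel_left] at h3
      have h3 := ord_of_bt hd (h1.bt4 hd) (h2.bt3 hd) (hne f)
      exact ⟨(h3.bt3 hd).fix hd hiso ha1'.1 ha2'.2, (h3.bt4 hd).fix hd hiso ha1'.1 ha2'.2⟩
    rw [Subgroup.relIndex_eq_one.2 hle]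
    exact one_ne_zero

private lemma behind_aux (hd : TreeLike d) (hiso : ∀ (g : G) v w, d (g • v) (g • w) = d v w)
    {a u : G} {w : V} (h1 : Bt d w (u • x) (u • y)) (h2 : Bt d (u • y) w (a • y))
    (h3 : Bt d (u • y) (a • y) (a • x)) :
    Pos d x y (a⁻¹ * u) ∧ Bt d (a • x) w (u • y) := by
  have h4 := h1.symm hd
  have h5 := Bt.trans_left hd h4 h2
  have h6 := (ord_of_bt' h5 h3).symm hd
  refine ⟨?_, ?_⟩
  · have h7 := Ord.smul hiso h6 a⁻¹
    rw [inv_smul_smul, inv_smul_smul, ← mul_smul, ← mul_smul] at h7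
    exact h7
  · exact (Bt.trans_left hd h2 h3).symm hd

/-- a point between `p` and `q` is between `z` and `p` or between `z` and `q` -/
private lemma tripod (hd : TreeLike d) {p q v z : V} (h : Bt d p v q) :
    Bt d z v p ∨ Bt d z v q := by
  have f := hd.four z v p q
  have t1 := hd.tri z v p
  have t2 := hd.tri z v q
  have s1 := hd.symm p v
  have s2 := hd.symm q v
  unfold Bt at *
  omega

/-- segments behind a far translate -/
lemma exists_behind (hd : TreeLike d) (hiso : ∀ (g : G) v w, d (g • v) (g • w) = d v w)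
    (h : TAx d τ x y) {r : G} (hr : Flip d x y r) (g : G) {v : V} (hv : v = x ∨ v = y) {n : ℕ}
    (hn : Bt d (g • v) (τ ^ n • x) (τ ^ n • y)) :
    ∃ a : G, Pos d x y (a⁻¹ * τ ^ n) ∧ Bt d (a • x) (g • v) (τ ^ n • y) := by
  have hne : ∀ p : G, p • x ≠ p • y := fun p he => h.ne (MulAction.injective _ he)
  set z := τ ^ n • y with hz
  have h' := h.rev hd hiso
  obtain ⟨k1, hk1⟩ := tax_exists_neg hd hiso h (g⁻¹ • z)
  obtain ⟨k2, hk2⟩ := tax_exists_neg hd hiso h' (g⁻¹ • z)
  have e1 : ∀ j : G, ∀ w : V, g • j • w = (g * j) • w := fun j w => (mul_smul g j w).symm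
  have h1 := (hk1 (k1 + 1) (Nat.le_succ _)).smul hiso g
  have h2 := (hk2 (k2 + 1) (Nat.le_succ _)).smul hiso g
  rw [smul_inv_smul, e1, e1] at h1 h2
  set b := g * τ ^ (k1 + 1) with hb
  set a := g * τ⁻¹ ^ (k2 + 1) with ha
  -- `v` lies between
  have hmid : Bt d (τ⁻¹ ^ (k2 + 1) • y) v (τ ^ (k1 + 1) • x) := by
    -- the axis: `τ⁻ᵏ x, τ⁻ᵏ y, x, y, τᵏ x, τᵏ y`
    have p1 : Ord d x y (τ ^ (k1 + 1) • x) (τ ^ (k1 + 1) • y) := by
      have hstep : ∀ m : ℕ, Pos d x y (τ ^ (m + 1)) := by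
        intro m
        induction m with
        | zero => rw [zero_add, pow_one]; exact tax_pos hd h
        | succ m ih =>
          have h3 := Ord.smul hiso (show Ord d x y (τ ^ (m + 1) • x) (τ ^ (m + 1) • y) from ih) τ
          rw [← mul_smul, ← mul_smul, ← pow_succ'] at h3
          exact Ord.trans hd (tax_pos hd h) h3 (hne τ)
      exact hstep k1
    have p2 : Ord d y x (τ⁻¹ ^ (k2 + 1) • y) (τ⁻¹ ^ (k2 + 1) • x) := by
      have hstep : ∀ m : ℕ, Pos d y x (τ⁻¹ ^ (m + 1)) := by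
        intro m
        induction m with
        | zero => rw [zero_add, pow_one]; exact tax_pos hd h'
        | succ m ih =>
          have h3 := Ord.smul hiso
            (show Ord d y x (τ⁻¹ ^ (m + 1) • y) (τ⁻¹ ^ (m + 1) • x) from ih) τ⁻¹
          rw [← mul_smul, ← mul_smul, ← pow_succ'] at h3
          exact Ord.trans hd (tax_pos hd h') h3 (hne τ⁻¹).symm
      exact hstep k2
    have q1 := (p2.bt1 hd).symm hd
    have q2 := p1.bt1 hd
    have q3 := ord_of_bt hd q1 q2 h.ne
    rcases hv with rfl | rfl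
    · exact q3.bt3 hd
    · exact q3.bt4 hd
  have hmid' := hmid.smul hiso g
  rw [e1, e1, ← ha, ← hb] at hmid'
  rcases tripod hd (z := z) hmid' with hA | hB
  · exact ⟨a, behind_aux hd hiso hn hA h2⟩
  · have hr' := Ord.smul hiso (show Ord d x y (r • y) (r • x) from hr) b
    rw [← mul_smul, ← mul_smul] at hr'
    have c1 := ord_of_bt hd h1 (hr'.bt3 hd) (hne b)
    have c2 := ord_of_bt'' (c1.bt4 hd) (hr'.bt2 hd)
    have c3 := Bt.trans_left hd hB h1
    have c4 := Bt.trans_left hd c3 (c2.bt1 hd)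
    exact ⟨b * r, behind_aux hd hiso hn c4 (c2.bt4 hd)⟩

lemma cover_tree (hd : TreeLike d) (hiso : ∀ (g : G) v w, d (g • v) (g • w) = d v w)
    (h : TAx d τ x y) {r : G} (hr : Flip d x y r) (F : Finset G) :
    ∃ (a : G) (A : Finset G), (∀ b ∈ A, b⁻¹ * a ∈ {g : G | Pos d x y g}) ∧
      cj (stab2 x y : Subgroup G) a ⊓ KF (stab2 x y) A ≤ KF (stab2 x y) F := by
  classical
  choose N hN using tax_exists_neg hd hiso h
  set n := F.sup (fun g => max (N (g • x)) (N (g • y))) with hn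
  have hnx : ∀ g ∈ F, Bt d (g • x) (τ ^ n • x) (τ ^ n • y) := fun g hg =>
    hN _ n ((le_max_left _ _).trans (Finset.le_sup (f := fun g => max (N (g • x)) (N (g • y))) hg))
  have hny : ∀ g ∈ F, Bt d (g • y) (τ ^ n • x) (τ ^ n • y) := fun g hg =>
    hN _ n ((le_max_right _ _).trans (Finset.le_sup (f := fun g => max (N (g • x)) (N (g • y))) hg))
  have hex : ∀ g : G, ∃ a1 a2 : G, g ∈ F → (Pos d x y (a1⁻¹ * τ ^ n) ∧
      Bt d (a1 • x) (g • x) (τ ^ n • y)) ∧ (Pos d x y (a2⁻¹ * τ ^ n) ∧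
      Bt d (a2 • x) (g • y) (τ ^ n • y)) := by
    intro g
    by_cases hg : g ∈ F
    · obtain ⟨a1, ha1⟩ := exists_behind hd hiso h hr g (Or.inl rfl) (hnx g hg)
      obtain ⟨a2, ha2⟩ := exists_behind hd hiso h hr g (Or.inr rfl) (hny g hg)
      exact ⟨a1, a2, fun _ => ⟨ha1, ha2⟩⟩
    · exact ⟨1, 1, fun h => absurd h hg⟩
  choose a1 a2 ha using hex
  refine ⟨τ ^ n, F.image a1 ∪ F.image a2, ?_, ?_⟩
  · intro b hb
    rcases Finset.mem_union.1 hb with hb | hb
    · obtain ⟨g, hg, rfl⟩ := Finset.mem_image.1 hb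
      exact (ha g hg).1.1
    · obtain ⟨g, hg, rfl⟩ := Finset.mem_image.1 hb
      exact (ha g hg).2.1
  · rintro s ⟨hs1, hs2⟩
    have hs1' := tree_mem_cj.1 hs1
    have hs2' := mem_KF.1 hs2
    rw [mem_KF]
    intro g hg
    rw [tree_mem_cj]
    have u1 := tree_mem_cj.1 (hs2' (a1 g)
      (Finset.mem_union_left _ (Finset.mem_image_of_mem _ hg)))
    have u2 := tree_mem_cj.1 (hs2' (a2 g)
      (Finset.mem_union_right _ (Finset.mem_image_of_mem _ hg)))
    exact ⟨(ha g hg).1.2.fix hd hiso u1.1 hs1'.2, (ha g hg).2.2.fix hd hiso u2.1 hs1'.2⟩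

end Tree

end Pool.Agent.H29.RR
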