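import Mathlib

/-!
# Compactness and recurrence for sequences of group elements
-/

open Set Filter Topology

namespace Pool.Agent.H29.RR

/-- a nonprincipal idempotent ultrafilter on the natural numbers -/
theorem exists_idem : ∃ U : Ultrafilter ℕ, (∀ N : ℕ, ∀ᶠ n in (U : Filter ℕ), N ≤ n) ∧
    ∀ p : ℕ → Prop, (∀ᶠ n in (U : Filter ℕ), p n) ↔
      ∀ᶠ m in (U : Filter ℕ), ∀ᶠ n in (U : Filter ℕ), p (m + n) := by
  let _ : AddSemigroup (Ultrafilter ℕ+) := Ultrafilter.addSemigroup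
  obtain ⟨V, hV⟩ : ∃ V : Ultrafilter ℕ+, V + V = V :=
    exists_idempotent_of_compact_t2_of_continuous_add_left
      (fun r => Ultrafilter.continuous_add_left r)
  have hev : ∀ q : ℕ+ → Prop, (∀ᶠ n in (V : Filter ℕ+), q n) ↔
      ∀ᶠ m in (V : Filter ℕ+), ∀ᶠ n in (V : Filter ℕ+), q (m + n) := by
    intro q
    have h := Ultrafilter.eventually_add V V q
    rw [hV] at h
    exact h
  refine ⟨V.map (fun n : ℕ+ => (n : ℕ)), ?_, ?_⟩
  · intro N
    rw [Ultrafilter.coe_map, Filter.eventually_map]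
    by_contra hcon
    rw [← Ultrafilter.eventually_not] at hcon
    have hfin : {n : ℕ+ | ¬ N ≤ (n : ℕ)}.Finite := by
      have h1 : ((fun n : ℕ+ => (n : ℕ)) ⁻¹' {k : ℕ | k < N}).Finite :=
        (Set.finite_lt_nat N).preimage (fun a _ b _ h => PNat.coe_injective h)
      exact h1.subset (fun n hn => by simpa using hn)
    obtain ⟨x, -, hx⟩ := Ultrafilter.eq_pure_of_finite_mem hfin hcon
    have h2 := (hev (fun n => n = x)).1 (by rw [hx]; simp)
    rw [hx] at h2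
    simp only [Ultrafilter.coe_pure, Filter.eventually_pure] at h2
    have h3 := congrArg (fun n : ℕ+ => (n : ℕ)) h2
    simp only [PNat.add_coe] at h3
    have h4 := x.pos
    omega
  · intro p
    simp only [Ultrafilter.coe_map, Filter.eventually_map]
    rw [hev]
    simp only [PNat.add_coe]

/-- values in a finite set are eventually constant along an ultrafilter -/
theorem exists_value {ι G : Type*} (U : Ultrafilter ι) {F : Set G} (hF : F.Finite) {v : ι → G}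
    (h : ∀ᶠ n in (U : Filter ι), v n ∈ F) : ∃ x : G, ∀ᶠ n in (U : Filter ι), v n = x := by
  have h1 : F ∈ (U.map v) := by
    rw [Ultrafilter.mem_map]
    exact h
  obtain ⟨x, -, hx⟩ := Ultrafilter.eq_pure_of_finite_mem hF h1
  refine ⟨x, ?_⟩
  have h2 : {x} ∈ (U.map v) := by
    rw [hx]
    exact rfl
  rw [Ultrafilter.mem_map] at h2
  exact h2

variable {G : Type*} [Group G]

/-- compactness -/
theorem exists_half {Q : ℤ → Set G} (hQ : ∀ n, (Q n).Finite)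
    (h : ∀ M : ℕ, ∃ g : ℤ → G, ∀ i j : ℤ, 0 ≤ i → i ≤ M → 0 ≤ j → j ≤ M →
      (g i)⁻¹ * g j ∈ Q (j - i)) :
    ∃ g : ℤ → G, ∀ i j : ℤ, 0 ≤ i → 0 ≤ j → (g i)⁻¹ * g j ∈ Q (j - i) := by
  choose g hg using h
  let W : Ultrafilter ℕ := Filter.hyperfilter ℕ
  have hW : ∀ k : ℤ, ∀ᶠ M : ℕ in (W : Filter ℕ), k ≤ (M : ℤ) := by
    intro k
    have h1 : ∀ᶠ M : ℕ in Filter.atTop, k ≤ (M : ℤ) := by
      filter_upwards [Filter.eventually_ge_atTop k.toNat] with M hM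
      omega
    rw [← Nat.cofinite_eq_atTop] at h1
    exact Filter.hyperfilter_le_cofinite h1
  have hval : ∀ i : ℤ, ∃ x : G, 0 ≤ i → ∀ᶠ M in (W : Filter ℕ), (g M 0)⁻¹ * g M i = x := by
    intro i
    by_cases hi : 0 ≤ i
    · obtain ⟨x, hx⟩ := exists_value W (hQ i) (v := fun M => (g M 0)⁻¹ * g M i) (by
        filter_upwards [hW i] with M hM
        have h2 := hg M 0 i le_rfl (by positivity) hi hM
        rwa [sub_zero] at h2)
      exact ⟨x, fun _ => hx⟩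
    · exact ⟨1, fun h => absurd h hi⟩
  choose f hf using hval
  refine ⟨f, ?_⟩
  intro i j hi hj
  obtain ⟨M, h1, h2, h3, h4⟩ := ((hf i hi).and ((hf j hj).and ((hW i).and (hW j)))).exists
  have h5 := hg M i j hi h3 hj h4
  rw [← h1, ← h2]
  have h6 : ((g M 0)⁻¹ * g M i)⁻¹ * ((g M 0)⁻¹ * g M j) = (g M i)⁻¹ * g M j := by group
  rw [h6]
  exact h5

/-- recurrence -/
theorem exists_recurrent {Q : ℤ → Set G} (hQ : ∀ n, (Q n).Finite) {U : Ultrafilter ℕ}
    (hU : ∀ N : ℕ, ∀ᶠ n in (U : Filter ℕ), N ≤ n)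
    (hid : ∀ p : ℕ → Prop, (∀ᶠ n in (U : Filter ℕ), p n) ↔
      ∀ᶠ m in (U : Filter ℕ), ∀ᶠ n in (U : Filter ℕ), p (m + n))
    {g : ℤ → G} (h : ∀ i j : ℤ, 0 ≤ i → 0 ≤ j → (g i)⁻¹ * g j ∈ Q (j - i)) :
    ∃ f : ℤ → G, (∀ i j : ℤ, (f i)⁻¹ * f j ∈ Q (j - i)) ∧
      ∀ i : ℤ, ∀ᶠ m : ℕ in (U : Filter ℕ), f ((m : ℤ) + i) = f (m : ℤ) * f i := by
  have hU' : ∀ k : ℤ, ∀ᶠ n : ℕ in (U : Filter ℕ), 0 ≤ (n : ℤ) + k := by
    intro k
    filter_upwards [hU k.natAbs] with n hn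
    omega
  have hval : ∀ i : ℤ, ∃ x : G, ∀ᶠ n : ℕ in (U : Filter ℕ), (g (n : ℤ))⁻¹ * g ((n : ℤ) + i) = x := by
    intro i
    refine exists_value U (hQ i) ?_
    filter_upwards [hU' i] with n hn
    have h2 := h (n : ℤ) ((n : ℤ) + i) (by positivity) hn
    rwa [add_sub_cancel_left] at h2
  choose f hf using hval
  refine ⟨f, ?_, ?_⟩
  · intro i j
    obtain ⟨n, h1, h2, h3, h4⟩ := ((hf i).and ((hf j).and ((hU' i).and (hU' j)))).exists
    have h5 := h ((n : ℤ) + i) ((n : ℤ) + j) h3 h4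
    rw [← h1, ← h2]
    have h6 : ((g (n : ℤ))⁻¹ * g ((n : ℤ) + i))⁻¹ * ((g (n : ℤ))⁻¹ * g ((n : ℤ) + j))
        = (g ((n : ℤ) + i))⁻¹ * g ((n : ℤ) + j) := by group
    rw [h6]
    have h7 : ((n : ℤ) + j) - ((n : ℤ) + i) = j - i := by ring
    rw [h7] at h5
    exact h5
  · intro i
    have h1 := (hid _).1 (hf i)
    filter_upwards [h1] with m hm
    obtain ⟨n, h2, h3, h4⟩ := (hm.and ((hf (m : ℤ)).and (hf ((m : ℤ) + i)))).exists
    rw [← h4, ← h3, ← h2]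
    have e1 : (((m + n : ℕ) : ℤ)) = (n : ℤ) + (m : ℤ) := by push_cast; ring
    rw [e1, add_assoc]
    group

end Pool.Agent.H29.RR
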