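import Pool.Agent.H29.RR.Flippable

/-!
# The unflippable case: exhaustion, crossing, finite index

See the header of `Pool.Agent.H29.RR.UnflipA` for the proofs of `unflip_exhaust`, `unflip_cross`,
`unflip_finiteIndex`.
-/

open Set Filter Topology Metric
open Pool.Agent.H29 Pool.Agent.H74.CC
open scoped Pointwise

set_option linter.unusedSectionVars false

namespace Pool.Agent.H29.RR

section Alg

variable {G V : Type*} [Group G] [MulAction G V] {h₁ h₂ : Set V}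

lemma unflipB_nonempty {p : G} (hp : p • h₁ ⊆ h₂) (hne : p • h₁ ≠ h₁) : h₂.Nonempty := by
  rw [Set.nonempty_iff_ne_empty]
  rintro rfl
  have h : p • h₁ = ∅ := Set.subset_empty_iff.1 hp
  have h' : h₁ = ∅ := by simpa using h
  exact hne (by rw [h, h'])

lemma unflip_exhaust (hle : h₂ ⊆ h₁) (s2 : FinSep h₂ G) {p : G}
    (hp : p • h₁ ⊆ h₂) (hne : p • h₁ ≠ h₁) (v : V) : ∃ N : ℕ, ∀ n ≥ N, v ∈ p⁻¹ ^ n • h₂ := by
  have h0 : h₂ ⊆ p⁻¹ • h₂ := by
    rw [Set.subset_smul_set_iff, inv_inv]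
    exact (Set.smul_set_mono hle).trans hp
  have hmono : Monotone (fun n : ℕ => p⁻¹ ^ n • h₂) := by
    refine monotone_nat_of_le_succ fun n => ?_
    rw [pow_succ, mul_smul]
    exact Set.smul_set_mono h0
  by_contra hcon
  push Not at hcon
  have hv : ∀ n : ℕ, v ∉ p⁻¹ ^ n • h₂ := by
    intro n hn
    obtain ⟨m, hm, hm'⟩ := hcon n
    exact hm' (hmono hm hn)
  obtain ⟨u, hu⟩ := unflipB_nonempty hp hne
  have hfin := s2 u v
  have hnot : ¬ Function.Injective (fun n : ℕ => p⁻¹ ^ n • h₂) := by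
    intro hinj
    refine Set.infinite_range_of_injective hinj (hfin.subset ?_)
    rintro _ ⟨n, rfl⟩
    refine ⟨⟨p⁻¹ ^ n, rfl⟩, ?_, hv n⟩
    have := hmono (Nat.zero_le n)
    simp only [pow_zero, one_smul] at this
    exact this hu
  rw [Function.Injective] at hnot
  push Not at hnot
  obtain ⟨m, n, hmn, hne'⟩ := hnot
  wlog hlt : m < n generalizing m n
  · exact this n m hmn.symm hne'.symm (by omega)
  have h1 : p⁻¹ ^ m • h₂ = p⁻¹ ^ (m + 1) • h₂ := by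
    refine Set.Subset.antisymm (hmono (Nat.le_succ m)) ?_
    have h2 := hmono (show m + 1 ≤ n by omega)
    simp only at hmn h2
    rw [← hmn] at h2
    exact h2
  rw [pow_succ, mul_smul] at h1
  have h2 : h₂ = p⁻¹ • h₂ := by
    have := congrArg (fun S => (p⁻¹ ^ m)⁻¹ • S) h1
    simpa using this
  have h3 : p • h₂ = h₂ := by
    have := congrArg (fun S => p • S) h2
    simpa using this
  have h4 : h₂ = p • h₁ := Set.Subset.antisymm (by
    calc h₂ = p • h₂ := h3.symm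
      _ ⊆ p • h₁ := Set.smul_set_mono hle) hp
  have h5 : h₁ = h₂ := by
    have h6 : p • h₁ = p • h₂ := by rw [h3, ← h4]
    have := congrArg (fun S => p⁻¹ • S) h6
    simpa using this
  exact hne (by rw [← h4, h5])

lemma unflip_cross (hle : h₂ ⊆ h₁) (s2 : FinSep h₂ G) {p : G}
    (hp : p • h₁ ⊆ h₂) (hne : p • h₁ ≠ h₁) (hU : ∀ g : G, ((g • h₂)ᶜ ∩ h₂ᶜ).Nonempty)
    {Q : Subgroup G} (hQ : ∀ g : G, h₁ ⊆ g • h₂ → g ∈ Q) {x y : G} (hxy : x⁻¹ * y ∉ Q) :
    ∃ N : ℕ, ∀ n ≥ N, Crossing (x • h₂) ((y * p⁻¹ ^ n) • h₂) := by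
  obtain ⟨u, hu⟩ := unflipB_nonempty hp hne
  obtain ⟨w, -, hw⟩ := hU 1
  obtain ⟨N₁, hN₁⟩ := unflip_exhaust hle s2 hp hne (y⁻¹ • (x • u))
  obtain ⟨N₂, hN₂⟩ := unflip_exhaust hle s2 hp hne (y⁻¹ • (x • w))
  have hpQ : p⁻¹ ∈ Q := hQ _ (by rw [Set.subset_smul_set_iff, inv_inv]; exact hp)
  have hpQ' : p ∈ Q := by simpa using Q.inv_mem hpQ
  refine ⟨max N₁ N₂, fun n hn => ⟨?_, ?_, ?_, ?_⟩⟩
  · refine ⟨x • u, Set.smul_mem_smul_set hu, ?_⟩
    have := hN₁ n (le_trans (le_max_left _ _) hn)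
    rw [mul_smul, Set.mem_smul_set_iff_inv_smul_mem]
    exact this
  · rw [Set.inter_compl_nonempty_iff]
    intro hsub
    have h1 : (x * p) • h₁ ⊆ (y * p⁻¹ ^ n) • h₂ := by
      rw [mul_smul]
      exact (Set.smul_set_mono hp).trans hsub
    have h2 : h₁ ⊆ ((x * p)⁻¹ * (y * p⁻¹ ^ n)) • h₂ := by
      rw [mul_smul, Set.subset_smul_set_iff, inv_inv]
      exact h1
    have h3 := hQ _ h2
    have h4 : x⁻¹ * y = p * ((x * p)⁻¹ * (y * p⁻¹ ^ n)) * p ^ n := by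
      rw [inv_pow]
      group
    exact hxy (h4 ▸ Q.mul_mem (Q.mul_mem hpQ' h3) (Q.pow_mem hpQ' n))
  · refine ⟨x • w, ?_, ?_⟩
    · intro h
      rw [Set.smul_mem_smul_set_iff] at h
      exact hw h
    · have := hN₂ n (le_trans (le_max_right _ _) hn)
      rw [mul_smul, Set.mem_smul_set_iff_inv_smul_mem]
      exact this
  · obtain ⟨z, hz1, hz2⟩ := hU (x⁻¹ * (y * p⁻¹ ^ n))
    refine ⟨x • z, ?_, ?_⟩
    · intro h
      rw [Set.smul_mem_smul_set_iff] at h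
      exact hz2 h
    · intro h
      apply hz1
      rw [mul_smul, Set.mem_smul_set_iff_inv_smul_mem, inv_inv]
      exact h

lemma unflip_finiteIndex (hle : h₂ ⊆ h₁) (s2 : FinSep h₂ G) (w2 : Width G h₂) {p : G}
    (hp : p • h₁ ⊆ h₂) (hne : p • h₁ ≠ h₁) (hU : ∀ g : G, ((g • h₂)ᶜ ∩ h₂ᶜ).Nonempty)
    {Q : Subgroup G} (hQ : ∀ g : G, h₁ ⊆ g • h₂ → g ∈ Q) : Q.FiniteIndex := by
  by_contra hcon
  have hself : ∀ A : Set V, ¬ Crossing A A := by
    rintro A ⟨-, ⟨z, hz, hz'⟩, -⟩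
    exact hz' hz
  have hsymm : ∀ A B : Set V, Crossing A B → Crossing B A := by
    rintro A B ⟨⟨a, ha, ha'⟩, ⟨b, hb, hb'⟩, ⟨c, hc, hc'⟩, ⟨d, hd, hd'⟩⟩
    exact ⟨⟨a, ha', ha⟩, ⟨c, hc', hc⟩, ⟨b, hb', hb⟩, ⟨d, hd', hd⟩⟩
  obtain ⟨f, -, hf⟩ := exists_seq_of_forall_finset_exists (fun _ : G => True)
    (fun x y : G => Crossing (x • h₂) (y • h₂)) (by
      intro s _
      have hy : ∃ y₀ : G, ∀ x ∈ s, x⁻¹ * y₀ ∉ Q := by
        by_contra hall
        push Not at hall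
        have : Finite (G ⧸ Q) := by
          refine Finite.of_surjective (fun x : (s : Set G) => ((x : G) : G ⧸ Q)) ?_
          intro q
          induction q using QuotientGroup.induction_on with
          | H y =>
            obtain ⟨x, hx, hxy⟩ := hall y
            exact ⟨⟨x, hx⟩, QuotientGroup.eq.2 hxy⟩
        exact hcon Subgroup.finiteIndex_of_finite_quotient
      obtain ⟨y₀, hy₀⟩ := hy
      have hN : ∀ x ∈ s, ∃ N : ℕ, ∀ n ≥ N, Crossing (x • h₂) ((y₀ * p⁻¹ ^ n) • h₂) := fun x hx =>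
        unflip_cross hle s2 hp hne hU hQ (hy₀ x hx)
      choose! N hN using hN
      refine ⟨y₀ * p⁻¹ ^ (s.sup N), trivial, fun x hx => hN x hx _ (Finset.le_sup hx)⟩)
  have hinj : Function.Injective (fun n : ℕ => f n • h₂) := by
    intro m n hmn
    simp only at hmn
    by_contra hne'
    rcases lt_or_gt_of_ne hne' with h | h
    · have := hf m n h
      rw [hmn] at this
      exact hself _ this
    · have := hf n m h
      rw [hmn] at this
      exact hself _ this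
  refine Set.infinite_range_of_injective hinj (w2 _ ?_ ?_)
  · rintro _ ⟨n, rfl⟩
    exact ⟨f n, rfl⟩
  · rintro _ ⟨m, rfl⟩ _ ⟨n, rfl⟩ hmn
    have hne' : m ≠ n := fun h => hmn (by rw [h])
    rcases lt_or_gt_of_ne hne' with h | h
    · exact hf m n h
    · exact hsymm _ _ (hf n m h)

end Alg

end Pool.Agent.H29.RR
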