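import Pool.Agent.H29.RR.UnflipA
import Pool.Agent.H29.RR.UnflipB

/-!
# The unflippable case: conclusion

See the header of `Pool.Agent.H29.RR.UnflipA` (last paragraph) for the proof.
-/

open Set Filter Topology Metric
open Pool.Agent.H29 Pool.Agent.H74.CC
open scoped Pointwise

set_option linter.unusedSectionVars false

namespace Pool.Agent.H29.RR

universe u

section Alg

variable {G : Type*} [Group G]

/-- the commensurator -/
def commGrp (K : Subgroup G) : Subgroup G where
  carrier := {g : G | Cm K g}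
  one_mem' := Cm.one K
  mul_mem' := fun h h' => Cm.mul h h'
  inv_mem' := fun h => Cm.inv h

end Alg

variable {G : Type*} {X : Type u} {V : Type*} [Group G] [MetricSpace X] [IsCAT0 X] [ProperSpace X]
  [MulAction G X] [IsIsometricSMul G X] [ProperlyDiscontinuousSMul G X] [MulAction G V]
  {h₁ h₂ : Set V}

theorem finite_of_unflip [Nonempty X] (hgc : GeodesicallyComplete X) (hcoc : Cocompact G X)
    (hirr : MetricIrreducible X) (hle : h₂ ⊆ h₁) (s1 : FinSep h₁ G) (s2 : FinSep h₂ G)
    (w1 : Width G h₁) (w2 : Width G h₂) (hK : CCo X (KI G h₁ h₂)) {p : G}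
    (hp : p • h₁ ⊆ h₂) (hne : p • h₁ ≠ h₁) (hU : ∀ g : G, ((g • h₂)ᶜ ∩ h₂ᶜ).Nonempty) :
    ((KI G h₁ h₂ : Subgroup G) : Set G).Finite := by
  set K : Subgroup G := KI G h₁ h₂ with hKdef
  set Q : Subgroup G := commGrp K with hQdef
  have hQ : ∀ g : G, h₁ ⊆ g • h₂ → g ∈ Q := by
    intro g hg
    have h1 := unflip_relIndex hle s1 s2 w1 w2 hp hne hU hg
    exact ⟨h1, cohopf_comm hK h1⟩
  have hfi : Q.FiniteIndex := unflip_finiteIndex hle s2 w2 hp hne hU hQ
  have hpi : p⁻¹ ∈ Q := by
    apply hQ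
    rw [← Set.smul_set_subset_iff_subset_inv_smul_set]
    exact hp
  have hpQ : p ∈ Q := by
    have := Q.inv_mem hpi
    rwa [inv_inv] at this
  have hKQ : K ≤ Q := by
    intro k hk
    have e : cj K k = K := by
      ext h
      rw [mem_cj]
      constructor
      · intro hh
        have h2 := K.mul_mem (K.mul_mem hk hh) (K.inv_mem hk)
        have e2 : k * (k⁻¹ * h * k) * k⁻¹ = h := by group
        rwa [e2] at h2
      · intro hh
        exact K.mul_mem (K.mul_mem (K.inv_mem hk) hh) hk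
    show Comm2 (cj K k) K
    rw [e]
    exact comm2_refl K
  have hcomm : ∀ g : Q, Comm2 ((K.subgroupOf Q).map (MulAut.conj g).toMonoidHom)
      (K.subgroupOf Q) := by
    intro g
    have hg : Comm2 (cj K (g : G)) K := g.2
    have e : (K.subgroupOf Q).map (MulAut.conj g).toMonoidHom = (cj K (g : G)).subgroupOf Q := by
      ext h
      rw [mem_map_conj, Subgroup.mem_subgroupOf, Subgroup.mem_subgroupOf, mem_cj]
      rfl
    have hcjQ : cj K (g : G) ≤ Q := by
      intro h hh
      rw [mem_cj] at hh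
      have h2 := Q.mul_mem (Q.mul_mem g.2 (hKQ hh)) (Q.inv_mem g.2)
      have e2 : (g : G) * ((g : G)⁻¹ * h * g) * (g : G)⁻¹ = h := by group
      rwa [e2] at h2
    rw [e]
    refine ⟨?_, ?_⟩
    · rw [Subgroup.relIndex_subgroupOf hKQ]
      exact hg.1
    · rw [Subgroup.relIndex_subgroupOf hcjQ]
      exact hg.2
  obtain ⟨Y, hY, hYne, hYc⟩ := hK.subgroupOf hKQ
  rcases commensurated_split hgc (hcoc.subgroup Q) hirr hcomm hY hYne hYc with hf | hi
  · have h1 : (K : Set G) ⊆ (fun x : Q => (x : G)) '' ((K.subgroupOf Q : Subgroup Q) : Set Q) := by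
      intro k hk
      exact ⟨⟨k, hKQ hk⟩, hk, rfl⟩
    exact (hf.image _).subset h1
  · exfalso
    rw [Subgroup.relIndex_top_right] at hi
    obtain ⟨n, hn, _, hn2⟩ := Subgroup.exists_pow_mem_of_index_ne_zero hi ⟨p, hpQ⟩
    rw [Subgroup.mem_subgroupOf] at hn2
    have hn3 : p ^ n ∈ K := hn2
    have hpn : p ^ n • h₁ = h₁ := hn3.1
    have hsub : ∀ m : ℕ, p ^ (m + 1) • h₁ ⊆ p • h₁ := by
      intro m
      induction m with
      | zero => rw [zero_add, pow_one]
      | succ m ih =>
        rw [pow_succ, mul_smul]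
        refine (Set.smul_set_mono (hp.trans hle)).trans ?_
        exact ih
    obtain ⟨m, rfl⟩ : ∃ m, n = m + 1 := ⟨n - 1, by omega⟩
    apply hne
    apply Set.Subset.antisymm (hp.trans hle)
    have h3 := hsub m
    rw [hpn] at h3
    exact h3

end Pool.Agent.H29.RR
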