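import Pool.Agent.H29.RR.Flippable
import Pool.Agent.H29.RR.CoHopf

/-!
# The unflippable case (all parts; this file: `unflip_orbit`, `unflip_relIndex`)

Setting: `h₂ ⊆ h₁`, `p • h₁ ⊆ h₂`, `p • h₁ ≠ h₁`, `K = KI G h₁ h₂`, and `hU`: the complements of `g • h₂` and `h₂`
meet, for all `g`. So `g • h₁ ⊆ (g * p⁻¹) • h₂` and the complements of any two translates of `h₁` or `h₂`
meet.

**unflip_orbit**.  If `S = g • h₁` or `S = g • h₂` and `h₁ ⊆ S` then `{k • S | k ∈ K}` is finite.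
Proof.  Let `O` be this orbit and fix `v ∈ h₁`, `w ∉ S` (in general `w T ∉ T` for each `T ∈ O`).  For `T ∈ O` let
`m T` be the number of translates `T'` of `h₁` or `h₂` with `h₁ ⊆ T' ⊆ T` (finite: they contain `v` and not a
given point outside `T`; use `s1`, `s2`). As `k • h₁ = h₁` for `k ∈ K`, `m (k • T) = m T`
(`Set.ncard_image_of_injective`).
If `T ⊂ T'` in `O` then `m T < m T'` (`Set.ncard_lt_ncard`), so different members of `O` are not
nested; they both contain `h₁ ≠ ∅`, and their complements meet.  So they cross.  By `w1` or `w2` (all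
members of `O` are translates of the same `h_i`) `O` is finite.

**unflip_relIndex**.  If `h₁ ⊆ g • h₂` then `(cj K g).relIndex K ≠ 0`: by `unflip_orbit` for `g • h₂` and
`g • h₁ ⊇ g • h₂` and `relIndex_of_finite_image` with `k ↦ (k • g • h₁, k • g • h₂)`.  So `Cm K g`
(`Pool.Agent.H74.CC.Cm`, i.e. `Comm2 (cj K g) K`) by `cohopf_comm`.  In particular `Cm K p⁻¹`, `Cm K p`.

**unflip_exhaust**.  For every `v` there is `N` with `v ∈ p⁻¹ ^ n • h₂` for all `n ≥ N`.  Proof: the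
sequence `p⁻¹ ^ n • h₂` is increasing, strictly (`p • h₂ ≠ h₂`, otherwise `p • h₁ ⊆ h₂ = p • h₂ ⊆ p • h₁`,
so `p • h₁ = h₂ = p • h₂`, `h₁ = h₂` and `p • h₁ = h₁`). Take `u ∈ h₂`. If `v ∉ p⁻¹ ^ n • h₂` for all `n`
then the infinitely many translates `p⁻¹ ^ n • h₂` contain `u` and not `v`, contradicting `s2`.

**unflip_cross**.  Let `Q = {g | Cm K g}` (a subgroup: `Cm.one`, `Cm.mul`, `Cm.inv`).  If `x⁻¹ * y ∉ Q` then
for all large `n`, `x • h₂` crosses `(y * p⁻¹ ^ n) • h₂`.  Proof: let `S = x • h₂`, `T = (y * p⁻¹ ^ n) • h₂`.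
By `unflip_exhaust` (applied to `y⁻¹ • v`) `T` meets `S` and `Sᶜ` for large `n`.  The complements meet.  If `S ⊆ T`
then `(x * p) • h₁ ⊆ x • h₂ ⊆ T`, so `h₁ ⊆ g • h₂` with `g = (x * p)⁻¹ * (y * p⁻¹ ^ n)`, so `g ∈ Q`, so
`x⁻¹ * y ∈ Q` as `p ∈ Q`: contradiction. So `S ∩ Tᶜ` is nonempty.

**unflip_finiteIndex**.  `Q` has finite index. Otherwise by `exists_seq_of_forall_finset_exists` (with
`P x = True`, `r x y = (Crossing (x • h₂) (y • h₂))`; to make the induction work carry also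
`x⁻¹ * y ∉ Q` in `r`: given a finite set `s` choose `y₀` outside the finitely many cosets `x Q`, `x ∈ s`, and
`y = y₀ * p⁻¹ ^ n` with `n` large) there is `f : ℕ → G` with `f m • h₂` crossing `f n • h₂` for `m < n`,
and `{f n • h₂}` is an infinite pairwise crossing family (`f m • h₂ ≠ f n • h₂` as they cross,
`not_crossing_self`), contradicting `w2`.

**finite_of_unflip**.  `K ≤ Q` and `p ∈ Q`.  Apply `commensurated_split` (`Pool.Agent.H74.CC2`) to the group `↥Q`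
and `K.subgroupOf Q` (`CCo.subgroupOf`): it is finite (so `K` is finite), or of finite index in `↥Q`; in the latter case
`p ^ n ∈ K` for some `n > 0` (`Subgroup.exists_pow_mem_of_index_ne_zero`), so `p ^ n • h₁ = h₁`,
impossible since `p ^ n • h₁ ⊂ h₁`.
-/

open Set Filter Topology Metric
open Pool.Agent.H29 Pool.Agent.H74.CC
open scoped Pointwise

set_option linter.unusedSectionVars false

namespace Pool.Agent.H29.RR

section Alg

variable {G V : Type*} [Group G] [MulAction G V] {h₁ h₂ : Set V}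

/-- no strict self-nesting of translates containing a fixed point -/
lemma unflipA_eq_of_subset {h : Set V} (s : FinSep h G) {g k : G} {T : Set V} (hT : T = g • h)
    {v w : V} (hv : ∀ n : ℕ, v ∈ (k ^ n) • T) (hw : w ∉ T) (hsub : k • T ⊆ T) : k • T = T := by
  by_contra hne
  have hss : k • T ⊂ T := hsub.ssubset_of_ne hne
  have hanti : StrictAnti (fun n : ℕ => (k ^ n) • T) := by
    apply strictAnti_nat_of_succ_lt
    intro n
    show (k ^ (n + 1)) • T ⊂ (k ^ n) • T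
    rw [pow_succ, mul_smul]
    exact smul_ssubset hss
  have hinf : (range (fun n : ℕ => (k ^ n) • T)).Infinite :=
    infinite_range_of_injective hanti.injective
  apply hinf
  apply (s v w).subset
  rintro _ ⟨n, rfl⟩
  refine ⟨⟨k ^ n * g, by simp only [hT, mul_smul]⟩, hv n, fun hcon => hw ?_⟩
  have := hanti.antitone (Nat.zero_le n) hcon
  simpa using this

lemma unflipA_compl_meet (hle : h₂ ⊆ h₁) {p : G} (hp : p • h₁ ⊆ h₂)
    (hU : ∀ g : G, ((g • h₂)ᶜ ∩ h₂ᶜ).Nonempty) {T T' : Set V}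
    (hT : ∃ g : G, T = g • h₁ ∨ T = g • h₂) (hT' : ∃ g : G, T' = g • h₁ ∨ T' = g • h₂) :
    (Tᶜ ∩ T'ᶜ).Nonempty := by
  have key : ∀ T : Set V, (∃ g : G, T = g • h₁ ∨ T = g • h₂) → ∃ a : G, T ⊆ a • h₂ := by
    rintro T ⟨g, rfl | rfl⟩
    · refine ⟨g * p⁻¹, ?_⟩
      rw [mul_smul]
      apply smul_set_mono
      rw [← Set.smul_set_subset_smul_set_iff (a := p), smul_inv_smul]
      exact hp
    · exact ⟨g, Subset.rfl⟩
  obtain ⟨a, ha⟩ := key T hT
  obtain ⟨b, hb⟩ := key T' hT'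
  obtain ⟨x, hx1, hx2⟩ := hU (b⁻¹ * a)
  refine ⟨b • x, fun hc => hx1 ?_, fun hc => hx2 ?_⟩
  · have := ha hc
    rw [Set.mem_smul_set_iff_inv_smul_mem] at this ⊢
    simpa [mul_smul] using this
  · have := hb hc
    rw [Set.mem_smul_set_iff_inv_smul_mem, inv_smul_smul] at this
    exact this

lemma unflip_orbit (hle : h₂ ⊆ h₁) (s1 : FinSep h₁ G) (s2 : FinSep h₂ G)
    (w1 : Width G h₁) (w2 : Width G h₂) {p : G}
    (hp : p • h₁ ⊆ h₂) (hne : p • h₁ ≠ h₁) (hU : ∀ g : G, ((g • h₂)ᶜ ∩ h₂ᶜ).Nonempty)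
    {g : G} {S : Set V} (hS : S = g • h₁ ∨ S = g • h₂) (hle' : h₁ ⊆ S) :
    {T : Set V | ∃ k ∈ KI G h₁ h₂, T = k • S}.Finite := by
  obtain ⟨v, hv⟩ : h₁.Nonempty := by
    rw [Set.nonempty_iff_ne_empty]
    rintro rfl
    apply hne
    simp
  have hsub : ∀ k ∈ KI G h₁ h₂, h₁ ⊆ k • S := by
    intro k hk
    have hk1 : k • h₁ = h₁ := hk.1
    have := smul_set_mono (a := k) hle'
    rwa [hk1] at this
  have htr : ∀ k : G, ∃ a : G, k • S = a • h₁ ∨ k • S = a • h₂ := by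
    intro k
    rcases hS with rfl | rfl
    · exact ⟨k * g, Or.inl (by rw [mul_smul])⟩
    · exact ⟨k * g, Or.inr (by rw [mul_smul])⟩
  -- nested members of the orbit are equal
  have hnest : ∀ k ∈ KI G h₁ h₂, ∀ k' ∈ KI G h₁ h₂, k' • S ⊆ k • S → k' • S = k • S := by
    intro k hk k' hk' hss
    obtain ⟨w, hw, -⟩ := unflipA_compl_meet hle hp hU (htr k) (htr k)
    have hss' : (k' * k⁻¹) • (k • S) ⊆ k • S := by
      rw [smul_smul, inv_mul_cancel_right]
      exact hss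
    have hv' : ∀ n : ℕ, v ∈ ((k' * k⁻¹) ^ n) • (k • S) := by
      intro n
      rw [smul_smul]
      apply hsub _ _ hv
      exact mul_mem (pow_mem (mul_mem hk' (inv_mem hk)) n) hk
    have : (k' * k⁻¹) • (k • S) = k • S := by
      rcases hS with hS | hS
      · exact unflipA_eq_of_subset s1 (g := k * g) (by rw [hS, mul_smul]) hv' hw hss'
      · exact unflipA_eq_of_subset s2 (g := k * g) (by rw [hS, mul_smul]) hv' hw hss'
    rw [smul_smul, inv_mul_cancel_right] at this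
    exact this
  have hcross : {T : Set V | ∃ k ∈ KI G h₁ h₂, T = k • S}.Pairwise Crossing := by
    rintro _ ⟨k, hk, rfl⟩ _ ⟨k', hk', rfl⟩ hne'
    refine ⟨⟨v, hsub k hk hv, hsub k' hk' hv⟩, ?_, ?_, unflipA_compl_meet hle hp hU (htr k) (htr k')⟩
    · rw [← Set.sdiff_eq, Set.sdiff_nonempty]
      intro hcon
      exact hne' (hnest k' hk' k hk hcon)
    · rw [Set.inter_comm, ← Set.sdiff_eq, Set.sdiff_nonempty]
      intro hcon
      exact hne' (hnest k hk k' hk' hcon).symm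
  rcases hS with hS | hS
  · apply w1 _ _ hcross
    rintro _ ⟨k, hk, rfl⟩
    exact ⟨k * g, by rw [hS, mul_smul]⟩
  · apply w2 _ _ hcross
    rintro _ ⟨k, hk, rfl⟩
    exact ⟨k * g, by rw [hS, mul_smul]⟩

lemma unflip_relIndex (hle : h₂ ⊆ h₁) (s1 : FinSep h₁ G) (s2 : FinSep h₂ G)
    (w1 : Width G h₁) (w2 : Width G h₂) {p : G}
    (hp : p • h₁ ⊆ h₂) (hne : p • h₁ ≠ h₁) (hU : ∀ g : G, ((g • h₂)ᶜ ∩ h₂ᶜ).Nonempty)
    {g : G} (hg : h₁ ⊆ g • h₂) : (cj (KI G h₁ h₂) g).relIndex (KI G h₁ h₂) ≠ 0 := by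
  have o1 := unflip_orbit hle s1 s2 w1 w2 hp hne hU (g := g) (S := g • h₁) (Or.inl rfl)
    (hg.trans (smul_set_mono hle))
  have o2 := unflip_orbit hle s1 s2 w1 w2 hp hne hU (g := g) (S := g • h₂) (Or.inr rfl) hg
  apply relIndex_of_finite_image (fun d : G => (d • g • h₁, d • g • h₂))
  · apply (o1.prod o2).subset
    rintro _ ⟨k, hk, rfl⟩
    exact ⟨⟨k, hk, rfl⟩, ⟨k, hk, rfl⟩⟩
  · intro d _ d' _ he
    have e1 : d • g • h₁ = d' • g • h₁ := congrArg Prod.fst he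
    have e2 : d • g • h₂ = d' • g • h₂ := congrArg Prod.snd he
    rw [mem_cj]
    refine ⟨?_, ?_⟩
    · show (g⁻¹ * (d⁻¹ * d') * g) • h₁ = h₁
      rw [mul_smul, mul_smul, mul_smul, ← e1, inv_smul_smul, inv_smul_smul]
    · show (g⁻¹ * (d⁻¹ * d') * g) • h₂ = h₂
      rw [mul_smul, mul_smul, mul_smul, ← e2, inv_smul_smul, inv_smul_smul]

end Alg

end Pool.Agent.H29.RR
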