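import Pool.Agent.H29.RR.Main
import Pool.Agent.H29.Wall

/-!
# Rank rigidity for convex cocompact walls
-/

open Set Filter Topology Metric
open Pool.Agent.H29 Pool.Agent.H74.CC
open scoped Pointwise

set_option linter.unusedSectionVars false

namespace Pool.Agent.H29.RR

universe u

lemma relIndex_of_finite_image {G : Type*} [Group G] {A D : Subgroup G} {β : Type*} (f : G → β)
    (hF : (f '' (D : Set G)).Finite)
    (h : ∀ d ∈ D, ∀ d' ∈ D, f d = f d' → d⁻¹ * d' ∈ A) : A.relIndex D ≠ 0 := by
  have := hF.to_subtype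
  have hfinQ : Finite (D ⧸ A.subgroupOf D) := by
    apply Finite.of_injective (fun q : D ⧸ A.subgroupOf D =>
      (⟨f (Quotient.out q : D), mem_image_of_mem f (Quotient.out q : D).2⟩ : (f '' (D : Set G))))
    intro q q' he
    replace he : f (Quotient.out q : D) = f (Quotient.out q' : D) := congrArg Subtype.val he
    rw [← QuotientGroup.out_eq' q, ← QuotientGroup.out_eq' q', QuotientGroup.eq]
    exact h _ (Quotient.out q : D).2 _ (Quotient.out q' : D).2 he
  exact Subgroup.index_ne_zero_of_finite

section Wall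

variable {G V : Type*} [Group G] [MulAction G V] {h : Set V}

lemma mem_cj_stab {g f : G} : g ∈ cj (MulAction.stabilizer G h) f ↔ g • f • h = f • h := by
  rw [mem_cj, MulAction.mem_stabilizer_iff, mul_smul, mul_smul, inv_smul_eq_iff]

variable (h) in
/-- the strict translates -/
def PW : Set G := {g : G | g • h ⊂ h}

lemma smul_ssubset {g : G} {A B : Set V} (hAB : A ⊂ B) : g • A ⊂ g • B := by
  refine ⟨smul_set_mono hAB.1, fun hcon => hAB.2 ?_⟩
  exact Set.smul_set_subset_smul_set_iff.mp hcon

lemma mem_PW_iff {g f : G} : g⁻¹ * f ∈ (PW h : Set G) ↔ f • h ⊂ g • h := by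
  constructor
  · intro hm
    have h1 : (g⁻¹ * f) • h ⊂ h := hm
    have h2 := smul_ssubset (g := g) h1
    rwa [smul_smul, mul_inv_cancel_left] at h2
  · intro hm
    have h2 := smul_ssubset (g := g⁻¹) hm
    rw [smul_smul, inv_smul_smul] at h2
    exact h2

lemma Le_PW {g f : G} (hle : Le (PW h) g f) : f • h ⊆ g • h := by
  rcases hle with rfl | hle
  · exact Subset.rfl
  · exact (mem_PW_iff.mp hle).1

variable (h) in
/-- two points are separated by finitely many translates -/
def FinSep (G : Type*) [Group G] [MulAction G V] : Prop :=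
  ∀ v w : V, {S : Set V | (∃ g : G, S = g • h) ∧ v ∈ S ∧ w ∉ S}.Finite

lemma posSys_wall (h1 : FinSep h G) (hp : ∃ p : G, p • h ⊂ h) :
    PosSys (MulAction.stabilizer G h) (PW h : Set G) where
  ne := hp
  mul := by
    intro p hp q hq
    have h2 : q • h ⊂ h := hq
    have h3 : p • h ⊂ h := hp
    show (p * q) • h ⊂ h
    rw [mul_smul]
    exact (smul_ssubset h2).trans h3
  left := by
    intro k hk p hp
    have hk' : k • h = h := hk
    have h3 : p • h ⊂ h := hp
    have h4 := smul_ssubset (g := k) h3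
    rw [smul_smul, hk'] at h4
    exact h4
  right := by
    intro k hk p hp
    have hk' : k • h = h := hk
    show (p * k) • h ⊂ h
    rw [mul_smul, hk']
    exact hp
  virt := by
    intro p hp
    have hp' : p • h ⊂ h := hp
    obtain ⟨w, hw⟩ : ∃ w, w ∉ h := by
      by_contra hcon
      push Not at hcon
      apply hp'.2
      intro v _
      have := hcon (p⁻¹ • v)
      rwa [← Set.mem_smul_set_iff_inv_smul_mem] at this
    obtain ⟨v, hv⟩ : ∃ v, v ∈ p • h := by
      by_contra hcon
      push Not at hcon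
      apply hp'.2
      intro v hv
      exact absurd (Set.smul_mem_smul_set (a := p) hv) (hcon _)
    set I : Set (Set V) := {S | (∃ g : G, S = g • h) ∧ v ∈ S ∧ w ∉ S} with hI
    have hIf : I.Finite := h1 v w
    -- the values of elements of `K ⊓ cj K p` on the interval
    set J : Set (Set V) := {S | (∃ g : G, S = g • h) ∧ p • h ⊆ S ∧ S ⊆ h} with hJ
    have hJI : J ⊆ I := by
      rintro S ⟨h2, h3, h4⟩
      exact ⟨h2, h3 hv, fun hwS => hw (h4 hwS)⟩
    have hJf : J.Finite := hIf.subset hJI
    have := hJf.to_subtype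
    have hmap : ∀ d ∈ (MulAction.stabilizer G h ⊓ cj (MulAction.stabilizer G h) p : Subgroup G),
        ∀ S ∈ J, d • S ∈ J := by
      rintro d ⟨hd1, hd2⟩ S ⟨⟨g, hg⟩, h3, h4⟩
      have hd1' : d • h = h := hd1
      have hd2' : d • p • h = p • h := mem_cj_stab.mp hd2
      refine ⟨⟨d * g, by rw [hg, mul_smul]⟩, ?_, ?_⟩
      · have := smul_set_mono (a := d) h3
        rwa [hd2'] at this
      · have := smul_set_mono (a := d) h4
        rwa [hd1'] at this
    apply relIndex_of_finite_image (fun d => fun S : J => d • (S : Set V))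
    · apply Set.Finite.subset (Set.Finite.pi' (fun _ : J => hJf))
      rintro _ ⟨d, hd, rfl⟩ S
      exact hmap d hd S S.2
    · intro d _ d' _ he
      rw [mem_Fx]
      intro f hf1 hf2
      rw [mem_cj_stab]
      have hfJ : f • h ∈ J := by
        refine ⟨⟨f, rfl⟩, Le_PW hf2, ?_⟩
        have := Le_PW hf1
        rwa [one_smul] at this
      have h5 := congrFun he ⟨f • h, hfJ⟩
      simp only at h5
      rw [mul_smul, ← h5, inv_smul_smul]

lemma cover_wall (h1 : FinSep h G) {p : G} (hp : p • h ⊂ h)
    (h3 : ∀ g : G, ∃ a : G, a • h ⊆ h ∧ (a • h ⊆ g • h ∨ Disjoint (a • h) (g • h)))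
    {r : G} (hr : h ∪ r • h = univ) (F : Finset G) :
    ∃ (a : G) (A : Finset G), (∀ b ∈ A, b⁻¹ * a ∈ (PW h : Set G)) ∧
      (KF (MulAction.stabilizer G h) F).relIndex
        (cj (MulAction.stabilizer G h) a ⊓ KF (MulAction.stabilizer G h) A) ≠ 0 := by
  classical
  set K := MulAction.stabilizer G h with hK
  -- a deep translate
  obtain ⟨a, ha⟩ : ∃ a : G, ∀ g ∈ F, a • h ⊆ g • h ∨ Disjoint (a • h) (g • h) := by
    induction F using Finset.induction_on with
    | empty => exact ⟨1, by simp⟩
    | insert g F _ ih =>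
      obtain ⟨a, ha⟩ := ih
      obtain ⟨b, hb1, hb2⟩ := h3 (a⁻¹ * g)
      have hsub : (a * b) • h ⊆ a • h := by
        rw [mul_smul]
        exact smul_set_mono hb1
      refine ⟨a * b, ?_⟩
      intro k hk
      rcases Finset.mem_insert.mp hk with rfl | hk
      · rcases hb2 with hb2 | hb2
        · left
          have := smul_set_mono (a := a) hb2
          rwa [smul_smul, smul_smul, mul_inv_cancel_left] at this
        · right
          have := (Set.disjoint_smul_set (a := a)).mpr hb2
          rwa [smul_smul, smul_smul, mul_inv_cancel_left] at this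
      · rcases ha k hk with h4 | h4
        · exact Or.inl (hsub.trans h4)
        · exact Or.inr (h4.mono_left hsub)
  have hstrict : (a * p) • h ⊂ a • h := by
    rw [mul_smul]
    exact smul_ssubset hp
  have hrc : ∀ g : G, (g • h)ᶜ ⊆ (g * r) • h := by
    intro g v hv
    have h5 : g⁻¹ • v ∈ h ∪ r • h := by rw [hr]; exact mem_univ _
    rcases h5 with h5 | h5
    · exact absurd (Set.mem_smul_set_iff_inv_smul_mem.mpr h5) hv
    · rw [mul_smul]
      exact Set.mem_smul_set_iff_inv_smul_mem.mpr h5
  set A : Finset G := F.filter (fun g => a • h ⊆ g • h) ∪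
    (F.filter (fun g => Disjoint (a • h) (g • h))).image (fun g => g * r) with hA
  refine ⟨a * p, A, ?_, ?_⟩
  · intro b hb
    rw [mem_PW_iff]
    rcases Finset.mem_union.mp hb with hb | hb
    · exact hstrict.trans_subset (Finset.mem_filter.mp hb).2
    · obtain ⟨g, hg, rfl⟩ := Finset.mem_image.mp hb
      have h5 := (Finset.mem_filter.mp hg).2
      exact hstrict.trans_subset ((Set.subset_compl_iff_disjoint_right.mpr h5).trans (hrc g))
  · obtain ⟨w, hw⟩ : ∃ w, w ∉ h := by
      by_contra hcon
      push Not at hcon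
      apply hp.2
      intro v _
      have := hcon (p⁻¹ • v)
      rwa [← Set.mem_smul_set_iff_inv_smul_mem] at this
    obtain ⟨v, hv⟩ : ∃ v, v ∈ p • h := by
      by_contra hcon
      push Not at hcon
      apply hp.2
      intro v hv
      exact absurd (Set.smul_mem_smul_set (a := p) hv) (hcon _)
    apply relIndex_of_finite_image (fun d => fun g : F => d • (g : G) • h)
    · -- finitely many values
      have hval : ∀ g : F, {S : Set V | ∃ d ∈ cj K (a * p) ⊓ KF K A, S = d • (g : G) • h}.Finite := by
        rintro ⟨g, hg⟩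
        rcases ha g hg with h5 | h5
        · apply (Set.finite_singleton (g • h)).subset
          rintro S ⟨d, ⟨_, hd⟩, rfl⟩
          have h6 := mem_KF.mp hd g (Finset.mem_union_left _ (Finset.mem_filter.mpr ⟨hg, h5⟩))
          exact mem_cj_stab.mp h6
        · apply (h1 ((g * r) • w) (a • v)).subset
          rintro S ⟨d, ⟨hd1, hd2⟩, rfl⟩
          have h6 := mem_KF.mp hd2 (g * r) (Finset.mem_union_right _
            (Finset.mem_image_of_mem _ (Finset.mem_filter.mpr ⟨hg, h5⟩)))
          have h7 : d • (g * r) • h = (g * r) • h := mem_cj_stab.mp h6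
          have h8 : d • (a * p) • h = (a * p) • h := mem_cj_stab.mp hd1
          refine ⟨⟨d * g, by rw [mul_smul]⟩, ?_, ?_⟩
          · by_contra hcon
            have h9 : (g * r) • w ∈ (d • g • h)ᶜ := hcon
            rw [← Set.smul_set_compl] at h9
            have h10 := smul_set_mono (a := d) (hrc g) h9
            rw [h7] at h10
            exact hw (Set.smul_mem_smul_set_iff.mp h10)
          · intro hcon
            have h9 : a • v ∈ (a * p) • h := by
              rw [mul_smul]
              exact Set.smul_mem_smul_set hv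
            rw [← h8] at h9
            have h10 := (Set.disjoint_smul_set (a := d)).mpr (h5.mono_left hstrict.1)
            exact Set.disjoint_left.mp h10 h9 hcon
      apply Set.Finite.subset (Set.Finite.pi' hval)
      rintro _ ⟨d, hd, rfl⟩ g
      exact ⟨d, hd, rfl⟩
    · intro d _ d' _ he
      rw [mem_KF]
      intro g hg
      rw [mem_cj_stab]
      have h5 := congrFun he ⟨g, hg⟩
      simp only at h5
      rw [mul_smul, ← h5, inv_smul_smul]

end Wall

variable {G : Type*} {X : Type u} {V : Type*} [Group G] [MetricSpace X] [IsCAT0 X] [ProperSpace X]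
  [MulAction G X] [IsIsometricSMul G X] [ProperlyDiscontinuousSMul G X] [MulAction G V]
  {h : Set V}

/-- a strict translation with finite common stabiliser is rank one -/
lemma rankOne_of_wall_translation [Nonempty X] (hcoc : Cocompact G X) (h1 : FinSep h G) {p : G}
    (hp : p • h ⊂ h)
    (hf : ((MulAction.stabilizer G h ⊓ cj (MulAction.stabilizer G h) p : Subgroup G) : Set G).Finite) :
    IsRankOne (X := X) p⁻¹ := by
  obtain ⟨w, hw⟩ : ∃ w, w ∉ h := by
    by_contra hcon
    push Not at hcon
    apply hp.2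
    intro v _
    have := hcon (p⁻¹ • v)
    rwa [← Set.mem_smul_set_iff_inv_smul_mem] at this
  obtain ⟨v, hv⟩ : ∃ v, v ∈ h := by
    by_contra hcon
    push Not at hcon
    apply hp.2
    intro v hv
    exact absurd hv (hcon _)
  have hP := posSys_wall h1 ⟨p, hp⟩
  have hpow : ∀ n : ℕ, p ^ (n + 1) • h ⊂ h := by
    intro n
    induction n with
    | zero => simpa using hp
    | succ n ih =>
      rw [pow_succ, mul_smul]
      exact (smul_ssubset hp).trans ih
  have hinj : Function.Injective (fun n : ℕ => p ^ (n + 1) • h) := by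
    have hlt : ∀ m n : ℕ, m < n → p ^ (n + 1) • h ⊂ p ^ (m + 1) • h := by
      intro m n hmn
      obtain ⟨k, rfl⟩ := Nat.exists_eq_add_of_lt hmn
      have h2 := smul_ssubset (g := p ^ (m + 1)) (hpow k)
      rw [smul_smul, ← pow_add] at h2
      have e : m + 1 + (k + 1) = m + k + 1 + 1 := by omega
      rwa [e] at h2
    intro m n hmn
    rcases lt_trichotomy m n with h2 | h2 | h2
    · exact absurd hmn.symm (hlt m n h2).ne
    · exact h2
    · exact absurd hmn (hlt n m h2).ne
  have hout : ∃ n : ℕ, v ∉ p ^ (n + 1) • h := by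
    by_contra hcon
    push Not at hcon
    apply Set.infinite_range_of_injective hinj
    apply (h1 v w).subset
    rintro _ ⟨n, rfl⟩
    exact ⟨⟨_, rfl⟩, hcon n, fun hwn => hw ((hpow n).1 hwn)⟩
  have hne : ∀ n : ℕ, 0 < n → p⁻¹ ^ n ≠ 1 := by
    intro n hn he
    rw [inv_pow, inv_eq_one] at he
    have h2 := hpow (n - 1)
    rw [Nat.sub_add_cancel hn, he, one_smul] at h2
    exact h2.ne rfl
  obtain ⟨c, hc, l, hl, hax⟩ := exists_axis (X := X) hcoc hne
  refine ⟨c, hc, ⟨l, hl.ne', hax⟩, ?_⟩
  apply not_boundsHalfPlane_of_sep (V := V) hcoc (fun S : Set V => S)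
    (fun g e v => Set.smul_mem_smul_set_iff) v p⁻¹ h _ _ ⟨0, by simpa using hv⟩ _ _ hc hl hax
  · intro g
    apply (h1 v (g • v)).subset
    rintro S ⟨⟨k, rfl⟩, h2, h3⟩
    exact ⟨⟨k, rfl⟩, h2, h3⟩
  · have h2 := smul_ssubset (g := p⁻¹) hp
    rw [inv_smul_smul] at h2
    exact h2.1
  · obtain ⟨n, hn⟩ := hout
    refine ⟨-((n + 1 : ℕ) : ℤ), ?_⟩
    rw [inv_zpow, zpow_neg, inv_inv, zpow_natCast]
    exact hn
  · have h2 := hf.image (fun k => p⁻¹ * k * p)
    apply h2.subset
    rintro g ⟨hg1, hg2⟩
    refine ⟨p * g * p⁻¹, ⟨?_, ?_⟩, by group⟩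
    · show (p * g * p⁻¹) • h = h
      rw [mul_smul, mul_smul, hg2, smul_inv_smul]
    · show p * g * p⁻¹ ∈ cj (MulAction.stabilizer G h) p
      rw [mem_cj]
      have : p⁻¹ * (p * g * p⁻¹) * p = g := by group
      rw [this]
      exact hg1

theorem rankOne_of_wall [Nonempty X] (hgc : GeodesicallyComplete X) (hcoc : Cocompact G X)
    (hirr : MetricIrreducible X) (h1 : FinSep h G) (hK : CCo X (MulAction.stabilizer G h))
    {p : G} (hp : p • h ⊂ h)
    (h3 : ∀ g : G, ∃ a : G, a • h ⊆ h ∧ (a • h ⊆ g • h ∨ Disjoint (a • h) (g • h)))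
    {r : G} (hr : h ∪ r • h = univ) : ∃ g : G, IsRankOne (X := X) g := by
  have hP := posSys_wall h1 ⟨p, hp⟩
  have hidx : (MulAction.stabilizer G h : Subgroup G).relIndex ⊤ = 0 := by
    by_contra hi
    rw [Subgroup.relIndex_top_right] at hi
    obtain ⟨n, hn, _, hn2⟩ := Subgroup.exists_pow_mem_of_index_ne_zero hi p
    have h2 : p ^ n • h = h := hn2
    have hpow : ∀ n : ℕ, p ^ (n + 1) • h ⊂ h := by
      intro n
      induction n with
      | zero => simpa using hp
      | succ n ih =>
        rw [pow_succ, mul_smul]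
        exact (smul_ssubset hp).trans ih
    have h4 := hpow (n - 1)
    rw [Nat.sub_add_cancel hn, h2] at h4
    exact h4.ne rfl
  obtain ⟨q, hq, hqf⟩ := exists_finite_segment hgc hcoc hirr hP hK hidx
    (fun F => cover_wall h1 hp h3 hr F)
  exact ⟨q⁻¹, rankOne_of_wall_translation hcoc h1 hq hqf⟩

end Pool.Agent.H29.RR
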